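import Mathlib
import Pool.Agent.Hhelper79.LT.Swap

set_option autoImplicit false

/-!
Linear forms `a s + b` in one parameter `s : ℕ`, with decidable comparison for all `s`.
-/

namespace Pool.Agent.Hhelper79.PL

/-- the linear form `l.1 * s + l.2` -/
abbrev Lin := ℤ × ℤ

/-- value -/
def ev (s : ℕ) (l : Lin) : ℤ := l.1 * s + l.2

def le (l m : Lin) : Bool := decide (l.1 ≤ m.1) && decide (l.2 ≤ m.2)

def lt (l m : Lin) : Bool := decide (l.1 ≤ m.1) && decide (l.2 < m.2)

def ne (l m : Lin) : Bool := lt l m || lt m l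

theorem ev_add (s : ℕ) (l m : Lin) : ev s (l + m) = ev s l + ev s m := by
  unfold ev; simp only [Prod.fst_add, Prod.snd_add]; ring

theorem ev_sub (s : ℕ) (l m : Lin) : ev s (l - m) = ev s l - ev s m := by
  unfold ev; simp only [Prod.fst_sub, Prod.snd_sub]; ring

theorem ev_zero (s : ℕ) : ev s 0 = 0 := by unfold ev; simp

/-- scalar multiple -/
def sm (z : ℤ) (l : Lin) : Lin := (z * l.1, z * l.2)

theorem ev_sm (s : ℕ) (z : ℤ) (l : Lin) : ev s (sm z l) = z * ev s l := by
  unfold ev sm; simp only; ring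

/-- constants -/
def ct (z : ℤ) : Lin := (0, z)

theorem ev_ct (s : ℕ) (z : ℤ) : ev s (ct z) = z := by unfold ev ct; simp

theorem le_spec {l m : Lin} (h : le l m = true) (s : ℕ) : ev s l ≤ ev s m := by
  unfold le at h
  simp only [Bool.and_eq_true, decide_eq_true_eq] at h
  unfold ev
  have := mul_le_mul_of_nonneg_right h.1 (Int.natCast_nonneg s)
  linarith [h.2]

theorem lt_spec {l m : Lin} (h : lt l m = true) (s : ℕ) : ev s l < ev s m := by
  unfold lt at h
  simp only [Bool.and_eq_true, decide_eq_true_eq] at h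
  unfold ev
  have := mul_le_mul_of_nonneg_right h.1 (Int.natCast_nonneg s)
  linarith [h.2]

theorem ne_spec {l m : Lin} (h : ne l m = true) (s : ℕ) : ev s l ≠ ev s m := by
  unfold ne at h
  rw [Bool.or_eq_true] at h
  rcases h with h | h
  · exact ne_of_lt (lt_spec h s)
  · exact ne_of_gt (lt_spec h s)

/-- different parity for all `s` -/
def par (l m : Lin) : Bool := (l.1 - m.1) % 2 == 0 && (l.2 - m.2) % 2 == 1

theorem par_spec {l m : Lin} (h : par l m = true) (s : ℕ) : (ev s l - ev s m) % 2 = 1 := by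
  unfold par at h
  simp only [Bool.and_eq_true, beq_iff_eq] at h
  unfold ev
  obtain ⟨k, hk⟩ := Int.dvd_of_emod_eq_zero h.1
  have e : l.1 * (s : ℤ) + l.2 - (m.1 * s + m.2) = (l.2 - m.2) + 2 * (k * s) := by
    have : (l.1 - m.1) * (s : ℤ) = 2 * k * s := by rw [hk]
    linarith
  rw [e, Int.add_mul_emod_self_left]
  exact h.2

/-- a list of consecutive intervals from `a` to `b - 1` -/
def chain : List (Lin × Lin) → Lin → Lin → Bool
  | [], a, b => a == b
  | x :: l, a, b => x.1 == a && chain l (x.2 + ct 1) b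

theorem chain_cover {l : List (Lin × Lin)} {a b : Lin} (h : chain l a b = true) (s : ℕ) {y : ℤ}
    (h1 : ev s a ≤ y) (h2 : y < ev s b) : ∃ x ∈ l, ev s x.1 ≤ y ∧ y ≤ ev s x.2 := by
  induction l generalizing a with
  | nil =>
    unfold chain at h
    rw [beq_iff_eq] at h
    subst h
    omega
  | cons x l ih =>
    unfold chain at h
    simp only [Bool.and_eq_true, beq_iff_eq] at h
    by_cases hy : y ≤ ev s x.2
    · exact ⟨x, List.mem_cons_self, by rw [h.1]; exact h1, hy⟩
    · obtain ⟨x', hx', h3⟩ := ih h.2 (by rw [ev_add, ev_ct]; omega)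
      exact ⟨x', List.mem_cons_of_mem _ hx', h3⟩

/-- casts of integers in `[0, n)` -/
theorem cast_inj {n : ℕ} {x y : ℤ} (hx : 0 ≤ x) (hx' : x < n) (hy : 0 ≤ y) (hy' : y < n)
    (h : (x : ZMod n) = (y : ZMod n)) : x = y := by
  have h1 := (ZMod.intCast_eq_intCast_iff x y n).1 h
  unfold Int.ModEq at h1
  rwa [Int.emod_eq_of_lt hx hx', Int.emod_eq_of_lt hy hy'] at h1

theorem cast_val {n : ℕ} [NeZero n] (i : ZMod n) : (((i.val : ℤ)) : ZMod n) = i := by
  rw [Int.cast_natCast]; simp

theorem val_cast {n : ℕ} [NeZero n] {x : ℤ} (hx : 0 ≤ x) (hx' : x < n) :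
    (((x : ZMod n)).val : ℤ) = x := by
  rw [ZMod.val_intCast, Int.emod_eq_of_lt hx hx']

theorem val_lt_int {n : ℕ} [NeZero n] (i : ZMod n) : (i.val : ℤ) < n := by
  exact_mod_cast ZMod.val_lt i

end Pool.Agent.Hhelper79.PL
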