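import Mathlib
import Pool.Agent.Hhelper79.PL.Lin

set_option autoImplicit false

/-!
Latin squares `i + c` with finitely many special rows, whose contents are permuted on each of
finitely many column intervals; everything depends linearly on a parameter `s`.
-/

namespace Pool.Agent.Hhelper79.PL

open Pool.Agent.Hhelper79.LT Finset

/-- data of a square: `N = n`, `Hf = h`, special rows `R`, column pieces
`((lo, hi), permutation of the indices of the special rows)` -/
structure Sq where
  N : Lin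
  Hf : Lin
  R : List Lin
  C : List ((Lin × Lin) × List ℕ)

namespace Sq

variable (d : Sq)

/-- the special row of index `a` -/
def Rg (a : ℕ) : Lin := d.R.getD a 0

/-- number of special rows -/
def k : ℕ := d.R.length

/-- index of a special row -/
def sp (s : ℕ) (x : ℤ) : Option ℕ := (List.range d.k).find? fun a => decide (ev s (d.Rg a) = x)

/-- the piece containing the column `y` -/
def pc (s : ℕ) (y : ℤ) : (Lin × Lin) × List ℕ :=
  (d.C.find? fun P => decide (ev s P.1.1 ≤ y) && decide (y ≤ ev s P.1.2)).getD ((0, 0), [])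

/-- content of the special row `a` in a piece -/
def ct' (P : (Lin × Lin) × List ℕ) (a : ℕ) : Lin := d.Rg (P.2.getD a a)

/-- the square -/
def B (s : ℕ) {n : ℕ} (i c : ZMod n) : ZMod n :=
  match d.sp s i.val with
  | none => i + c
  | some a => ((ev s (d.ct' (d.pc s c.val) a) : ℤ) : ZMod n) + c

/-- start of the symbol interval of the special row `a` in the piece `P` -/
def sLo (P : (Lin × Lin) × List ℕ) (a : ℕ) : Lin :=
  if lt (P.1.2 + d.ct' P a) d.N then P.1.1 + d.ct' P a else P.1.1 + d.ct' P a - d.N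

/-- end of the symbol interval -/
def sHi (P : (Lin × Lin) × List ℕ) (a : ℕ) : Lin :=
  if lt (P.1.2 + d.ct' P a) d.N then P.1.2 + d.ct' P a else P.1.2 + d.ct' P a - d.N

/-- basic checks: special rows distinct and in `[0, n)`, pieces cover `[0, n)`, disjoint,
permutations valid -/
def chkBasic : Bool :=
  d.N == d.Hf + d.Hf && lt 0 d.Hf &&
  ((List.range d.k).all fun a => le 0 (d.Rg a) && lt (d.Rg a) d.N) &&
  ((List.range d.k).all fun a => (List.range d.k).all fun b =>
    a == b || ne (d.Rg a) (d.Rg b)) &&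
  chain (d.C.map Prod.fst) 0 d.N &&
  (d.C.all fun P => d.C.all fun Q => P == Q || lt P.1.2 Q.1.1 || lt Q.1.2 P.1.1) &&
  (d.C.all fun P => ((List.range d.k).all fun a => Nat.blt (P.2.getD a a) d.k) &&
    ((List.range d.k).all fun a => (List.range d.k).all fun b =>
      a == b || !(P.2.getD a a == P.2.getD b b)))

/-- row check -/
def chkRows : Bool :=
  (List.range d.k).all fun a =>
    (d.C.all fun P => le 0 (d.sLo P a) && lt (d.sHi P a) d.N) &&
    (d.C.all fun P => d.C.all fun Q => P == Q || lt (d.sHi P a) (d.sLo Q a) ||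
      lt (d.sHi Q a) (d.sLo P a))

end Sq

/-- unpacked basic checks at the parameter `s` -/
structure Ok (d : Sq) (s n h : ℕ) : Prop where
  hn : (n : ℤ) = ev s d.N
  hh : (h : ℤ) = ev s d.Hf
  n2 : n = 2 * h
  hpos : 0 < h
  row : ∀ a < d.k, 0 ≤ ev s (d.Rg a) ∧ ev s (d.Rg a) < n
  rowne : ∀ a < d.k, ∀ b < d.k, a ≠ b → ev s (d.Rg a) ≠ ev s (d.Rg b)
  cover : ∀ y : ℤ, 0 ≤ y → y < n → ∃ P ∈ d.C, ev s P.1.1 ≤ y ∧ y ≤ ev s P.1.2
  disj : ∀ P ∈ d.C, ∀ Q ∈ d.C, P ≠ Q → ev s P.1.2 < ev s Q.1.1 ∨ ev s Q.1.2 < ev s P.1.1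
  permlt : ∀ P ∈ d.C, ∀ a < d.k, P.2.getD a a < d.k
  perminj : ∀ P ∈ d.C, ∀ a < d.k, ∀ b < d.k, P.2.getD a a = P.2.getD b b → a = b

theorem ok_of_chk {d : Sq} (hd : d.chkBasic = true) {s n h : ℕ} (hn : (n : ℤ) = ev s d.N)
    (hh : (h : ℤ) = ev s d.Hf) : Ok d s n h := by
  unfold Sq.chkBasic at hd
  simp only [Bool.and_eq_true, List.all_eq_true, List.mem_range, Bool.or_eq_true, beq_iff_eq,
    Bool.not_eq_true', beq_eq_false_iff_ne, Nat.blt_eq] at hd
  obtain ⟨⟨⟨⟨⟨⟨h1, h2⟩, h3⟩, h4⟩, h5⟩, h6⟩, h7⟩ := hd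
  have hpos : (0 : ℤ) < h := by
    rw [hh]; have := lt_spec h2 s; rwa [ev_zero] at this
  refine ⟨hn, hh, ?_, by exact_mod_cast hpos, ?_, ?_, ?_, ?_, ?_, ?_⟩
  · have : (n : ℤ) = 2 * h := by rw [hn, h1, ev_add, ← hh]; ring
    exact_mod_cast this
  · intro a ha
    have h8 := le_spec (h3 a ha).1 s
    have h9 := lt_spec (h3 a ha).2 s
    rw [ev_zero] at h8
    exact ⟨h8, by rw [hn]; exact h9⟩
  · intro a ha b hb hab
    rcases h4 a ha b hb with h8 | h8
    · exact absurd h8 hab
    · exact ne_spec h8 s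
  · intro y hy hy'
    obtain ⟨x, hx, h8⟩ := chain_cover h5 s (y := y) (by rw [ev_zero]; exact hy)
      (by rw [← hn]; exact hy')
    obtain ⟨P, hP, rfl⟩ := List.mem_map.1 hx
    exact ⟨P, hP, h8⟩
  · intro P hP Q hQ hPQ
    rcases h6 P hP Q hQ with (h8 | h8) | h8
    · exact absurd h8 hPQ
    · exact Or.inl (lt_spec h8 s)
    · exact Or.inr (lt_spec h8 s)
  · intro P hP a ha
    exact (h7 P hP).1 a ha
  · intro P hP a ha b hb hab
    rcases (h7 P hP).2 a ha b hb with h8 | h8
    · exact h8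
    · exact absurd hab h8

section

variable {d : Sq} {s n h : ℕ}

theorem Ok.ne_zero (ok : Ok d s n h) : NeZero n := ⟨by have := ok.hpos; have := ok.n2; omega⟩

theorem Ok.pc_eq (ok : Ok d s n h) {P : (Lin × Lin) × List ℕ} (hP : P ∈ d.C) {y : ℤ}
    (h1 : ev s P.1.1 ≤ y) (h2 : y ≤ ev s P.1.2) : d.pc s y = P := by
  unfold Sq.pc
  cases h3 : d.C.find? fun P => decide (ev s P.1.1 ≤ y) && decide (y ≤ ev s P.1.2) with
  | none =>
    exfalso
    rw [List.find?_eq_none] at h3
    apply h3 P hP
    simp [h1, h2]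
  | some Q =>
    have h4 := List.find?_some h3
    simp only [Bool.and_eq_true, decide_eq_true_eq] at h4
    have hQ := List.mem_of_find?_eq_some h3
    by_contra hne
    simp only [Option.getD_some] at hne
    rcases ok.disj Q hQ P hP hne with h5 | h5 <;> omega

theorem Ok.pc_spec (ok : Ok d s n h) {y : ℤ} (h1 : 0 ≤ y) (h2 : y < n) :
    d.pc s y ∈ d.C ∧ ev s (d.pc s y).1.1 ≤ y ∧ y ≤ ev s (d.pc s y).1.2 := by
  obtain ⟨P, hP, h3, h4⟩ := ok.cover y h1 h2
  rw [ok.pc_eq hP h3 h4]
  exact ⟨hP, h3, h4⟩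

theorem Ok.sp_eq (ok : Ok d s n h) {a : ℕ} (ha : a < d.k) : d.sp s (ev s (d.Rg a)) = some a := by
  unfold Sq.sp
  cases h3 : (List.range d.k).find? fun b => decide (ev s (d.Rg b) = ev s (d.Rg a)) with
  | none =>
    exfalso
    rw [List.find?_eq_none] at h3
    apply h3 a (List.mem_range.2 ha)
    simp
  | some b =>
    have h4 := List.find?_some h3
    simp only [decide_eq_true_eq] at h4
    have hb := List.mem_range.1 (List.mem_of_find?_eq_some h3)
    by_contra hne
    exact ok.rowne b hb a ha (fun e => hne (by rw [e])) h4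

theorem sp_some {x : ℤ} {a : ℕ} (hx : d.sp s x = some a) : a < d.k ∧ ev s (d.Rg a) = x := by
  unfold Sq.sp at hx
  have h4 := List.find?_some hx
  simp only [decide_eq_true_eq] at h4
  exact ⟨List.mem_range.1 (List.mem_of_find?_eq_some hx), h4⟩

theorem sp_none {x : ℤ} (hx : ∀ a < d.k, ev s (d.Rg a) ≠ x) : d.sp s x = none := by
  unfold Sq.sp
  rw [List.find?_eq_none]
  intro a ha
  simp only [decide_eq_true_eq]
  exact hx a (List.mem_range.1 ha)

/-- normal rows -/
theorem B_normal {i c : ZMod n} (hi : ∀ a < d.k, ev s (d.Rg a) ≠ (i.val : ℤ)) :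
    d.B s i c = i + c := by
  unfold Sq.B
  rw [sp_none hi]

/-- special rows -/
theorem Ok.B_special (ok : Ok d s n h) {i c : ZMod n} {a : ℕ} (ha : a < d.k)
    (hi : ev s (d.Rg a) = (i.val : ℤ)) {P : (Lin × Lin) × List ℕ} (hP : P ∈ d.C)
    (h1 : ev s P.1.1 ≤ (c.val : ℤ)) (h2 : (c.val : ℤ) ≤ ev s P.1.2) :
    d.B s i c = ((ev s (d.ct' P a) : ℤ) : ZMod n) + c := by
  unfold Sq.B
  rw [← hi, ok.sp_eq ha]
  simp only
  rw [ok.pc_eq hP h1 h2]

theorem Ok.latin (ok : Ok d s n h) (hr : d.chkRows = true) :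
    IsLatin (fun i c : ZMod n => d.B s i c) := by
  have hne := ok.ne_zero
  have hmod : ∀ (x : Lin), ((ev s (x - d.N) : ℤ) : ZMod n) = ((ev s x : ℤ) : ZMod n) := by
    intro x
    rw [ev_sub, ← ok.hn]; simp
  constructor
  · intro i
    by_cases hi : ∃ a < d.k, ev s (d.Rg a) = (i.val : ℤ)
    · obtain ⟨a, ha, hia⟩ := hi
      unfold Sq.chkRows at hr
      simp only [Bool.and_eq_true, List.all_eq_true, List.mem_range, Bool.or_eq_true,
        beq_iff_eq] at hr
      obtain ⟨hr1, hr2⟩ := hr a ha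
      intro c c' hcc
      obtain ⟨hP, hP1, hP2⟩ := ok.pc_spec (y := c.val) (by positivity) (val_lt_int c)
      obtain ⟨hQ, hQ1, hQ2⟩ := ok.pc_spec (y := c'.val) (by positivity) (val_lt_int c')
      generalize d.pc s c.val = P at *
      generalize d.pc s c'.val = Q at *
      simp only at hcc
      rw [ok.B_special ha hia hP hP1 hP2, ok.B_special ha hia hQ hQ1 hQ2] at hcc
      -- integer representatives of the symbols
      have key : ∀ (P : (Lin × Lin) × List ℕ), P ∈ d.C → ∀ c : ZMod n,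
          ev s P.1.1 ≤ (c.val : ℤ) → (c.val : ℤ) ≤ ev s P.1.2 →
          ∃ z : ℤ, ((z : ZMod n)) = ((ev s (d.ct' P a) : ℤ) : ZMod n) + c ∧ 0 ≤ z ∧ z < n ∧
            z = ev s (d.sLo P a) + ((c.val : ℤ) - ev s P.1.1) ∧
            ev s (d.sLo P a) ≤ z ∧ z ≤ ev s (d.sHi P a) := by
        intro P hP c h1 h2
        refine ⟨ev s (d.sLo P a) + ((c.val : ℤ) - ev s P.1.1), ?_, ?_, ?_, rfl, by omega, ?_⟩
        · have h3 : ((ev s (d.sLo P a) : ℤ) : ZMod n) =
              ((ev s (P.1.1 + d.ct' P a) : ℤ) : ZMod n) := by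
            unfold Sq.sLo
            split_ifs
            · rfl
            · exact hmod _
          push_cast
          rw [h3, ev_add]
          push_cast
          have := cast_val c
          push_cast at this
          rw [this]; ring
        · have := le_spec (hr1 P hP).1 s
          rw [ev_zero] at this
          omega
        · have h4 := lt_spec (hr1 P hP).2 s
          rw [← ok.hn] at h4
          have h5 : ev s (d.sHi P a) - ev s (d.sLo P a) = ev s P.1.2 - ev s P.1.1 := by
            unfold Sq.sHi Sq.sLo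
            split_ifs
            · rw [ev_add, ev_add]; ring
            · rw [ev_sub, ev_sub, ev_add, ev_add]; ring
          omega
        · have h5 : ev s (d.sHi P a) - ev s (d.sLo P a) = ev s P.1.2 - ev s P.1.1 := by
            unfold Sq.sHi Sq.sLo
            split_ifs
            · rw [ev_add, ev_add]; ring
            · rw [ev_sub, ev_sub, ev_add, ev_add]; ring
          omega
      obtain ⟨z, hz1, hz2, hz3, hz4, hz5, hz6⟩ := key P hP c hP1 hP2
      obtain ⟨w, hw1, hw2, hw3, hw4, hw5, hw6⟩ := key Q hQ c' hQ1 hQ2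
      have hzw : z = w := cast_inj hz2 hz3 hw2 hw3 (by rw [hz1, hw1]; exact hcc)
      have hPQ : P = Q := by
        rcases hr2 P hP Q hQ with (h8 | h8) | h8
        · exact h8
        · have := lt_spec h8 s; omega
        · have := lt_spec h8 s; omega
      subst hPQ
      have : (c.val : ℤ) = c'.val := by omega
      exact ZMod.val_injective n (by exact_mod_cast this)
    · push Not at hi
      intro c c' hcc
      simp only at hcc
      rw [B_normal hi, B_normal hi] at hcc
      exact add_left_cancel hcc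
  · intro c
    obtain ⟨hP, hP1, hP2⟩ := ok.pc_spec (y := c.val) (by positivity) (val_lt_int c)
    generalize d.pc s c.val = P at *
    -- the effective row
    have key : ∀ i : ZMod n, ∃ z : ZMod n, d.B s i c = z + c ∧
        ((∀ a < d.k, ev s (d.Rg a) ≠ (i.val : ℤ)) → z = i) ∧
        (∀ a < d.k, ev s (d.Rg a) = (i.val : ℤ) → z = ((ev s (d.ct' P a) : ℤ) : ZMod n)) := by
      intro i
      by_cases hi : ∃ a < d.k, ev s (d.Rg a) = (i.val : ℤ)
      · obtain ⟨a, ha, hia⟩ := hi
        refine ⟨_, ok.B_special ha hia hP hP1 hP2, ?_, ?_⟩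
        · intro hno; exact absurd hia (hno a ha)
        · intro b hb hib
          have : a = b := by
            by_contra hab
            exact ok.rowne a ha b hb hab (hia.trans hib.symm)
          rw [this]
      · push Not at hi
        exact ⟨i, B_normal hi, fun _ => rfl, fun a ha h => absurd h (hi a ha)⟩
    intro i i' hii
    simp only at hii
    obtain ⟨z, hz1, hz2, hz3⟩ := key i
    obtain ⟨w, hw1, hw2, hw3⟩ := key i'
    rw [hz1, hw1] at hii
    have hzw := add_right_cancel hii
    have hcast : ∀ a < d.k, (((ev s (d.Rg a) : ℤ) : ZMod n).val : ℤ) = ev s (d.Rg a) :=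
      fun a ha => val_cast (ok.row a ha).1 (ok.row a ha).2
    by_cases hi : ∃ a < d.k, ev s (d.Rg a) = (i.val : ℤ) <;>
      by_cases hi' : ∃ a < d.k, ev s (d.Rg a) = (i'.val : ℤ)
    · obtain ⟨a, ha, hia⟩ := hi
      obtain ⟨b, hb, hib⟩ := hi'
      rw [hz3 a ha hia, hw3 b hb hib] at hzw
      have h3 := ok.permlt P hP a ha
      have h4 := ok.permlt P hP b hb
      have h5 : ev s (d.ct' P a) = ev s (d.ct' P b) :=
        cast_inj (ok.row _ h3).1 (ok.row _ h3).2 (ok.row _ h4).1 (ok.row _ h4).2 hzw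
      have h6 : P.2.getD a a = P.2.getD b b := by
        by_contra hne'
        exact ok.rowne _ h3 _ h4 hne' h5
      have h7 := ok.perminj P hP a ha b hb h6
      subst h7
      have : (i.val : ℤ) = i'.val := by rw [← hia, ← hib]
      exact ZMod.val_injective n (by exact_mod_cast this)
    · exfalso
      obtain ⟨a, ha, hia⟩ := hi
      push Not at hi'
      rw [hz3 a ha hia, hw2 hi'] at hzw
      have h3 := ok.permlt P hP a ha
      apply hi' _ h3
      rw [← hzw]
      exact (hcast _ h3).symm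
    · exfalso
      obtain ⟨a, ha, hia⟩ := hi'
      push Not at hi
      rw [hw3 a ha hia, hz2 hi] at hzw
      have h3 := ok.permlt P hP a ha
      apply hi _ h3
      rw [hzw]
      exact (hcast _ h3).symm
    · push Not at hi hi'
      rw [hz2 hi, hw2 hi'] at hzw
      exact hzw

end

end Pool.Agent.Hhelper79.PL
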