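import Mathlib
import Pool.Agent.Hhelper79.PL.Square

set_option autoImplicit false

/-!
Piecewise diagonal transversals.
-/

namespace Pool.Agent.Hhelper79.PL

open Pool.Agent.Hhelper79.LT Finset

/-- a piece of a transversal: rows `lo..hi`, diagonal `D` (column = row + D), `w` = number of
times `n` has to be subtracted from the symbol, `kind = some (a, j)`: the row is the special row
`a` and the column is in the column piece `j` -/
structure TP where
  lo : Lin
  hi : Lin
  D : Lin
  w : ℤ
  kind : Option (ℕ × ℕ)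
  deriving DecidableEq, Inhabited

namespace TP

/-- the column piece -/
def pce (d : Sq) (j : ℕ) : (Lin × Lin) × List ℕ := d.C.getD j ((0, 0), [])

/-- first symbol -/
def s0 (d : Sq) (P : TP) : Lin :=
  match P.kind with
  | none => P.lo + P.lo + P.D - sm P.w d.N
  | some (a, j) => d.ct' (pce d j) a + P.lo + P.D - sm P.w d.N

/-- last symbol -/
def s1 (d : Sq) (P : TP) : Lin :=
  match P.kind with
  | none => P.hi + P.hi + P.D - sm P.w d.N
  | some (a, j) => d.ct' (pce d j) a + P.lo + P.D - sm P.w d.N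

/-- validity of one piece -/
def ok1 (d : Sq) (P : TP) : Bool :=
  le P.lo P.hi && le 0 (P.lo + P.D) && lt (P.hi + P.D) d.N && le 0 (P.s0 d) && lt (P.s1 d) d.N &&
  (match P.kind with
  | none => (List.range d.k).all fun a => lt (d.Rg a) P.lo || lt P.hi (d.Rg a)
  | some (a, j) => Nat.blt a d.k && Nat.blt j d.C.length && P.lo == P.hi && P.lo == d.Rg a &&
      le (pce d j).1.1 (P.lo + P.D) && le (P.lo + P.D) (pce d j).1.2)

/-- compatibility of two pieces of one transversal -/
def ok2 (d : Sq) (P Q : TP) : Bool :=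
  P == Q || ((lt (P.hi + P.D) (Q.lo + Q.D) || lt (Q.hi + Q.D) (P.lo + P.D)) &&
    (par (P.s0 d) (Q.s0 d) || lt (P.s1 d) (Q.s0 d) || lt (Q.s1 d) (P.s0 d)))

end TP

/-- check of a transversal -/
def chkTr (d : Sq) (l : List TP) : Bool :=
  chain (l.map fun P => (P.lo, P.hi)) 0 d.N && (l.all fun P => P.ok1 d) &&
    (l.all fun P => l.all fun Q => P.ok2 d Q)

/-- check of the disjointness of two transversals -/
def chkDj (l m : List TP) : Bool :=
  l.all fun P => m.all fun Q => lt P.hi Q.lo || lt Q.hi P.lo || ne P.D Q.D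

/-- the piece containing a row -/
def pieceOf (s : ℕ) (l : List TP) (x : ℤ) : TP :=
  (l.find? fun P => decide (ev s P.lo ≤ x) && decide (x ≤ ev s P.hi)).getD default

/-- the function given by the list of pieces -/
def fn (s : ℕ) (l : List TP) {n : ℕ} (i : ZMod n) : ZMod n :=
  i + ((ev s (pieceOf s l i.val).D : ℤ) : ZMod n)

section

variable {d : Sq} {s n h : ℕ}

theorem pieceOf_spec (ok : Ok d s n h) {l : List TP} (hl : chkTr d l = true) (i : ZMod n) :
    pieceOf s l i.val ∈ l ∧ ev s (pieceOf s l i.val).lo ≤ (i.val : ℤ) ∧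
      (i.val : ℤ) ≤ ev s (pieceOf s l i.val).hi := by
  have hne := ok.ne_zero
  unfold chkTr at hl
  simp only [Bool.and_eq_true] at hl
  obtain ⟨x, hx, h1, h2⟩ := chain_cover hl.1.1 s (y := (i.val : ℤ))
    (by rw [ev_zero]; positivity) (by rw [← ok.hn]; exact val_lt_int i)
  obtain ⟨P, hP, rfl⟩ := List.mem_map.1 hx
  simp only at h1 h2
  unfold pieceOf
  cases h3 : l.find? fun P => decide (ev s P.lo ≤ (i.val : ℤ)) &&
      decide ((i.val : ℤ) ≤ ev s P.hi) with
  | none =>
    exfalso
    rw [List.find?_eq_none] at h3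
    apply h3 P hP
    rw [Bool.and_eq_true, decide_eq_true_eq, decide_eq_true_eq]
    exact ⟨h1, h2⟩
  | some Q =>
    have h4 := List.find?_some h3
    simp only [Bool.and_eq_true, decide_eq_true_eq] at h4
    exact ⟨List.mem_of_find?_eq_some h3, h4.1, h4.2⟩

/-- the column of a row -/
theorem fn_col (ok : Ok d s n h) {l : List TP} (hl : chkTr d l = true) (i : ZMod n) :
    ((fn s l i).val : ℤ) = i.val + ev s (pieceOf s l i.val).D := by
  have hne := ok.ne_zero
  obtain ⟨hP, h1, h2⟩ := pieceOf_spec ok hl i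
  unfold chkTr at hl
  simp only [Bool.and_eq_true, List.all_eq_true] at hl
  have h3 := hl.1.2 _ hP
  unfold TP.ok1 at h3
  simp only [Bool.and_eq_true] at h3
  obtain ⟨⟨⟨⟨⟨h4, h5⟩, h6⟩, h7⟩, h8⟩, h9⟩ := h3
  have h5' := le_spec h5 s
  have h6' := lt_spec h6 s
  rw [ev_zero, ev_add] at h5'
  rw [← ok.hn, ev_add] at h6'
  unfold fn
  have e : (i + ((ev s (pieceOf s l i.val).D : ℤ) : ZMod n)) =
      (((i.val : ℤ) + ev s (pieceOf s l i.val).D : ℤ) : ZMod n) := by
    rw [Int.cast_add, cast_val]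
  rw [e]
  exact val_cast (by omega) (by omega)

/-- the symbol of a row -/
theorem fn_sym (ok : Ok d s n h) {l : List TP} (hl : chkTr d l = true) (i : ZMod n) :
    ∃ z : ℤ, d.B s i (fn s l i) = (z : ZMod n) ∧ 0 ≤ z ∧ z < n ∧
      ev s ((pieceOf s l i.val).s0 d) ≤ z ∧ z ≤ ev s ((pieceOf s l i.val).s1 d) ∧
      z = ev s ((pieceOf s l i.val).s0 d) + 2 * ((i.val : ℤ) - ev s (pieceOf s l i.val).lo) := by
  have hne := ok.ne_zero
  have hcol := fn_col ok hl i
  obtain ⟨hP, h1, h2⟩ := pieceOf_spec ok hl i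
  unfold chkTr at hl
  simp only [Bool.and_eq_true, List.all_eq_true] at hl
  have h3 := hl.1.2 _ hP
  have hfn : fn s l i = i + ((ev s (pieceOf s l i.val).D : ℤ) : ZMod n) := rfl
  generalize pieceOf s l i.val = P at *
  unfold TP.ok1 at h3
  simp only [Bool.and_eq_true] at h3
  obtain ⟨⟨⟨⟨⟨h4, h5⟩, h6⟩, h7⟩, h8⟩, h9⟩ := h3
  have h7' := le_spec h7 s
  have h8' := lt_spec h8 s
  rw [ev_zero] at h7'
  rw [← ok.hn] at h8'
  have hN : ((ev s d.N : ℤ) : ZMod n) = 0 := by rw [← ok.hn]; simp
  cases hk : P.kind with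
  | none =>
    rw [hk] at h9
    simp only [List.all_eq_true, List.mem_range, Bool.or_eq_true] at h9
    have hs0 : P.s0 d = P.lo + P.lo + P.D - sm P.w d.N := by unfold TP.s0; rw [hk]
    have hs1 : P.s1 d = P.hi + P.hi + P.D - sm P.w d.N := by unfold TP.s1; rw [hk]
    have e0 : ev s (P.s0 d) = ev s P.lo + ev s P.lo + ev s P.D - P.w * ev s d.N := by
      rw [hs0, ev_sub, ev_add, ev_add, ev_sm]
    have e1 : ev s (P.s1 d) = ev s P.hi + ev s P.hi + ev s P.D - P.w * ev s d.N := by
      rw [hs1, ev_sub, ev_add, ev_add, ev_sm]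
    refine ⟨ev s (P.s0 d) + 2 * ((i.val : ℤ) - ev s P.lo), ?_, by omega, by omega, by omega,
      by omega, rfl⟩
    rw [B_normal, hfn, e0]
    · push_cast
      rw [hN]
      have := cast_val i
      push_cast at this
      rw [this]
      ring
    · intro a ha hcon
      rcases h9 a ha with h10 | h10
      · have := lt_spec h10 s; omega
      · have := lt_spec h10 s; omega
  | some x =>
    obtain ⟨a, j⟩ := x
    rw [hk] at h9
    simp only [Bool.and_eq_true, beq_iff_eq, Nat.blt_eq] at h9
    obtain ⟨⟨⟨⟨⟨ha, hj⟩, h10⟩, h11⟩, h12⟩, h13⟩ := h9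
    have hs0 : P.s0 d = d.ct' (TP.pce d j) a + P.lo + P.D - sm P.w d.N := by
      unfold TP.s0; rw [hk]
    have hs1 : P.s1 d = P.s0 d := by
      unfold TP.s1 TP.s0; rw [hk]
    have hilo : (i.val : ℤ) = ev s P.lo := by rw [← h10] at h2; omega
    have hmem : TP.pce d j ∈ d.C := by
      unfold TP.pce
      rw [List.getD_eq_getElem?_getD, List.getElem?_eq_getElem hj, Option.getD_some]
      exact List.getElem_mem hj
    have h12' := le_spec h12 s
    have h13' := le_spec h13 s
    rw [ev_add] at h12' h13'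
    refine ⟨ev s (P.s0 d) + 2 * ((i.val : ℤ) - ev s P.lo), ?_, by rw [hs1] at h8'; omega,
      by rw [hs1] at h8'; omega, by omega, by rw [hs1]; omega, rfl⟩
    rw [ok.B_special ha (by rw [← h11, hilo]) hmem (by rw [hcol]; omega) (by rw [hcol]; omega),
      hfn, hs0, ev_sub, ev_add, ev_add, ev_sm]
    have := cast_val i
    push_cast at this ⊢
    rw [hN]
    have h14 : ((ev s P.lo : ℤ) : ZMod n) = i := by rw [← hilo]; exact cast_val i
    rw [h14, this]
    ring

theorem fn_trans (ok : Ok d s n h) {l : List TP} (hl : chkTr d l = true) :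
    IsTrans (fun i c : ZMod n => d.B s i c) (fn s l) := by
  have hne := ok.ne_zero
  have hl2 := hl
  unfold chkTr at hl2
  simp only [Bool.and_eq_true, List.all_eq_true] at hl2
  obtain ⟨_, hpair⟩ := hl2
  constructor
  · intro i j hij
    have h1 := fn_col ok hl i
    have h2 := fn_col ok hl j
    rw [hij] at h1
    obtain ⟨hP, hP1, hP2⟩ := pieceOf_spec ok hl i
    obtain ⟨hQ, hQ1, hQ2⟩ := pieceOf_spec ok hl j
    generalize pieceOf s l i.val = P at *
    generalize pieceOf s l j.val = Q at *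
    have h3 := hpair P hP Q hQ
    unfold TP.ok2 at h3
    simp only [Bool.or_eq_true, Bool.and_eq_true, beq_iff_eq] at h3
    rcases h3 with h3 | ⟨h3 | h3, _⟩
    · subst h3
      exact ZMod.val_injective n (by omega)
    · have := lt_spec h3 s
      rw [ev_add, ev_add] at this
      omega
    · have := lt_spec h3 s
      rw [ev_add, ev_add] at this
      omega
  · intro i j hij
    simp only at hij
    obtain ⟨z, hz1, hz2, hz3, hz4, hz5, hz6⟩ := fn_sym ok hl i
    obtain ⟨w, hw1, hw2, hw3, hw4, hw5, hw6⟩ := fn_sym ok hl j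
    have hzw : z = w := cast_inj hz2 hz3 hw2 hw3 (by rw [← hz1, ← hw1]; exact hij)
    obtain ⟨hP, hP1, hP2⟩ := pieceOf_spec ok hl i
    obtain ⟨hQ, hQ1, hQ2⟩ := pieceOf_spec ok hl j
    generalize pieceOf s l i.val = P at *
    generalize pieceOf s l j.val = Q at *
    have h3 := hpair P hP Q hQ
    unfold TP.ok2 at h3
    simp only [Bool.or_eq_true, Bool.and_eq_true, beq_iff_eq] at h3
    rcases h3 with h3 | ⟨_, (h3 | h3) | h3⟩
    · subst h3
      exact ZMod.val_injective n (by omega)
    · have := par_spec h3 s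
      omega
    · have := lt_spec h3 s
      omega
    · have := lt_spec h3 s
      omega

theorem fn_disj (ok : Ok d s n h) {l m : List TP} (hl : chkTr d l = true)
    (hm : chkTr d m = true) (hlm : chkDj l m = true) (i : ZMod n) : fn s l i ≠ fn s m i := by
  have hne := ok.ne_zero
  intro hij
  have h1 := fn_col ok hl i
  have h2 := fn_col ok hm i
  rw [hij] at h1
  obtain ⟨hP, hP1, hP2⟩ := pieceOf_spec ok hl i
  obtain ⟨hQ, hQ1, hQ2⟩ := pieceOf_spec ok hm i
  generalize pieceOf s l i.val = P at *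
  generalize pieceOf s m i.val = Q at *
  unfold chkDj at hlm
  simp only [List.all_eq_true, Bool.or_eq_true] at hlm
  rcases hlm P hP Q hQ with (h3 | h3) | h3
  · have := lt_spec h3 s; omega
  · have := lt_spec h3 s; omega
  · have := ne_spec h3 s; omega

end

end Pool.Agent.Hhelper79.PL
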