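import Mathlib
import Pool.Agent.Hhelper79.PL.Trans

set_option autoImplicit false

/-!
Hitting sets of a piecewise square.
-/

namespace Pool.Agent.Hhelper79.PL

open Pool.Agent.Hhelper79.LT Finset

/-- `acc` is never `h` modulo `n` -/
def finB (d : Sq) (acc : Lin) : Bool :=
  le (sm (-5) d.N) acc && le acc (sm 5 d.N) &&
    [(-6 : ℤ), -5, -4, -3, -2, -1, 0, 1, 2, 3, 4, 5, 6].all fun z => ne acc (d.Hf + sm z d.N)

/-- an entry: value of Delta, and possibly the cell (column, symbol) -/
abbrev Ent := Lin × Option (Lin × Lin)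

/-- two of the chosen cells have the same column or the same symbol -/
def confl (d : Sq) (inf : List (ℕ × Lin × Lin)) : Bool :=
  inf.any fun x => inf.any fun y => !(x.1 == y.1) &&
    (x.2.1 == y.2.1 || x.2.2 == y.2.2 || x.2.2 == y.2.2 + d.N)

/-- no choice of one entry of each list, without conflict, has sum `h` modulo `n` -/
def noSum (d : Sq) : List (List Ent) → ℕ → Lin → List (ℕ × Lin × Lin) → Bool
  | [], _, acc, inf => finB d acc || confl d inf
  | l :: ls, a, acc, inf => l.all fun x => noSum d ls (a + 1) (acc + x.1)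
      (match x.2 with
      | none => inf
      | some c => (a, c.1, c.2) :: inf)

/-- check of the hitting set `H` (pairs: special row, column piece); `A` lists the possible
values of Delta in the other cells -/
def chkH (d : Sq) (H : List (ℕ × ℕ)) (A : List (List Ent)) : Bool :=
  A.length == d.k &&
  (H.all fun x => (TP.pce d x.2).1.1 == (TP.pce d x.2).1.2) &&
  ((List.range d.k).all fun a => (List.range d.C.length).all fun j =>
    H.elem (a, j) || (A.getD a []).any fun x => x.1 == d.ct' (TP.pce d j) a - d.Rg a &&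
      (match x.2 with
      | none => true
      | some c => c.1 == (TP.pce d j).1.1 && (TP.pce d j).1.1 == (TP.pce d j).1.2 &&
          c.2 == d.ct' (TP.pce d j) a + (TP.pce d j).1.1)) &&
  noSum d A 0 0 []

section

variable {d : Sq} {s n h : ℕ}

theorem finB_spec (ok : Ok d s n h) {acc : Lin} (hf : finB d acc = true) :
    ((ev s acc : ℤ) : ZMod n) ≠ ((h : ℕ) : ZMod n) := by
  have hpos := ok.hpos
  have hn2 := ok.n2
  unfold finB at hf
  simp only [Bool.and_eq_true] at hf
  obtain ⟨⟨h1, h2⟩, h3⟩ := hf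
  have h1' := le_spec h1 s
  have h2' := le_spec h2 s
  rw [ev_sm, ← ok.hn] at h1' h2'
  intro he
  have h4 : ((ev s acc : ℤ) : ZMod n) = (((h : ℕ) : ℤ) : ZMod n) := by rw [he]; simp
  have h5 := (ZMod.intCast_eq_intCast_iff_dvd_sub _ _ _).1 h4
  obtain ⟨z, hz⟩ := h5
  have hnpos : (0 : ℤ) < n := by omega
  have hzz : ev s acc = h - n * z := by linarith
  have hz1 : -6 ≤ -z := by
    by_contra hcon
    push Not at hcon
    have : (n : ℤ) * 7 ≤ n * z := mul_le_mul_of_nonneg_left (by omega) hnpos.le
    omega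
  have hz2 : -z ≤ 6 := by
    by_contra hcon
    push Not at hcon
    have : (n : ℤ) * z ≤ n * (-7) := mul_le_mul_of_nonneg_left (by omega) hnpos.le
    omega
  rw [List.all_eq_true] at h3
  have h6 := h3 (-z) (by
    generalize -z = y at hz1 hz2
    interval_cases y <;> simp)
  have h7 := ne_spec h6 s
  rw [ev_add, ev_sm, ← ok.hh, ← ok.hn] at h7
  apply h7
  rw [hzz]; ring

theorem noSum_spec {A : List (List Ent)} {a0 : ℕ} {acc : Lin} {inf : List (ℕ × Lin × Lin)}
    (hA : noSum d A a0 acc inf = true) (Pr : ℕ × Lin × Lin → Prop) (hinf : ∀ x ∈ inf, Pr x)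
    (δ : ℕ → Ent) (hδ : ∀ a < A.length, δ a ∈ A.getD a [] ∧
      ∀ c, (δ a).2 = some c → Pr (a0 + a, c.1, c.2)) :
    finB d (acc + ∑ a ∈ Finset.range A.length, (δ a).1) = true ∨
      ∃ inf', (∀ x ∈ inf', Pr x) ∧ confl d inf' = true := by
  induction A generalizing a0 acc inf δ with
  | nil =>
    unfold noSum at hA
    rw [Bool.or_eq_true] at hA
    rcases hA with h | h
    · left; simpa using h
    · right; exact ⟨inf, hinf, h⟩
  | cons l ls ih =>
    unfold noSum at hA
    rw [List.all_eq_true] at hA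
    have h0 := hδ 0 (by simp)
    have h0' : δ 0 ∈ l := by simpa using h0.1
    have h2 := hA _ h0'
    have h1 := ih h2 (by
      cases hc : (δ 0).2 with
      | none => exact hinf
      | some c =>
        intro x hx
        rcases List.mem_cons.1 hx with rfl | hx
        · exact h0.2 c hc
        · exact hinf x hx) (fun a => δ (a + 1)) (by
      intro a ha
      have h3 := hδ (a + 1) (by simp; omega)
      refine ⟨by simpa using h3.1, ?_⟩
      intro c hc
      have h4 := h3.2 c hc
      rwa [show a0 + (a + 1) = a0 + 1 + a by ring] at h4)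
    rw [List.length_cons, Finset.sum_range_succ']
    rw [show acc + (∑ k ∈ Finset.range ls.length, (δ (k + 1)).1 + (δ 0).1) =
      acc + (δ 0).1 + ∑ k ∈ Finset.range ls.length, (δ (k + 1)).1 by abel]
    exact h1

theorem ev_sum (s : ℕ) (δ : ℕ → Lin) (k : ℕ) :
    ev s (∑ a ∈ Finset.range k, δ a) = ∑ a ∈ Finset.range k, ev s (δ a) := by
  induction k with
  | zero => simp [ev_zero]
  | succ k ih => rw [Finset.sum_range_succ, Finset.sum_range_succ, ev_add, ih]

/-- the cells of the hitting set -/
def hSet (d : Sq) (s n : ℕ) (H : List (ℕ × ℕ)) : Finset (ZMod n × ZMod n) :=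
  H.toFinset.image fun x =>
    (((ev s (d.Rg x.1) : ℤ) : ZMod n), ((ev s (TP.pce d x.2).1.1 : ℤ) : ZMod n))

theorem card_hSet (d : Sq) (s n : ℕ) (H : List (ℕ × ℕ)) : (hSet d s n H).card ≤ H.length := by
  unfold hSet
  exact Finset.card_image_le.trans (List.toFinset_card_le H)

theorem hits_of_chk (ok : Ok d s n h) {H : List (ℕ × ℕ)} {A : List (List Ent)}
    (hH : chkH d H A = true) :
    Hits (fun i c : ZMod n => d.B s i c) (hSet d s n H) := by
  classical
  have hne := ok.ne_zero
  intro f hf
  by_contra hcon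
  push Not at hcon
  unfold chkH at hH
  simp only [Bool.and_eq_true, beq_iff_eq, List.all_eq_true, List.mem_range,
    Bool.or_eq_true, List.elem_eq_mem, decide_eq_true_eq, List.any_eq_true] at hH
  obtain ⟨⟨⟨hlen, hsing⟩, havail⟩, hno⟩ := hH
  have hdelta := delta_sum ok.n2 hf
  -- the rows
  let rw' : ℕ → ZMod n := fun a => ((ev s (d.Rg a) : ℤ) : ZMod n)
  have hrowval : ∀ a < d.k, ((rw' a).val : ℤ) = ev s (d.Rg a) :=
    fun a ha => val_cast (ok.row a ha).1 (ok.row a ha).2
  have hinj : Set.InjOn rw' (Finset.range d.k : Set ℕ) := by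
    intro a ha b hb hab
    have ha' := Finset.mem_range.1 (Finset.mem_coe.1 ha)
    have hb' := Finset.mem_range.1 (Finset.mem_coe.1 hb)
    by_contra hab'
    apply ok.rowne a ha' b hb' hab'
    rw [← hrowval a ha', ← hrowval b hb', hab]
  have hsum : (∑ i : ZMod n, (d.B s i (f i) - i - f i)) =
      ∑ a ∈ Finset.range d.k, (d.B s (rw' a) (f (rw' a)) - rw' a - f (rw' a)) := by
    rw [← Finset.sum_image (f := fun i => d.B s i (f i) - i - f i) hinj]
    symm
    refine Finset.sum_subset (Finset.subset_univ _) ?_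
    intro x _ hx
    rw [B_normal]
    · ring
    · intro a ha hax
      apply hx
      rw [Finset.mem_image]
      refine ⟨a, Finset.mem_range.2 ha, ?_⟩
      apply ZMod.val_injective n
      have := hrowval a ha
      rw [hax] at this
      exact_mod_cast this
  -- the property of a chosen cell
  let Pr : ℕ × Lin × Lin → Prop := fun x => x.1 < d.k ∧
    f (rw' x.1) = ((ev s x.2.1 : ℤ) : ZMod n) ∧
    d.B s (rw' x.1) (f (rw' x.1)) = ((ev s x.2.2 : ℤ) : ZMod n)
  -- choose the values of Delta
  have hδ : ∀ a, ∃ x : Ent, a < d.k → (x ∈ A.getD a [] ∧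
      ∀ c, x.2 = some c → Pr (a, c.1, c.2)) ∧
      d.B s (rw' a) (f (rw' a)) - rw' a - f (rw' a) = ((ev s x.1 : ℤ) : ZMod n) := by
    intro a
    by_cases ha : a < d.k
    · obtain ⟨hP, hP1, hP2⟩ := ok.pc_spec (y := (f (rw' a)).val) (by positivity)
        (val_lt_int (f (rw' a)))
      generalize d.pc s (f (rw' a)).val = P at *
      obtain ⟨j, hj, hjP⟩ := List.getElem_of_mem hP
      have hpce : TP.pce d j = P := by
        unfold TP.pce
        rw [List.getD_eq_getElem?_getD, List.getElem?_eq_getElem hj, Option.getD_some, hjP]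
      have hsingle : P.1.1 = P.1.2 → ((ev s P.1.1 : ℤ) : ZMod n) = f (rw' a) := by
        intro h1
        have h2 : ev s P.1.1 = ((f (rw' a)).val : ℤ) := by
          rw [← h1] at hP2; omega
        rw [h2]
        exact cast_val _
      have hnot : (a, j) ∉ H := by
        intro hmem
        apply hcon (rw' a)
        unfold hSet
        rw [Finset.mem_image]
        refine ⟨(a, j), List.mem_toFinset.2 hmem, ?_⟩
        have h1 := hsing _ hmem
        rw [hpce] at h1
        rw [hpce]
        exact Prod.ext rfl (hsingle h1)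
      have hBval := ok.B_special ha (hrowval a ha).symm hP hP1 hP2
      rcases havail a ha j hj with h1 | ⟨x, hx, hx1, hx2⟩
      · exact absurd h1 hnot
      · refine ⟨x, fun _ => ⟨⟨hx, ?_⟩, ?_⟩⟩
        · intro c hc
          rw [hc, hpce] at hx2
          simp only [Bool.and_eq_true, beq_iff_eq] at hx2
          obtain ⟨⟨hx3, hx4⟩, hx5⟩ := hx2
          refine ⟨ha, ?_, ?_⟩
          · rw [hx3]; exact (hsingle hx4).symm
          · show d.B s (rw' a) (f (rw' a)) = _
            rw [hBval, hx5, ev_add]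
            push_cast
            rw [hsingle hx4]
        · rw [hBval, hx1, hpce, ev_sub]
          push_cast
          show _ - ((ev s (d.Rg a) : ℤ) : ZMod n) - _ = _
          ring
    · exact ⟨((0, 0), none), fun h => absurd h ha⟩
  choose δ hδ' using hδ
  have h1 := noSum_spec hno Pr (by simp) δ (by
    intro a ha
    rw [hlen] at ha
    refine ⟨(hδ' a ha).1.1, ?_⟩
    intro c hc
    rw [zero_add]
    exact (hδ' a ha).1.2 c hc)
  rcases h1 with h1 | ⟨inf', hPr, hcf⟩
  · rw [hlen, zero_add] at h1
    apply finB_spec ok h1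
    rw [ev_sum, ← hdelta, hsum, Int.cast_sum]
    refine Finset.sum_congr rfl ?_
    intro a ha
    exact ((hδ' a (Finset.mem_range.1 ha)).2).symm
  · unfold confl at hcf
    simp only [List.any_eq_true, Bool.and_eq_true, Bool.or_eq_true, Bool.not_eq_true',
      beq_eq_false_iff_ne, beq_iff_eq] at hcf
    obtain ⟨x, hx, y, hy, hxy, hc⟩ := hcf
    obtain ⟨hx1, hx2, hx3⟩ := hPr x hx
    obtain ⟨hy1, hy2, hy3⟩ := hPr y hy
    have hrne : rw' x.1 ≠ rw' y.1 := by
      intro e
      exact hxy (hinj (Finset.mem_coe.2 (Finset.mem_range.2 hx1))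
        (Finset.mem_coe.2 (Finset.mem_range.2 hy1)) e)
    rcases hc with (hc | hc) | hc
    · apply hrne
      apply hf.1
      rw [hx2, hy2, hc]
    · apply hrne
      apply hf.2
      show d.B s (rw' x.1) (f (rw' x.1)) = d.B s (rw' y.1) (f (rw' y.1))
      rw [hx3, hy3, hc]
    · apply hrne
      apply hf.2
      show d.B s (rw' x.1) (f (rw' x.1)) = d.B s (rw' y.1) (f (rw' y.1))
      rw [hx3, hy3, hc, ev_add, ← ok.hn]
      push_cast
      simp

end

end Pool.Agent.Hhelper79.PL
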