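import Mathlib
import Pool.Agent.Hhelper79.PL.Hits

set_option autoImplicit false

/-!
Assembly of piecewise data: `Attains n (4 j + τ)`.
-/

namespace Pool.Agent.Hhelper79.PL

open Pool.Agent.Hhelper79.LT Finset

/-! ### free blocks -/

/-- starting points of the free blocks: `g + 2 k`, `k < K`, for the pairs `(g, K)` -/
def US (s : ℕ) : List (Lin × Lin) → Finset ℕ
  | [] => ∅
  | g :: G => ((Finset.range (ev s g.2).toNat).image fun k => (ev s g.1).toNat + 2 * k) ∪ US s G

/-- the intervals are ordered and inside `[st, h)` -/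
def chkG (d : Sq) : List (Lin × Lin) → Lin → Bool
  | [], st => le st d.Hf
  | g :: G, st => le st g.1 && le 0 g.2 && chkG d G (g.1 + sm 2 g.2)

/-- total number of free blocks -/
def tot : List (Lin × Lin) → Lin
  | [] => 0
  | g :: G => g.2 + tot G

/-- no integer of `[x, y]` is, modulo `h`, a diagonal of a free block -/
def nonfree (d : Sq) (G : List (Lin × Lin)) (x y : Lin) : Bool :=
  [(-3 : ℤ), -2, -1, 0, 1, 2, 3].any fun z =>
    le 0 (x + sm z d.Hf) && lt (y + sm z d.Hf) d.Hf &&
      G.all fun g => lt (y + sm z d.Hf) g.1 || le (g.1 + sm 2 g.2) (x + sm z d.Hf)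

section

variable {d : Sq} {s n h : ℕ}

theorem chkG_spec {G : List (Lin × Lin)} {st : Lin} (hG : chkG d G st = true) :
    ∀ g ∈ G, ev s st ≤ ev s g.1 ∧ 0 ≤ ev s g.2 ∧ ev s g.1 + 2 * ev s g.2 ≤ ev s d.Hf := by
  induction G generalizing st with
  | nil => intro g hg; simp at hg
  | cons g G ih =>
    unfold chkG at hG
    simp only [Bool.and_eq_true] at hG
    obtain ⟨⟨h1, h2⟩, h3⟩ := hG
    have h1' := le_spec h1 s
    have h2' := le_spec h2 s
    rw [ev_zero] at h2'
    have hend : ∀ {G : List (Lin × Lin)} {st : Lin}, chkG d G st = true →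
        ev s st ≤ ev s d.Hf := by
      intro G
      induction G with
      | nil => intro st h; unfold chkG at h; exact le_spec h s
      | cons g G ih' =>
        intro st h
        unfold chkG at h
        simp only [Bool.and_eq_true] at h
        have a1 := le_spec h.1.1 s
        have a2 := le_spec h.1.2 s
        have a3 := ih' h.2
        rw [ev_add, ev_sm] at a3
        rw [ev_zero] at a2
        omega
    have h4 := hend h3
    rw [ev_add, ev_sm] at h4
    intro g' hg'
    rcases List.mem_cons.1 hg' with rfl | hg'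
    · exact ⟨h1', h2', by omega⟩
    · have h5 := ih h3 g' hg'
      rw [ev_add, ev_sm] at h5
      exact ⟨by omega, h5.2⟩

theorem US_spec {G : List (Lin × Lin)} (hpos : ∀ g ∈ G, 0 ≤ ev s g.1) {u : ℕ}
    (hu : u ∈ US s G) : ∃ g ∈ G, ∃ k : ℕ, (k : ℤ) < ev s g.2 ∧ (u : ℤ) = ev s g.1 + 2 * k := by
  induction G with
  | nil => unfold US at hu; simp at hu
  | cons g G ih =>
    unfold US at hu
    rcases Finset.mem_union.1 hu with h | h
    · obtain ⟨k, hk, rfl⟩ := Finset.mem_image.1 h
      have h1 := Finset.mem_range.1 hk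
      have h2 := hpos g List.mem_cons_self
      refine ⟨g, List.mem_cons_self, k, by omega, ?_⟩
      push_cast
      omega
    · obtain ⟨g', hg', h3⟩ := ih (fun g hg => hpos g (List.mem_cons_of_mem _ hg)) h
      exact ⟨g', List.mem_cons_of_mem _ hg', h3⟩

theorem US_sep {G : List (Lin × Lin)} {st : Lin} (hst : 0 ≤ ev s st)
    (hG : chkG d G st = true) :
    (∀ u ∈ US s G, ∀ v ∈ US s G, u < v → u + 1 < v) ∧
      ((US s G).card : ℤ) = ev s (tot G) := by
  induction G generalizing st with
  | nil =>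
    constructor
    · intro u hu; unfold US at hu; simp at hu
    · unfold US tot; simp [ev_zero]
  | cons g G ih =>
    have hspec := chkG_spec (s := s) hG
    unfold chkG at hG
    simp only [Bool.and_eq_true] at hG
    obtain ⟨⟨h1, h2⟩, h3⟩ := hG
    have h1' := le_spec h1 s
    have h2' := le_spec h2 s
    rw [ev_zero] at h2'
    have h4 : 0 ≤ ev s (g.1 + sm 2 g.2) := by rw [ev_add, ev_sm]; omega
    obtain ⟨ih1, ih2⟩ := ih h4 h3
    have hspec2 := chkG_spec (s := s) h3
    have hrest : ∀ v ∈ US s G, ev s g.1 + 2 * ev s g.2 ≤ (v : ℤ) := by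
      intro v hv
      obtain ⟨g', hg', k, hk1, hk2⟩ := US_spec (fun g' hg' => by
        have := (hspec2 g' hg').1
        omega) hv
      have := (hspec2 g' hg').1
      rw [ev_add, ev_sm] at this
      omega
    have hfirst : ∀ v ∈ (Finset.range (ev s g.2).toNat).image
        (fun k => (ev s g.1).toNat + 2 * k), ∃ k : ℕ, (k : ℤ) < ev s g.2 ∧
        (v : ℤ) = ev s g.1 + 2 * k := by
      intro v hv
      obtain ⟨k, hk, rfl⟩ := Finset.mem_image.1 hv
      have h1 := Finset.mem_range.1 hk
      refine ⟨k, by omega, ?_⟩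
      push_cast
      omega
    constructor
    · intro u hu v hv huv
      unfold US at hu hv
      rcases Finset.mem_union.1 hu with h5 | h5 <;> rcases Finset.mem_union.1 hv with h6 | h6
      · obtain ⟨k, hk1, hk2⟩ := hfirst u h5
        obtain ⟨k', hk1', hk2'⟩ := hfirst v h6
        omega
      · obtain ⟨k, hk1, hk2⟩ := hfirst u h5
        have := hrest v h6
        omega
      · obtain ⟨k', hk1', hk2'⟩ := hfirst v h6
        have := hrest u h5
        omega
      · exact ih1 u h5 v h6 huv
    · unfold US tot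
      rw [Finset.card_union_of_disjoint, Finset.card_image_of_injective, Finset.card_range,
        ev_add, ← ih2]
      · push_cast
        omega
      · intro a b hab
        simp only at hab
        omega
      · rw [Finset.disjoint_left]
        intro v hv1 hv2
        obtain ⟨k', hk1', hk2'⟩ := hfirst v hv1
        have := hrest v hv2
        omega

theorem nonfree_spec (ok : Ok d s n h) {G : List (Lin × Lin)} (hG : chkG d G 0 = true)
    {x y : Lin} (hx : nonfree d G x y = true) {e : ℤ} (h1 : ev s x ≤ e) (h2 : e ≤ ev s y)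
    {u : ℕ} (hu : u ∈ US s G) : ¬ Blk (h : ZMod n) (u : ZMod n) ((e : ℤ) : ZMod n) := by
  have hne := ok.ne_zero
  have hspec := chkG_spec (s := s) hG
  obtain ⟨g, hg, k, hk1, hk2⟩ := US_spec (fun g hg => by
    have := (hspec g hg).1
    rwa [ev_zero] at this) hu
  have hg2 := (hspec g hg).2
  rw [← ok.hh] at hg2
  unfold nonfree at hx
  rw [List.any_eq_true] at hx
  obtain ⟨z, hz, hz1⟩ := hx
  simp only [Bool.and_eq_true, List.all_eq_true, Bool.or_eq_true] at hz1
  obtain ⟨⟨hz2, hz3⟩, hz4⟩ := hz1
  have hz2' := le_spec hz2 s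
  have hz3' := lt_spec hz3 s
  rw [ev_zero, ev_add, ev_sm, ← ok.hh] at hz2'
  rw [ev_add, ev_sm, ← ok.hh] at hz3'
  have hn2 := ok.n2
  rw [blk_iff ok.n2]
  have hu1 : (u : ℤ) + 1 < h := by omega
  have hmod : ((((e : ℤ) : ZMod n).val % h : ℕ) : ℤ) = e + z * h := by
    rw [Int.natCast_mod, ZMod.val_intCast]
    have hdvd : (h : ℤ) ∣ (n : ℤ) := ⟨2, by rw [hn2]; push_cast; ring⟩
    rw [Int.emod_emod_of_dvd _ hdvd]
    have : e % (h : ℤ) = (e + z * h) % h := by rw [Int.add_mul_emod_self_right]
    rw [this]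
    exact Int.emod_eq_of_lt (by omega) (by omega)
  rw [Nat.mod_eq_of_lt (show u < h by omega), Nat.mod_eq_of_lt (show u + 1 < h by omega)]
  intro hcon
  have hcase : e + z * h = u ∨ e + z * h = u + 1 := by
    rcases hcon with h5 | h5
    · left; rw [← hmod, h5]
    · right; rw [← hmod, h5]; push_cast; ring
  rcases hz4 g hg with h5 | h5
  · have := lt_spec h5 s
    rw [ev_add, ev_sm, ← ok.hh] at this
    omega
  · have := le_spec h5 s
    rw [ev_add, ev_sm, ev_add, ev_sm, ← ok.hh] at this
    omega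

end

/-! ### structure of the square near the free blocks -/

/-- rows `0`, `1` are exchanged -/
def isS (P : (Lin × Lin) × List ℕ) : Bool := P.2.getD 0 0 == 1 && P.2.getD 1 1 == 0

/-- rows `0`, `1` are unchanged -/
def isI (P : (Lin × Lin) × List ℕ) : Bool := P.2.getD 0 0 == 0 && P.2.getD 1 1 == 1

/-- the set of exchanged columns -/
def SS (d : Sq) (s : ℕ) {n : ℕ} (c : ZMod n) : Prop := isS (d.pc s c.val) = true

/-- structure check -/
def chkSB (d : Sq) (G : List (Lin × Lin)) : Bool :=
  Nat.blt 1 d.k && d.Rg 0 == 0 && d.Rg 1 == ct 1 && lt (ct 2) d.Hf &&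
  (d.C.all fun P => (List.range d.k).all fun a => Nat.blt a 2 || P.2.getD a a == a ||
    nonfree d G (P.1.1 - d.Rg a) (P.1.2 - d.Rg a)) &&
  (d.C.all fun P => isS P || isI P ||
    (nonfree d G P.1.1 P.1.2 && nonfree d G (P.1.1 - ct 1) (P.1.2 - ct 1))) &&
  (d.C.all fun P => d.C.all fun Q => isS P == isS Q ||
    ((lt (P.1.2 + ct 1) Q.1.1 || lt Q.1.2 (P.1.1 + ct 1) ||
      (P.1.2 + ct 1 == Q.1.1 && nonfree d G P.1.2 P.1.2)) &&
     (lt 0 Q.1.1 || lt P.1.2 (d.N - ct 1) || nonfree d G (d.N - ct 1) (d.N - ct 1))))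

/-- the transversal avoids the free blocks -/
def chkAv (d : Sq) (G : List (Lin × Lin)) (l : List TP) : Bool :=
  l.all fun P => match P.kind with
    | none => nonfree d G P.D P.D
    | some (a, j) =>
      if a = 0 then
        (if isS (TP.pce d j) then nonfree d G (P.lo + P.D - ct 1) (P.lo + P.D - ct 1)
          else nonfree d G (P.lo + P.D) (P.lo + P.D))
      else if a = 1 then
        (if isS (TP.pce d j) then nonfree d G (P.lo + P.D) (P.lo + P.D)
          else nonfree d G (P.lo + P.D - ct 1) (P.lo + P.D - ct 1))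
      else nonfree d G P.D P.D

section

variable {d : Sq} {s n h : ℕ}

theorem bt_one {n h : ℕ} [NeZero n] (hn : n = 2 * h) (hh : 3 ≤ h) {a : ZMod n}
    (ha : a = 0 ∨ a = (h : ZMod n)) (t : ZMod n) : bt n h a t 1 = bt n h a t 0 + 1 := by
  have hv0 : ((0 : ZMod n)).val = 0 := ZMod.val_zero
  have hv1 : ((1 : ZMod n)).val = 1 := by
    have : ((1 : ZMod n)) = ((1 : ℕ) : ZMod n) := by simp
    rw [this, ZMod.val_natCast, Nat.mod_eq_of_lt (by omega)]
  rcases ha with rfl | rfl
  · unfold bt off
    rw [sub_zero, sub_zero, hv0, hv1, if_pos (by omega), if_pos (by omega)]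
    push_cast; ring
  · have h2 := two_h hn
    have e0 : (0 : ZMod n) - (h : ZMod n) = ((h : ℕ) : ZMod n) := by linear_combination -h2
    have e1 : (1 : ZMod n) - (h : ZMod n) = ((h + 1 : ℕ) : ZMod n) := by
      push_cast; linear_combination -h2
    have w0 : ((0 : ZMod n) - (h : ZMod n)).val = h := by
      rw [e0, ZMod.val_natCast, Nat.mod_eq_of_lt (by omega)]
    have w1 : ((1 : ZMod n) - (h : ZMod n)).val = h + 1 := by
      rw [e1, ZMod.val_natCast, Nat.mod_eq_of_lt (by omega)]
    unfold bt off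
    rw [w0, w1, if_neg (by omega), if_pos (by omega), if_neg (by omega), if_pos (by omega)]
    push_cast; ring

theorem sbase_of_chk (ok : Ok d s n h) (hr : d.chkRows = true) {G : List (Lin × Lin)}
    (hG : chkG d G 0 = true) (hS : chkSB d G = true) :
    SBase n h (fun i c : ZMod n => d.B s i c) (castSet n (US s G)) 0 1 (SS d s) ∧
      ((castSet n (US s G)).card : ℤ) = ev s (tot G) := by
  have hne := ok.ne_zero
  have hn2 := ok.n2
  obtain ⟨hsep, hcard⟩ := US_sep (s := s) (by rw [ev_zero]) hG
  have hspec := chkG_spec (s := s) hG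
  have hUlt : ∀ u ∈ US s G, u + 1 < h := by
    intro u hu
    obtain ⟨g, hg, k, hk1, hk2⟩ := US_spec (fun g hg => by
      have := (hspec g hg).1
      rwa [ev_zero] at this) hu
    have := (hspec g hg).2
    rw [← ok.hh] at this
    omega
  unfold chkSB at hS
  simp only [Bool.and_eq_true, List.all_eq_true, List.mem_range, Bool.or_eq_true, beq_iff_eq,
    Nat.blt_eq] at hS
  obtain ⟨⟨⟨⟨⟨⟨hk, hR0⟩, hR1⟩, hh3⟩, hstd⟩, hoth⟩, hcons⟩ := hS
  have hh3' : 3 ≤ h := by
    have := lt_spec hh3 s
    rw [ev_ct, ← ok.hh] at this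
    omega
  have hv0 : ((0 : ZMod n)).val = 0 := ZMod.val_zero
  have hv1 : ((1 : ZMod n)).val = 1 := by
    have : ((1 : ZMod n)) = ((1 : ℕ) : ZMod n) := by simp
    rw [this, ZMod.val_natCast, Nat.mod_eq_of_lt (by omega)]
  have hrow0 : ev s (d.Rg 0) = (((0 : ZMod n)).val : ℤ) := by rw [hR0, ev_zero, hv0]; simp
  have hrow1 : ev s (d.Rg 1) = (((1 : ZMod n)).val : ℤ) := by rw [hR1, ev_ct, hv1]; simp
  -- values in the rows 0 and 1
  have hB0 : ∀ c : ZMod n, d.B s 0 c =
      ((ev s (d.ct' (d.pc s c.val) 0) : ℤ) : ZMod n) + c := by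
    intro c
    obtain ⟨hP, hP1, hP2⟩ := ok.pc_spec (y := c.val) (by positivity) (val_lt_int c)
    exact ok.B_special (by omega) hrow0 hP hP1 hP2
  have hB1 : ∀ c : ZMod n, d.B s 1 c =
      ((ev s (d.ct' (d.pc s c.val) 1) : ℤ) : ZMod n) + c := by
    intro c
    obtain ⟨hP, hP1, hP2⟩ := ok.pc_spec (y := c.val) (by positivity) (val_lt_int c)
    exact ok.B_special (by omega) hrow1 hP hP1 hP2
  have hc0 : ((ev s (d.Rg 0) : ℤ) : ZMod n) = 0 := by rw [hR0, ev_zero]; simp
  have hc1 : ((ev s (d.Rg 1) : ℤ) : ZMod n) = 1 := by rw [hR1, ev_ct]; simp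
  refine ⟨⟨ok.latin hr, ?_, ?_, ?_, ?_, ?_, ?_, ?_, ?_⟩, ?_⟩
  · intro e
    have := congrArg ZMod.val e
    rw [hv0, hv1] at this
    omega
  · rintro (e | e)
    · have h5 : ((1 : ℕ) : ZMod n) = ((0 : ℕ) : ZMod n) := by
        push_cast; linear_combination e
      have := natCast_inj_of_lt (by omega) (by omega) h5
      omega
    · have h5 : ((1 : ℕ) : ZMod n) = ((h : ℕ) : ZMod n) := by
        push_cast; linear_combination e
      have := natCast_inj_of_lt (by omega) (by omega) h5
      omega
  · rintro (e | e)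
    · have h5 : ((2 : ℕ) : ZMod n) = ((0 : ℕ) : ZMod n) := by
        push_cast; linear_combination e
      have := natCast_inj_of_lt (by omega) (by omega) h5
      omega
    · have h5 : ((2 : ℕ) : ZMod n) = ((h : ℕ) : ZMod n) := by
        push_cast; linear_combination e
      have := natCast_inj_of_lt (by omega) (by omega) h5
      omega
  · -- std
    intro t ht i c hi0 hi1 hb
    obtain ⟨u, hu, rfl⟩ := Finset.mem_image.1 ht
    by_cases hi : ∃ a < d.k, ev s (d.Rg a) = (i.val : ℤ)
    · obtain ⟨a, ha, hia⟩ := hi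
      obtain ⟨hP, hP1, hP2⟩ := ok.pc_spec (y := c.val) (by positivity) (val_lt_int c)
      generalize d.pc s c.val = P at *
      rw [ok.B_special ha hia hP hP1 hP2]
      have hrow : ((ev s (d.Rg a) : ℤ) : ZMod n) = i := by rw [hia]; exact cast_val i
      rcases hstd P hP a ha with (h5 | h5) | h5
      · exfalso
        interval_cases a
        · apply hi0
          rw [← hrow]; exact hc0
        · apply hi1
          rw [← hrow]; exact hc1
      · unfold Sq.ct'
        rw [h5, hrow]
      · exfalso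
        refine nonfree_spec ok hG h5 (e := (c.val : ℤ) - ev s (d.Rg a))
          (by rw [ev_sub]; omega) (by rw [ev_sub]; omega) hu ?_
        have : ((((c.val : ℤ) - ev s (d.Rg a) : ℤ)) : ZMod n) = c - i := by
          rw [Int.cast_sub, cast_val, hrow]
        rw [this]
        exact hb
    · push Not at hi
      exact B_normal hi
  · -- cellS
    intro t ht i c hi hb hSc
    unfold SS isS at hSc
    simp only [Bool.and_eq_true, beq_iff_eq] at hSc
    rw [hB0, hB1]
    unfold Sq.ct'
    rw [hSc.1, hSc.2, hc0, hc1]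
    exact ⟨rfl, rfl⟩
  · -- cellN
    intro t ht i c hi hb hSc
    obtain ⟨u, hu, rfl⟩ := Finset.mem_image.1 ht
    unfold SS at hSc
    rw [hB0, hB1]
    obtain ⟨hP, hP1, hP2⟩ := ok.pc_spec (y := c.val) (by positivity) (val_lt_int c)
    generalize d.pc s c.val = P at *
    rcases hoth P hP with (h5 | h5) | h5
    · exact absurd h5 hSc
    · unfold isI at h5
      simp only [Bool.and_eq_true, beq_iff_eq] at h5
      unfold Sq.ct'
      rw [h5.1, h5.2, hc0, hc1]
      exact ⟨rfl, rfl⟩
    · exfalso
      rcases hi with rfl | rfl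
      · refine nonfree_spec ok hG h5.1 (e := (c.val : ℤ)) hP1 hP2 hu ?_
        rw [cast_val]
        rwa [sub_zero] at hb
      · refine nonfree_spec ok hG h5.2 (e := (c.val : ℤ) - 1)
          (by rw [ev_sub, ev_ct]; omega) (by rw [ev_sub, ev_ct]; omega) hu ?_
        rw [Int.cast_sub, cast_val, Int.cast_one]
        exact hb
  · -- cons
    intro t ht a t' ha ht'
    obtain ⟨u, hu, rfl⟩ := Finset.mem_image.1 ht
    rw [bt_one hn2 hh3' ha]
    have hblk := blk_bt hn2 ht' a 0
    rw [sub_zero] at hblk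
    generalize bt n h a t' 0 = x at *
    obtain ⟨hP, hP1, hP2⟩ := ok.pc_spec (y := x.val) (by positivity) (val_lt_int x)
    obtain ⟨hQ, hQ1, hQ2⟩ := ok.pc_spec (y := (x + 1).val) (by positivity) (val_lt_int (x + 1))
    unfold SS
    generalize d.pc s x.val = P at *
    generalize d.pc s (x + 1).val = Q at *
    rcases hcons P hP Q hQ with h5 | ⟨h5, h6⟩
    · rw [h5]
    · exfalso
      have hxlt := ZMod.val_lt x
      have hx1 : (x + 1).val = (x.val + 1) % n := by
        rw [ZMod.val_add, hv1]
      rcases Nat.lt_or_ge (x.val + 1) n with hlt | hge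
      · rw [Nat.mod_eq_of_lt hlt] at hx1
        rw [hx1] at hQ1 hQ2
        push_cast at hQ1 hQ2
        rcases h5 with (h7 | h7) | ⟨h7, h8⟩
        · have := lt_spec h7 s
          rw [ev_add, ev_ct] at this
          omega
        · have := lt_spec h7 s
          rw [ev_add, ev_ct] at this
          omega
        · have h9 : ev s P.1.2 + 1 = ev s Q.1.1 := by rw [← h7, ev_add, ev_ct]
          refine nonfree_spec ok hG h8 (e := (x.val : ℤ)) (by omega) (by omega) hu ?_
          rw [cast_val]
          exact hblk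
      · have hxn : x.val + 1 = n := by omega
        rw [hxn, Nat.mod_self] at hx1
        rw [hx1] at hQ1 hQ2
        push_cast at hQ1 hQ2
        rcases h6 with (h7 | h7) | h7
        · have := lt_spec h7 s
          rw [ev_zero] at this
          omega
        · have := lt_spec h7 s
          rw [ev_sub, ev_ct, ← ok.hn] at this
          omega
        · refine nonfree_spec ok hG h7 (e := (x.val : ℤ)) (by rw [ev_sub, ev_ct, ← ok.hn]; omega)
            (by rw [ev_sub, ev_ct, ← ok.hn]; omega) hu ?_
          rw [cast_val]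
          exact hblk
  · exact (base_of_nat hn2 (latin_add n) hUlt hsep (fun _ _ _ _ _ => rfl)).disj
  · rw [card_castSet hn2 (fun u hu => by have := hUlt u hu; omega)]
    exact hcard

/-- the piece of a special row -/
theorem special_piece (ok : Ok d s n h) {l : List TP} (hl : chkTr d l = true) {a : ℕ}
    (ha : a < d.k) {i : ZMod n} (hi : ev s (d.Rg a) = (i.val : ℤ)) :
    ∃ j, (pieceOf s l i.val).kind = some (a, j) ∧
      d.pc s (fn s l i).val = TP.pce d j ∧
      ev s (pieceOf s l i.val).lo = (i.val : ℤ) := by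
  have hne := ok.ne_zero
  have hcol := fn_col ok hl i
  obtain ⟨hP, h1, h2⟩ := pieceOf_spec ok hl i
  unfold chkTr at hl
  simp only [Bool.and_eq_true, List.all_eq_true] at hl
  have h3 := hl.1.2 _ hP
  generalize pieceOf s l i.val = P at *
  unfold TP.ok1 at h3
  simp only [Bool.and_eq_true] at h3
  obtain ⟨_, h9⟩ := h3
  cases hk : P.kind with
  | none =>
    exfalso
    rw [hk] at h9
    simp only [List.all_eq_true, List.mem_range, Bool.or_eq_true] at h9
    rcases h9 a ha with h10 | h10
    · have := lt_spec h10 s; omega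
    · have := lt_spec h10 s; omega
  | some x =>
    obtain ⟨b, j⟩ := x
    rw [hk] at h9
    simp only [Bool.and_eq_true, beq_iff_eq, Nat.blt_eq] at h9
    obtain ⟨⟨⟨⟨⟨hb, hj⟩, h10⟩, h11⟩, h12⟩, h13⟩ := h9
    have hilo : (i.val : ℤ) = ev s P.lo := by rw [← h10] at h2; omega
    have hab : a = b := by
      by_contra hab
      apply ok.rowne a ha b hb hab
      rw [hi, hilo, h11]
    subst hab
    have hmem : TP.pce d j ∈ d.C := by
      unfold TP.pce
      rw [List.getD_eq_getElem?_getD, List.getElem?_eq_getElem hj, Option.getD_some]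
      exact List.getElem_mem hj
    have h12' := le_spec h12 s
    have h13' := le_spec h13 s
    rw [ev_add] at h12' h13'
    exact ⟨j, rfl, ok.pc_eq hmem (by rw [hcol]; omega) (by rw [hcol]; omega), hilo.symm⟩

/-- FINAL theorem for piecewise data -/
theorem attains_of_chk {d : Sq} (hb : d.chkBasic = true) (hr : d.chkRows = true)
    {H : List (ℕ × ℕ)} {A : List (List Ent)} (hH : chkH d H A = true) {G : List (Lin × Lin)}
    (hG : chkG d G 0 = true) (hS : chkSB d G = true) {F : List (List TP)}
    (hHF : H.length ≤ F.length)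
    (hT : (F.all fun l => chkTr d l) = true) (hAv : (F.all fun l => chkAv d G l) = true)
    (hD : ((List.range F.length).all fun k => (List.range F.length).all fun l =>
      !(Nat.blt k l) || chkDj (F.getD k []) (F.getD l [])) = true)
    {s n h : ℕ} (hn : (n : ℤ) = ev s d.N) (hh : (h : ℤ) = ev s d.Hf) {j : ℕ}
    (hj : (j : ℤ) ≤ ev s (tot G)) : Attains n (4 * j + F.length) := by
  have ok := ok_of_chk hb hn hh
  have hne := ok.ne_zero
  have hn2 := ok.n2
  obtain ⟨hSB, hcard⟩ := sbase_of_chk ok hr hG hS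
  rw [List.all_eq_true] at hT hAv
  have hget : ∀ k : Fin F.length, F.get k ∈ F := fun k => List.get_mem F k
  have hgetD : ∀ k : Fin F.length, F.getD k.val [] = F.get k := by
    intro k
    rw [List.getD_eq_getElem?_getD, List.getElem?_eq_getElem k.2, Option.getD_some]
    rfl
  have hDj : ∀ k l : Fin F.length, k < l → ∀ i : ZMod n,
      fn s (F.get k) i ≠ fn s (F.get l) i := by
    intro k l hkl i
    simp only [List.all_eq_true, List.mem_range, Bool.or_eq_true, Bool.not_eq_true'] at hD
    have h1 := hD k.val k.2 l.val l.2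
    rw [hgetD, hgetD] at h1
    rcases h1 with h1 | h1
    · exfalso
      have h2 : Nat.blt k.val l.val = true := by rw [Nat.blt_eq]; exact hkl
      rw [h1] at h2
      exact absurd h2 (by simp)
    · exact fn_disj ok (hT _ (hget k)) (hT _ (hget l)) h1 i
  unfold chkSB at hS
  simp only [Bool.and_eq_true, List.all_eq_true, List.mem_range, Bool.or_eq_true, beq_iff_eq,
    Nat.blt_eq] at hS
  obtain ⟨⟨⟨⟨⟨⟨hk, hR0⟩, hR1⟩, hh3⟩, -⟩, -⟩, -⟩ := hS
  have hh3' : 3 ≤ h := by
    have := lt_spec hh3 s
    rw [ev_ct, ← ok.hh] at this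
    omega
  have hv0 : ((0 : ZMod n)).val = 0 := ZMod.val_zero
  have hv1 : ((1 : ZMod n)).val = 1 := by
    have : ((1 : ZMod n)) = ((1 : ℕ) : ZMod n) := by simp
    rw [this, ZMod.val_natCast, Nat.mod_eq_of_lt (by omega)]
  have hrow0 : ev s (d.Rg 0) = (((0 : ZMod n)).val : ℤ) := by rw [hR0, ev_zero, hv0]; simp
  have hrow1 : ev s (d.Rg 1) = (((1 : ZMod n)).val : ℤ) := by rw [hR1, ev_ct, hv1]; simp
  -- information on the rows 0, 1
  have hsp : ∀ k : Fin F.length, ∀ a < 2, ∀ i : ZMod n, ev s (d.Rg a) = (i.val : ℤ) →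
      ∃ P ∈ F.get k, ∃ j, P.kind = some (a, j) ∧ d.pc s (fn s (F.get k) i).val = TP.pce d j ∧
        ((fn s (F.get k) i).val : ℤ) = ev s (P.lo + P.D) := by
    intro k a ha i hi
    obtain ⟨j, h1, h2, h3⟩ := special_piece ok (hT _ (hget k)) (show a < d.k by omega) hi
    obtain ⟨hP, _, _⟩ := pieceOf_spec ok (hT _ (hget k)) i
    refine ⟨_, hP, j, h1, h2, ?_⟩
    rw [fn_col ok (hT _ (hget k)) i, ev_add, h3]
  refine assemble_sw_le hn2 (by omega) hSB (hSet d s n H) ((card_hSet d s n H).trans hHF)
    (hits_of_chk ok hH) (κ := Fin F.length) (by simp) (fun k => fn s (F.get k))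
    (fun k => fn_trans ok (hT _ (hget k))) ?_ ?_ ?_ ?_ ?_ ?_ (by
      have : (j : ℤ) ≤ ((castSet n (US s G)).card : ℤ) := by rw [hcard]; exact hj
      exact_mod_cast this)
  · intro k l hkl i
    rcases lt_or_gt_of_ne hkl with h1 | h1
    · exact hDj k l h1 i
    · exact (hDj l k h1 i).symm
  · -- normal rows and the other special rows
    intro k i hi0 hi1 t ht
    obtain ⟨u, hu, rfl⟩ := Finset.mem_image.1 ht
    obtain ⟨hP, hP1, hP2⟩ := pieceOf_spec ok (hT _ (hget k)) i
    have h1 := hAv _ (hget k)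
    unfold chkAv at h1
    rw [List.all_eq_true] at h1
    have h2 := h1 _ hP
    have h3 : fn s (F.get k) i - i = ((ev s (pieceOf s (F.get k) i.val).D : ℤ) : ZMod n) := by
      unfold fn; ring
    rw [h3]
    have hone := (hT _ (hget k))
    unfold chkTr at hone
    simp only [Bool.and_eq_true, List.all_eq_true] at hone
    have h5 := hone.1.2 _ hP
    generalize pieceOf s (F.get k) i.val = P at *
    cases hk : P.kind with
    | none =>
      rw [hk] at h2
      exact nonfree_spec ok hG h2 le_rfl le_rfl hu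
    | some x =>
      obtain ⟨a, j⟩ := x
      rw [hk] at h2
      simp only at h2
      unfold TP.ok1 at h5
      rw [hk] at h5
      simp only [Bool.and_eq_true, beq_iff_eq, Nat.blt_eq] at h5
      obtain ⟨_, ⟨⟨⟨⟨hb, hj⟩, h10⟩, h11⟩, h12⟩, h13⟩ := h5
      have hilo : (i.val : ℤ) = ev s (d.Rg a) := by
        rw [← h11]
        rw [← h10] at hP2
        omega
      have ha0 : a ≠ 0 := by
        rintro rfl
        apply hi0
        apply ZMod.val_injective n
        rw [hrow0] at hilo
        exact_mod_cast hilo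
      have ha1 : a ≠ 1 := by
        rintro rfl
        apply hi1
        apply ZMod.val_injective n
        rw [hrow1] at hilo
        exact_mod_cast hilo
      rw [if_neg ha0, if_neg ha1] at h2
      exact nonfree_spec ok hG h2 le_rfl le_rfl hu
  · intro k hSk t ht
    obtain ⟨u, hu, rfl⟩ := Finset.mem_image.1 ht
    obtain ⟨P, hP, j, h1, h2, h3⟩ := hsp k 0 (by norm_num) 0 hrow0
    have h4 := hAv _ (hget k)
    unfold chkAv at h4
    rw [List.all_eq_true] at h4
    have h5 := h4 P hP
    rw [h1] at h5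
    unfold SS at hSk
    rw [h2] at hSk
    simp only [if_true, hSk] at h5
    have := nonfree_spec ok hG h5 (e := ev s (P.lo + P.D) - 1) (by rw [ev_sub, ev_ct])
      (by rw [ev_sub, ev_ct]) hu
    rw [← h3, Int.cast_sub, cast_val, Int.cast_one] at this
    exact this
  · intro k hSk t ht
    obtain ⟨u, hu, rfl⟩ := Finset.mem_image.1 ht
    obtain ⟨P, hP, j, h1, h2, h3⟩ := hsp k 0 (by norm_num) 0 hrow0
    have h4 := hAv _ (hget k)
    unfold chkAv at h4
    rw [List.all_eq_true] at h4
    have h5 := h4 P hP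
    rw [h1] at h5
    unfold SS at hSk
    rw [h2] at hSk
    simp only [if_true, if_neg hSk] at h5
    have := nonfree_spec ok hG h5 (e := ev s (P.lo + P.D)) le_rfl le_rfl hu
    rw [← h3, cast_val] at this
    rw [sub_zero]
    exact this
  · intro k hSk t ht
    obtain ⟨u, hu, rfl⟩ := Finset.mem_image.1 ht
    obtain ⟨P, hP, j, h1, h2, h3⟩ := hsp k 1 (by norm_num) 1 hrow1
    have h4 := hAv _ (hget k)
    unfold chkAv at h4
    rw [List.all_eq_true] at h4
    have h5 := h4 P hP
    rw [h1] at h5
    unfold SS at hSk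
    rw [h2] at hSk
    simp only [one_ne_zero, if_false, if_true, hSk] at h5
    have := nonfree_spec ok hG h5 (e := ev s (P.lo + P.D)) le_rfl le_rfl hu
    rw [← h3, cast_val] at this
    rw [sub_zero]
    exact this
  · intro k hSk t ht
    obtain ⟨u, hu, rfl⟩ := Finset.mem_image.1 ht
    obtain ⟨P, hP, j, h1, h2, h3⟩ := hsp k 1 (by norm_num) 1 hrow1
    have h4 := hAv _ (hget k)
    unfold chkAv at h4
    rw [List.all_eq_true] at h4
    have h5 := h4 P hP
    rw [h1] at h5
    unfold SS at hSk
    rw [h2] at hSk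
    simp only [one_ne_zero, if_false, if_true, if_neg hSk] at h5
    have := nonfree_spec ok hG h5 (e := ev s (P.lo + P.D) - 1) (by rw [ev_sub, ev_ct])
      (by rw [ev_sub, ev_ct]) hu
    rw [← h3, Int.cast_sub, cast_val, Int.cast_one] at this
    exact this

end

end Pool.Agent.Hhelper79.PL
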