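import Mathlib
import Pool.Agent.Hhelper79.PL.Final

set_option autoImplicit false

/-!
Piecewise data for `n = 4 b - 2` (generated by a SAT search).
-/

namespace Pool.Agent.Hhelper79.PL

open Pool.Agent.Hhelper79.LT

/-- data `C22r1_0` (0 extra intercalates) -/
def sqC22r1_0 : Sq where
  N := (0, 22)
  Hf := (0, 11)
  R := [(0, 0), (0, 1), (0, 6)]
  C := [
    (((0, 0), (0, 4)), [0, 1, 2]), (((0, 5), (0, 5)), [2, 1, 0]), (((0, 6), (0, 10)), [0, 1, 2]),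
      (((0, 11), (0, 11)), [2, 1, 0]), (((0, 12), (0, 15)), [0, 1, 2]), (((0, 16),
      (0, 16)), [0, 2, 1]), (((0, 17), (0, 20)), [1, 0, 2]), (((0, 21), (0, 21)), [2, 0, 1])]

def hhC22r1_0 : List (ℕ × ℕ) := [(1, 5)]

def aaC22r1_0 : List (List Ent) := [
  [((0, 0), none), ((0, 1), none), ((0, 6), some ((0, 5), (0, 11))), ((0, 6), some ((0, 11),
    (0, 17))), ((0, 6), some ((0, 21), (0, 27)))],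
  [((0, 0), none), ((0, -1), none)],
  [((0, 0), none), ((0, -6), some ((0, 5), (0, 5))), ((0, -6), some ((0, 11), (0, 11))),
    ((0, -5), some ((0, 16), (0, 17))), ((0, -5), some ((0, 21), (0, 22)))]]

def ggC22r1_0 : List (Lin × Lin) := [((0, 1), (0, 1)), ((0, 6), (0, 1))]

def ffC22r1_0_0 : List TP := [
  ⟨(0, 0), (0, 0), (0, 21), 1, some (0, 7)⟩, ⟨(0, 1), (0, 1), (0, 15), 1, some (1, 5)⟩, ⟨(0, 2),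
    (0, 4), (0, -2), 0, none⟩, ⟨(0, 5), (0, 5), (0, -1), 0, none⟩, ⟨(0, 6), (0, 6),
    (0, 0), 0, some (2, 2)⟩, ⟨(0, 7), (0, 7), (0, 0), 0, none⟩, ⟨(0, 8), (0, 8),
    (0, -3), 0, none⟩, ⟨(0, 9), (0, 9), (0, 3), 0, none⟩, ⟨(0, 10), (0, 10), (0, 0), 0, none⟩,
    ⟨(0, 11), (0, 11), (0, -3), 0, none⟩, ⟨(0, 12), (0, 12), (0, -1), 1, none⟩, ⟨(0, 13),
    (0, 13), (0, 4), 1, none⟩, ⟨(0, 14), (0, 14), (0, -11), 0, none⟩, ⟨(0, 15), (0, 15),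
    (0, -1), 1, none⟩, ⟨(0, 16), (0, 16), (0, -7), 1, none⟩, ⟨(0, 17), (0, 17), (0, 3), 1, none⟩,
    ⟨(0, 18), (0, 18), (0, -3), 1, none⟩, ⟨(0, 19), (0, 19), (0, -6), 1, none⟩, ⟨(0, 20),
    (0, 21), (0, -2), 1, none⟩]

def ffC22r1_0 : List (List TP) := [ffC22r1_0_0]

theorem attainsC22r1_0 {s n h j : ℕ} (hn : (n : ℤ) = 0 * s + 22) (hh : (h : ℤ) = 0 * s + 11)
    (hj : (j : ℤ) ≤ 0 * s + 2) : Attains n (4 * j + 1) :=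
  attains_of_chk (d := sqC22r1_0) (H := hhC22r1_0) (A := aaC22r1_0) (G := ggC22r1_0) (F := ffC22r1_0)
    (by decide +kernel) (by decide +kernel) (by decide +kernel) (by decide +kernel)
    (by decide +kernel) (by decide +kernel) (by decide +kernel) (by decide +kernel)
    (by decide +kernel) hn hh (le_trans hj (le_of_eq (by rfl)))

/-- data `C22r1_1` (1 extra intercalates) -/
def sqC22r1_1 : Sq where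
  N := (0, 22)
  Hf := (0, 11)
  R := [(0, 0), (0, 1), (0, 6), (0, 10), (0, 21)]
  C := [
    (((0, 0), (0, 0)), [0, 1, 2, 3, 4]), (((0, 1), (0, 2)), [0, 1, 2, 3, 4]), (((0, 3),
      (0, 3)), [0, 1, 2, 4, 3]), (((0, 4), (0, 4)), [0, 1, 2, 3, 4]), (((0, 5),
      (0, 5)), [2, 1, 0, 3, 4]), (((0, 6), (0, 10)), [0, 1, 2, 3, 4]), (((0, 11),
      (0, 11)), [2, 1, 0, 3, 4]), (((0, 12), (0, 13)), [0, 1, 2, 3, 4]), (((0, 14),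
      (0, 14)), [0, 1, 2, 4, 3]), (((0, 15), (0, 15)), [0, 1, 2, 3, 4]), (((0, 16),
      (0, 16)), [0, 2, 1, 3, 4]), (((0, 17), (0, 20)), [1, 0, 2, 3, 4]), (((0, 21),
      (0, 21)), [2, 0, 1, 3, 4])]

def hhC22r1_1 : List (ℕ × ℕ) := [(1, 10), (3, 2), (4, 2), (3, 8), (4, 8)]

def aaC22r1_1 : List (List Ent) := [
  [((0, 0), none), ((0, 1), none), ((0, 6), some ((0, 5), (0, 11))), ((0, 6), some ((0, 11),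
    (0, 17))), ((0, 6), some ((0, 21), (0, 27)))],
  [((0, 0), none), ((0, -1), none)],
  [((0, 0), none), ((0, -6), some ((0, 5), (0, 5))), ((0, -6), some ((0, 11), (0, 11))),
    ((0, -5), some ((0, 16), (0, 17))), ((0, -5), some ((0, 21), (0, 22)))],
  [((0, 0), none)],
  [((0, 0), none)]]

def ggC22r1_1 : List (Lin × Lin) := [((0, 1), (0, 1)), ((0, 6), (0, 1))]

def ffC22r1_1_0 : List TP := [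
  ⟨(0, 0), (0, 0), (0, 21), 1, some (0, 12)⟩, ⟨(0, 1), (0, 1), (0, 15), 1, some (1, 10)⟩,
    ⟨(0, 2), (0, 4), (0, -2), 0, none⟩, ⟨(0, 5), (0, 5), (0, -1), 0, none⟩, ⟨(0, 6), (0, 6),
    (0, 0), 0, some (2, 5)⟩, ⟨(0, 7), (0, 7), (0, 0), 0, none⟩, ⟨(0, 8), (0, 8),
    (0, -3), 0, none⟩, ⟨(0, 9), (0, 9), (0, 3), 0, none⟩, ⟨(0, 10), (0, 10),
    (0, 0), 0, some (3, 5)⟩, ⟨(0, 11), (0, 11), (0, -3), 0, none⟩, ⟨(0, 12), (0, 12),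
    (0, -1), 1, none⟩, ⟨(0, 13), (0, 13), (0, 4), 1, none⟩, ⟨(0, 14), (0, 14),
    (0, -11), 0, none⟩, ⟨(0, 15), (0, 15), (0, -1), 1, none⟩, ⟨(0, 16), (0, 16),
    (0, -7), 1, none⟩, ⟨(0, 17), (0, 17), (0, 3), 1, none⟩, ⟨(0, 18), (0, 18), (0, -3), 1, none⟩,
    ⟨(0, 19), (0, 19), (0, -6), 1, none⟩, ⟨(0, 20), (0, 20), (0, -2), 1, none⟩, ⟨(0, 21),
    (0, 21), (0, -2), 1, some (4, 11)⟩]

def ffC22r1_1_1 : List TP := [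
  ⟨(0, 0), (0, 0), (0, 0), 0, some (0, 0)⟩, ⟨(0, 1), (0, 1), (0, 0), 0, some (1, 1)⟩, ⟨(0, 2),
    (0, 2), (0, 0), 0, none⟩, ⟨(0, 3), (0, 3), (0, 3), 0, none⟩, ⟨(0, 4), (0, 5),
    (0, 0), 0, none⟩, ⟨(0, 6), (0, 6), (0, 3), 0, some (2, 5)⟩, ⟨(0, 7), (0, 7),
    (0, 5), 0, none⟩, ⟨(0, 8), (0, 8), (0, 0), 0, none⟩, ⟨(0, 9), (0, 9), (0, 5), 1, none⟩,
    ⟨(0, 10), (0, 10), (0, 8), 1, some (3, 11)⟩, ⟨(0, 11), (0, 11), (0, -1), 0, none⟩, ⟨(0, 12),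
    (0, 12), (0, 3), 1, none⟩, ⟨(0, 13), (0, 13), (0, -6), 0, none⟩, ⟨(0, 14), (0, 14),
    (0, -3), 1, none⟩, ⟨(0, 15), (0, 15), (0, 4), 1, none⟩, ⟨(0, 16), (0, 16), (0, -3), 1, none⟩,
    ⟨(0, 17), (0, 17), (0, -1), 1, none⟩, ⟨(0, 18), (0, 18), (0, 3), 1, none⟩, ⟨(0, 19), (0, 19),
    (0, -2), 1, none⟩, ⟨(0, 20), (0, 20), (0, 0), 1, none⟩, ⟨(0, 21), (0, 21),
    (0, -18), 0, some (4, 2)⟩]

def ffC22r1_1_2 : List TP := [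
  ⟨(0, 0), (0, 0), (0, 4), 0, some (0, 3)⟩, ⟨(0, 1), (0, 1), (0, -1), 0, some (1, 0)⟩, ⟨(0, 2),
    (0, 4), (0, -1), 0, none⟩, ⟨(0, 5), (0, 5), (0, 3), 0, none⟩, ⟨(0, 6), (0, 6),
    (0, 4), 0, some (2, 5)⟩, ⟨(0, 7), (0, 7), (0, 4), 0, none⟩, ⟨(0, 8), (0, 8),
    (0, 5), 0, none⟩, ⟨(0, 9), (0, 9), (0, 10), 1, none⟩, ⟨(0, 10), (0, 10),
    (0, -3), 0, some (3, 5)⟩, ⟨(0, 11), (0, 11), (0, -2), 0, none⟩, ⟨(0, 12), (0, 12),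
    (0, 9), 1, none⟩, ⟨(0, 13), (0, 13), (0, -7), 0, none⟩, ⟨(0, 14), (0, 14), (0, 3), 1, none⟩,
    ⟨(0, 15), (0, 15), (0, 0), 1, none⟩, ⟨(0, 16), (0, 16), (0, 4), 1, none⟩, ⟨(0, 17), (0, 17),
    (0, -12), 1, none⟩, ⟨(0, 18), (0, 18), (0, -2), 1, none⟩, ⟨(0, 19), (0, 19),
    (0, -1), 1, none⟩, ⟨(0, 20), (0, 20), (0, -8), 1, none⟩, ⟨(0, 21), (0, 21),
    (0, -7), 1, some (4, 8)⟩]

def ffC22r1_1_3 : List TP := [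
  ⟨(0, 0), (0, 0), (0, 5), 0, some (0, 4)⟩, ⟨(0, 1), (0, 1), (0, 18), 0, some (1, 11)⟩, ⟨(0, 2),
    (0, 2), (0, 4), 0, none⟩, ⟨(0, 3), (0, 3), (0, -3), 0, none⟩, ⟨(0, 4), (0, 5),
    (0, 10), 0, none⟩, ⟨(0, 6), (0, 6), (0, 15), 1, some (2, 12)⟩, ⟨(0, 7), (0, 7),
    (0, 9), 1, none⟩, ⟨(0, 8), (0, 9), (0, -1), 0, none⟩, ⟨(0, 10), (0, 10),
    (0, -7), 1, some (3, 2)⟩, ⟨(0, 11), (0, 11), (0, 9), 1, none⟩, ⟨(0, 12), (0, 12),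
    (0, -8), 0, none⟩, ⟨(0, 13), (0, 13), (0, -12), 0, none⟩, ⟨(0, 14), (0, 14),
    (0, 4), 1, none⟩, ⟨(0, 15), (0, 15), (0, -3), 1, none⟩, ⟨(0, 16), (0, 17), (0, -6), 1, none⟩,
    ⟨(0, 18), (0, 18), (0, -1), 1, none⟩, ⟨(0, 19), (0, 19), (0, -17), 0, none⟩, ⟨(0, 20),
    (0, 20), (0, -11), 1, none⟩, ⟨(0, 21), (0, 21), (0, -8), 1, some (4, 7)⟩]

def ffC22r1_1_4 : List TP := [
  ⟨(0, 0), (0, 0), (0, 8), 0, some (0, 5)⟩, ⟨(0, 1), (0, 1), (0, 4), 0, some (1, 4)⟩, ⟨(0, 2),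
    (0, 2), (0, 5), 0, none⟩, ⟨(0, 3), (0, 3), (0, 8), 0, none⟩, ⟨(0, 4), (0, 4),
    (0, -3), 0, none⟩, ⟨(0, 5), (0, 5), (0, 8), 0, none⟩, ⟨(0, 6), (0, 6),
    (0, 9), 0, some (2, 9)⟩, ⟨(0, 7), (0, 7), (0, 3), 0, none⟩, ⟨(0, 8), (0, 8),
    (0, 8), 1, none⟩, ⟨(0, 9), (0, 9), (0, 11), 1, none⟩, ⟨(0, 10), (0, 10),
    (0, 4), 1, some (3, 8)⟩, ⟨(0, 11), (0, 11), (0, 10), 1, none⟩, ⟨(0, 12), (0, 12),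
    (0, -12), 0, none⟩, ⟨(0, 13), (0, 13), (0, -1), 1, none⟩, ⟨(0, 14), (0, 14),
    (0, -8), 0, none⟩, ⟨(0, 15), (0, 15), (0, 3), 1, none⟩, ⟨(0, 16), (0, 16),
    (0, -13), 0, none⟩, ⟨(0, 17), (0, 17), (0, -8), 1, none⟩, ⟨(0, 18), (0, 18),
    (0, -14), 1, none⟩, ⟨(0, 19), (0, 19), (0, 0), 1, none⟩, ⟨(0, 20), (0, 20),
    (0, -3), 1, none⟩, ⟨(0, 21), (0, 21), (0, -19), 1, some (4, 1)⟩]

def ffC22r1_1 : List (List TP) := [ffC22r1_1_0, ffC22r1_1_1, ffC22r1_1_2, ffC22r1_1_3, ffC22r1_1_4]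

theorem attainsC22r1_1 {s n h j : ℕ} (hn : (n : ℤ) = 0 * s + 22) (hh : (h : ℤ) = 0 * s + 11)
    (hj : (j : ℤ) ≤ 0 * s + 2) : Attains n (4 * j + 5) :=
  attains_of_chk (d := sqC22r1_1) (H := hhC22r1_1) (A := aaC22r1_1) (G := ggC22r1_1) (F := ffC22r1_1)
    (by decide +kernel) (by decide +kernel) (by decide +kernel) (by decide +kernel)
    (by decide +kernel) (by decide +kernel) (by decide +kernel) (by decide +kernel)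
    (by decide +kernel) hn hh (le_trans hj (le_of_eq (by rfl)))

/-- data `C22r1_2` (2 extra intercalates) -/
def sqC22r1_2 : Sq where
  N := (0, 22)
  Hf := (0, 11)
  R := [(0, 0), (0, 1), (0, 6), (0, 10), (0, 21)]
  C := [
    (((0, 0), (0, 0)), [0, 1, 2, 3, 4]), (((0, 1), (0, 2)), [0, 1, 2, 3, 4]), (((0, 3),
      (0, 3)), [0, 1, 2, 4, 3]), (((0, 4), (0, 4)), [0, 1, 2, 4, 3]), (((0, 5),
      (0, 5)), [2, 1, 0, 3, 4]), (((0, 6), (0, 10)), [0, 1, 2, 3, 4]), (((0, 11),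
      (0, 11)), [2, 1, 0, 3, 4]), (((0, 12), (0, 13)), [0, 1, 2, 3, 4]), (((0, 14),
      (0, 14)), [0, 1, 2, 4, 3]), (((0, 15), (0, 15)), [0, 1, 2, 4, 3]), (((0, 16),
      (0, 16)), [0, 2, 1, 3, 4]), (((0, 17), (0, 20)), [1, 0, 2, 3, 4]), (((0, 21),
      (0, 21)), [2, 0, 1, 3, 4])]

def hhC22r1_2 : List (ℕ × ℕ) := [(1, 10), (3, 2), (4, 2), (3, 8), (4, 8), (3, 3), (4, 3), (3, 9), (4, 9)]

def aaC22r1_2 : List (List Ent) := [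
  [((0, 0), none), ((0, 1), none), ((0, 6), some ((0, 5), (0, 11))), ((0, 6), some ((0, 11),
    (0, 17))), ((0, 6), some ((0, 21), (0, 27)))],
  [((0, 0), none), ((0, -1), none)],
  [((0, 0), none), ((0, -6), some ((0, 5), (0, 5))), ((0, -6), some ((0, 11), (0, 11))),
    ((0, -5), some ((0, 16), (0, 17))), ((0, -5), some ((0, 21), (0, 22)))],
  [((0, 0), none)],
  [((0, 0), none)]]

def ggC22r1_2 : List (Lin × Lin) := [((0, 1), (0, 1)), ((0, 6), (0, 1))]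

def ffC22r1_2_0 : List TP := [
  ⟨(0, 0), (0, 0), (0, 21), 1, some (0, 12)⟩, ⟨(0, 1), (0, 1), (0, 15), 1, some (1, 10)⟩,
    ⟨(0, 2), (0, 4), (0, -2), 0, none⟩, ⟨(0, 5), (0, 5), (0, -1), 0, none⟩, ⟨(0, 6), (0, 6),
    (0, 0), 0, some (2, 5)⟩, ⟨(0, 7), (0, 7), (0, 0), 0, none⟩, ⟨(0, 8), (0, 8),
    (0, -3), 0, none⟩, ⟨(0, 9), (0, 9), (0, 3), 0, none⟩, ⟨(0, 10), (0, 10),
    (0, 0), 0, some (3, 5)⟩, ⟨(0, 11), (0, 11), (0, -3), 0, none⟩, ⟨(0, 12), (0, 12),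
    (0, -1), 1, none⟩, ⟨(0, 13), (0, 13), (0, 4), 1, none⟩, ⟨(0, 14), (0, 14),
    (0, -11), 0, none⟩, ⟨(0, 15), (0, 15), (0, -1), 1, none⟩, ⟨(0, 16), (0, 16),
    (0, -7), 1, none⟩, ⟨(0, 17), (0, 17), (0, 3), 1, none⟩, ⟨(0, 18), (0, 18), (0, -3), 1, none⟩,
    ⟨(0, 19), (0, 19), (0, -6), 1, none⟩, ⟨(0, 20), (0, 20), (0, -2), 1, none⟩, ⟨(0, 21),
    (0, 21), (0, -2), 1, some (4, 11)⟩]

def ffC22r1_2_1 : List TP := [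
  ⟨(0, 0), (0, 0), (0, 0), 0, some (0, 0)⟩, ⟨(0, 1), (0, 1), (0, 0), 0, some (1, 1)⟩, ⟨(0, 2),
    (0, 2), (0, 0), 0, none⟩, ⟨(0, 3), (0, 3), (0, 3), 0, none⟩, ⟨(0, 4), (0, 5),
    (0, 0), 0, none⟩, ⟨(0, 6), (0, 6), (0, 3), 0, some (2, 5)⟩, ⟨(0, 7), (0, 7),
    (0, 5), 0, none⟩, ⟨(0, 8), (0, 8), (0, 0), 0, none⟩, ⟨(0, 9), (0, 9), (0, 5), 1, none⟩,
    ⟨(0, 10), (0, 10), (0, 8), 1, some (3, 11)⟩, ⟨(0, 11), (0, 11), (0, -1), 0, none⟩, ⟨(0, 12),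
    (0, 12), (0, 3), 1, none⟩, ⟨(0, 13), (0, 13), (0, -6), 0, none⟩, ⟨(0, 14), (0, 14),
    (0, -3), 1, none⟩, ⟨(0, 15), (0, 15), (0, 4), 1, none⟩, ⟨(0, 16), (0, 16), (0, -3), 1, none⟩,
    ⟨(0, 17), (0, 17), (0, -1), 1, none⟩, ⟨(0, 18), (0, 18), (0, 3), 1, none⟩, ⟨(0, 19), (0, 19),
    (0, -2), 1, none⟩, ⟨(0, 20), (0, 20), (0, 0), 1, none⟩, ⟨(0, 21), (0, 21),
    (0, -18), 0, some (4, 2)⟩]

def ffC22r1_2_2 : List TP := [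
  ⟨(0, 0), (0, 0), (0, 4), 0, some (0, 3)⟩, ⟨(0, 1), (0, 1), (0, -1), 0, some (1, 0)⟩, ⟨(0, 2),
    (0, 4), (0, -1), 0, none⟩, ⟨(0, 5), (0, 5), (0, 3), 0, none⟩, ⟨(0, 6), (0, 6),
    (0, 4), 0, some (2, 5)⟩, ⟨(0, 7), (0, 7), (0, 4), 0, none⟩, ⟨(0, 8), (0, 8),
    (0, 5), 0, none⟩, ⟨(0, 9), (0, 9), (0, 10), 1, none⟩, ⟨(0, 10), (0, 10),
    (0, -3), 0, some (3, 5)⟩, ⟨(0, 11), (0, 11), (0, -2), 0, none⟩, ⟨(0, 12), (0, 12),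
    (0, 9), 1, none⟩, ⟨(0, 13), (0, 13), (0, -7), 0, none⟩, ⟨(0, 14), (0, 14), (0, 3), 1, none⟩,
    ⟨(0, 15), (0, 15), (0, 0), 1, none⟩, ⟨(0, 16), (0, 16), (0, 4), 1, none⟩, ⟨(0, 17), (0, 17),
    (0, -12), 1, none⟩, ⟨(0, 18), (0, 18), (0, -2), 1, none⟩, ⟨(0, 19), (0, 19),
    (0, -1), 1, none⟩, ⟨(0, 20), (0, 20), (0, -8), 1, none⟩, ⟨(0, 21), (0, 21),
    (0, -7), 1, some (4, 8)⟩]

def ffC22r1_2_3 : List TP := [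
  ⟨(0, 0), (0, 0), (0, 5), 0, some (0, 4)⟩, ⟨(0, 1), (0, 1), (0, 18), 0, some (1, 11)⟩, ⟨(0, 2),
    (0, 2), (0, 4), 0, none⟩, ⟨(0, 3), (0, 3), (0, -3), 0, none⟩, ⟨(0, 4), (0, 5),
    (0, 10), 0, none⟩, ⟨(0, 6), (0, 6), (0, 15), 1, some (2, 12)⟩, ⟨(0, 7), (0, 7),
    (0, 9), 1, none⟩, ⟨(0, 8), (0, 9), (0, -1), 0, none⟩, ⟨(0, 10), (0, 10),
    (0, -7), 1, some (3, 2)⟩, ⟨(0, 11), (0, 11), (0, 9), 1, none⟩, ⟨(0, 12), (0, 12),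
    (0, -8), 0, none⟩, ⟨(0, 13), (0, 13), (0, -12), 0, none⟩, ⟨(0, 14), (0, 14),
    (0, 4), 1, none⟩, ⟨(0, 15), (0, 15), (0, -3), 1, none⟩, ⟨(0, 16), (0, 17), (0, -6), 1, none⟩,
    ⟨(0, 18), (0, 18), (0, -1), 1, none⟩, ⟨(0, 19), (0, 19), (0, -17), 0, none⟩, ⟨(0, 20),
    (0, 20), (0, -11), 1, none⟩, ⟨(0, 21), (0, 21), (0, -8), 1, some (4, 7)⟩]

def ffC22r1_2_4 : List TP := [
  ⟨(0, 0), (0, 0), (0, 8), 0, some (0, 5)⟩, ⟨(0, 1), (0, 1), (0, 4), 0, some (1, 4)⟩, ⟨(0, 2),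
    (0, 2), (0, 5), 0, none⟩, ⟨(0, 3), (0, 3), (0, 8), 0, none⟩, ⟨(0, 4), (0, 4),
    (0, -3), 0, none⟩, ⟨(0, 5), (0, 5), (0, 8), 0, none⟩, ⟨(0, 6), (0, 6),
    (0, 9), 0, some (2, 9)⟩, ⟨(0, 7), (0, 7), (0, 3), 0, none⟩, ⟨(0, 8), (0, 8),
    (0, 8), 1, none⟩, ⟨(0, 9), (0, 9), (0, 11), 1, none⟩, ⟨(0, 10), (0, 10),
    (0, 4), 1, some (3, 8)⟩, ⟨(0, 11), (0, 11), (0, 10), 1, none⟩, ⟨(0, 12), (0, 12),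
    (0, -12), 0, none⟩, ⟨(0, 13), (0, 13), (0, -1), 1, none⟩, ⟨(0, 14), (0, 14),
    (0, -8), 0, none⟩, ⟨(0, 15), (0, 15), (0, 3), 1, none⟩, ⟨(0, 16), (0, 16),
    (0, -13), 0, none⟩, ⟨(0, 17), (0, 17), (0, -8), 1, none⟩, ⟨(0, 18), (0, 18),
    (0, -14), 1, none⟩, ⟨(0, 19), (0, 19), (0, 0), 1, none⟩, ⟨(0, 20), (0, 20),
    (0, -3), 1, none⟩, ⟨(0, 21), (0, 21), (0, -19), 1, some (4, 1)⟩]

def ffC22r1_2_5 : List TP := [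
  ⟨(0, 0), (0, 0), (0, 9), 0, some (0, 5)⟩, ⟨(0, 1), (0, 1), (0, 5), 0, some (1, 5)⟩, ⟨(0, 2),
    (0, 2), (0, 8), 0, none⟩, ⟨(0, 3), (0, 3), (0, 0), 0, none⟩, ⟨(0, 4), (0, 4),
    (0, 3), 0, none⟩, ⟨(0, 5), (0, 5), (0, 11), 0, none⟩, ⟨(0, 6), (0, 6),
    (0, 8), 0, some (2, 8)⟩, ⟨(0, 7), (0, 7), (0, 11), 1, none⟩, ⟨(0, 8), (0, 8),
    (0, -8), 0, none⟩, ⟨(0, 9), (0, 9), (0, 8), 1, none⟩, ⟨(0, 10), (0, 10),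
    (0, 3), 1, some (3, 7)⟩, ⟨(0, 11), (0, 12), (0, 0), 1, none⟩, ⟨(0, 13), (0, 13),
    (0, -8), 0, none⟩, ⟨(0, 14), (0, 14), (0, -12), 0, none⟩, ⟨(0, 15), (0, 16),
    (0, 5), 1, none⟩, ⟨(0, 17), (0, 17), (0, -2), 1, none⟩, ⟨(0, 18), (0, 18),
    (0, -17), 0, none⟩, ⟨(0, 19), (0, 19), (0, -11), 1, none⟩, ⟨(0, 20), (0, 20),
    (0, -1), 1, none⟩, ⟨(0, 21), (0, 21), (0, -17), 0, some (4, 3)⟩]

def ffC22r1_2_6 : List TP := [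
  ⟨(0, 0), (0, 0), (0, 10), 0, some (0, 5)⟩, ⟨(0, 1), (0, 1), (0, 10), 0, some (1, 6)⟩, ⟨(0, 2),
    (0, 2), (0, 3), 0, none⟩, ⟨(0, 3), (0, 3), (0, 16), 1, none⟩, ⟨(0, 4), (0, 5),
    (0, 9), 0, none⟩, ⟨(0, 6), (0, 6), (0, 11), 1, some (2, 11)⟩, ⟨(0, 7), (0, 7),
    (0, 14), 1, none⟩, ⟨(0, 8), (0, 8), (0, -2), 0, none⟩, ⟨(0, 9), (0, 9), (0, -7), 0, none⟩,
    ⟨(0, 10), (0, 10), (0, 10), 1, some (3, 11)⟩, ⟨(0, 11), (0, 11), (0, -7), 0, none⟩, ⟨(0, 12),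
    (0, 12), (0, -3), 0, none⟩, ⟨(0, 13), (0, 13), (0, 5), 1, none⟩, ⟨(0, 14), (0, 14),
    (0, -2), 1, none⟩, ⟨(0, 15), (0, 15), (0, -14), 0, none⟩, ⟨(0, 16), (0, 16),
    (0, -8), 1, none⟩, ⟨(0, 17), (0, 17), (0, -14), 0, none⟩, ⟨(0, 18), (0, 18),
    (0, -18), 0, none⟩, ⟨(0, 19), (0, 19), (0, -3), 1, none⟩, ⟨(0, 20), (0, 20),
    (0, -13), 1, none⟩, ⟨(0, 21), (0, 21), (0, -6), 1, some (4, 9)⟩]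

def ffC22r1_2_7 : List TP := [
  ⟨(0, 0), (0, 0), (0, 11), 0, some (0, 6)⟩, ⟨(0, 1), (0, 1), (0, 8), 0, some (1, 5)⟩, ⟨(0, 2),
    (0, 2), (0, 14), 0, none⟩, ⟨(0, 3), (0, 3), (0, 5), 0, none⟩, ⟨(0, 4), (0, 4),
    (0, 15), 1, none⟩, ⟨(0, 5), (0, 5), (0, -3), 0, none⟩, ⟨(0, 6), (0, 6),
    (0, -1), 0, some (2, 4)⟩, ⟨(0, 7), (0, 8), (0, 10), 1, none⟩, ⟨(0, 9), (0, 9),
    (0, -3), 0, none⟩, ⟨(0, 10), (0, 10), (0, -6), 1, some (3, 3)⟩, ⟨(0, 11), (0, 11),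
    (0, -8), 0, none⟩, ⟨(0, 12), (0, 12), (0, -2), 1, none⟩, ⟨(0, 13), (0, 13),
    (0, -13), 0, none⟩, ⟨(0, 14), (0, 14), (0, -7), 0, none⟩, ⟨(0, 15), (0, 15),
    (0, -2), 1, none⟩, ⟨(0, 16), (0, 16), (0, -1), 1, none⟩, ⟨(0, 17), (0, 17), (0, 4), 1, none⟩,
    ⟨(0, 18), (0, 18), (0, -6), 1, none⟩, ⟨(0, 19), (0, 19), (0, -18), 0, none⟩, ⟨(0, 20),
    (0, 20), (0, -6), 1, none⟩, ⟨(0, 21), (0, 21), (0, -1), 1, some (4, 11)⟩]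

def ffC22r1_2_8 : List TP := [
  ⟨(0, 0), (0, 0), (0, 16), 0, some (0, 10)⟩, ⟨(0, 1), (0, 1), (0, 9), 0, some (1, 5)⟩, ⟨(0, 2),
    (0, 3), (0, 11), 0, none⟩, ⟨(0, 4), (0, 4), (0, 5), 0, none⟩, ⟨(0, 5), (0, 5),
    (0, 16), 1, none⟩, ⟨(0, 6), (0, 6), (0, -3), 0, some (2, 2)⟩, ⟨(0, 7), (0, 7),
    (0, -7), 0, none⟩, ⟨(0, 8), (0, 8), (0, 4), 0, none⟩, ⟨(0, 9), (0, 9), (0, 9), 1, none⟩,
    ⟨(0, 10), (0, 10), (0, 5), 1, some (3, 9)⟩, ⟨(0, 11), (0, 12), (0, 8), 1, none⟩, ⟨(0, 13),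
    (0, 13), (0, -2), 1, none⟩, ⟨(0, 14), (0, 14), (0, -6), 1, none⟩, ⟨(0, 15), (0, 15),
    (0, -11), 0, none⟩, ⟨(0, 16), (0, 16), (0, -14), 0, none⟩, ⟨(0, 17), (0, 17),
    (0, 0), 1, none⟩, ⟨(0, 18), (0, 19), (0, -13), 1, none⟩, ⟨(0, 20), (0, 20),
    (0, -19), 0, none⟩, ⟨(0, 21), (0, 21), (0, -14), 1, some (4, 5)⟩]

def ffC22r1_2 : List (List TP) := [ffC22r1_2_0, ffC22r1_2_1, ffC22r1_2_2, ffC22r1_2_3, ffC22r1_2_4, ffC22r1_2_5, ffC22r1_2_6, ffC22r1_2_7, ffC22r1_2_8]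

theorem attainsC22r1_2 {s n h j : ℕ} (hn : (n : ℤ) = 0 * s + 22) (hh : (h : ℤ) = 0 * s + 11)
    (hj : (j : ℤ) ≤ 0 * s + 2) : Attains n (4 * j + 9) :=
  attains_of_chk (d := sqC22r1_2) (H := hhC22r1_2) (A := aaC22r1_2) (G := ggC22r1_2) (F := ffC22r1_2)
    (by decide +kernel) (by decide +kernel) (by decide +kernel) (by decide +kernel)
    (by decide +kernel) (by decide +kernel) (by decide +kernel) (by decide +kernel)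
    (by decide +kernel) hn hh (le_trans hj (le_of_eq (by rfl)))

/-- data `C22r2_0` (0 extra intercalates) -/
def sqC22r2_0 : Sq where
  N := (0, 22)
  Hf := (0, 11)
  R := [(0, 0), (0, 1), (0, 6)]
  C := [
    (((0, 0), (0, 0)), [2, 1, 0]), (((0, 1), (0, 4)), [0, 1, 2]), (((0, 5), (0, 5)), [0, 2, 1]),
      (((0, 6), (0, 10)), [1, 0, 2]), (((0, 11), (0, 11)), [2, 1, 0]), (((0, 12),
      (0, 15)), [0, 1, 2]), (((0, 16), (0, 16)), [0, 2, 1]), (((0, 17), (0, 20)), [1, 0, 2]),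
      (((0, 21), (0, 21)), [1, 0, 2])]

def hhC22r2_0 : List (ℕ × ℕ) := [(0, 0), (0, 4)]

def aaC22r2_0 : List (List Ent) := [
  [((0, 0), none), ((0, 1), none)],
  [((0, 0), none), ((0, -1), none), ((0, 5), some ((0, 5), (0, 11))), ((0, 5), some ((0, 16),
    (0, 22)))],
  [((0, 0), none), ((0, -6), some ((0, 0), (0, 0))), ((0, -5), some ((0, 5), (0, 6))),
    ((0, -6), some ((0, 11), (0, 11))), ((0, -5), some ((0, 16), (0, 17)))]]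

def ggC22r2_0 : List (Lin × Lin) := [((0, 1), (0, 1)), ((0, 6), (0, 2))]

def ffC22r2_0_0 : List TP := [
  ⟨(0, 0), (0, 0), (0, 0), 0, some (0, 0)⟩, ⟨(0, 1), (0, 1), (0, 15), 1, some (1, 6)⟩, ⟨(0, 2),
    (0, 3), (0, -1), 0, none⟩, ⟨(0, 4), (0, 4), (0, 5), 0, none⟩, ⟨(0, 5), (0, 5),
    (0, -1), 0, none⟩, ⟨(0, 6), (0, 6), (0, 0), 0, some (2, 3)⟩, ⟨(0, 7), (0, 7),
    (0, 4), 0, none⟩, ⟨(0, 8), (0, 8), (0, -1), 0, none⟩, ⟨(0, 9), (0, 9), (0, 3), 0, none⟩,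
    ⟨(0, 10), (0, 10), (0, 0), 0, none⟩, ⟨(0, 11), (0, 11), (0, 4), 1, none⟩, ⟨(0, 12), (0, 12),
    (0, -7), 0, none⟩, ⟨(0, 13), (0, 13), (0, 4), 1, none⟩, ⟨(0, 14), (0, 14), (0, 5), 1, none⟩,
    ⟨(0, 15), (0, 15), (0, -1), 1, none⟩, ⟨(0, 16), (0, 16), (0, -8), 1, none⟩, ⟨(0, 17),
    (0, 17), (0, 4), 1, none⟩, ⟨(0, 18), (0, 18), (0, 0), 1, none⟩, ⟨(0, 19), (0, 19),
    (0, -6), 1, none⟩, ⟨(0, 20), (0, 20), (0, -17), 1, none⟩, ⟨(0, 21), (0, 21),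
    (0, -1), 1, none⟩]

def ffC22r2_0_1 : List TP := [
  ⟨(0, 0), (0, 0), (0, 11), 0, some (0, 4)⟩, ⟨(0, 1), (0, 1), (0, 4), 0, some (1, 2)⟩, ⟨(0, 2),
    (0, 3), (0, 0), 0, none⟩, ⟨(0, 4), (0, 4), (0, 15), 1, none⟩, ⟨(0, 5), (0, 5),
    (0, 10), 0, none⟩, ⟨(0, 6), (0, 6), (0, 15), 1, some (2, 8)⟩, ⟨(0, 7), (0, 7),
    (0, -1), 0, none⟩, ⟨(0, 8), (0, 8), (0, 0), 0, none⟩, ⟨(0, 9), (0, 9), (0, 4), 1, none⟩,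
    ⟨(0, 10), (0, 10), (0, 10), 1, none⟩, ⟨(0, 11), (0, 11), (0, 3), 1, none⟩, ⟨(0, 12), (0, 12),
    (0, 0), 1, none⟩, ⟨(0, 13), (0, 13), (0, -12), 0, none⟩, ⟨(0, 14), (0, 14),
    (0, -7), 0, none⟩, ⟨(0, 15), (0, 15), (0, -11), 0, none⟩, ⟨(0, 16), (0, 17),
    (0, 0), 1, none⟩, ⟨(0, 18), (0, 18), (0, -18), 0, none⟩, ⟨(0, 19), (0, 19),
    (0, -1), 1, none⟩, ⟨(0, 20), (0, 21), (0, -11), 1, none⟩]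

def ffC22r2_0 : List (List TP) := [ffC22r2_0_0, ffC22r2_0_1]

theorem attainsC22r2_0 {s n h j : ℕ} (hn : (n : ℤ) = 0 * s + 22) (hh : (h : ℤ) = 0 * s + 11)
    (hj : (j : ℤ) ≤ 0 * s + 3) : Attains n (4 * j + 2) :=
  attains_of_chk (d := sqC22r2_0) (H := hhC22r2_0) (A := aaC22r2_0) (G := ggC22r2_0) (F := ffC22r2_0)
    (by decide +kernel) (by decide +kernel) (by decide +kernel) (by decide +kernel)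
    (by decide +kernel) (by decide +kernel) (by decide +kernel) (by decide +kernel)
    (by decide +kernel) hn hh (le_trans hj (le_of_eq (by rfl)))

/-- data `C22r2_1` (1 extra intercalates) -/
def sqC22r2_1 : Sq where
  N := (0, 22)
  Hf := (0, 11)
  R := [(0, 0), (0, 1), (0, 6), (0, 10), (0, 21)]
  C := [
    (((0, 0), (0, 0)), [2, 1, 0, 3, 4]), (((0, 1), (0, 2)), [0, 1, 2, 3, 4]), (((0, 3),
      (0, 3)), [0, 1, 2, 4, 3]), (((0, 4), (0, 4)), [0, 1, 2, 3, 4]), (((0, 5),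
      (0, 5)), [0, 2, 1, 3, 4]), (((0, 6), (0, 10)), [1, 0, 2, 3, 4]), (((0, 11),
      (0, 11)), [2, 1, 0, 3, 4]), (((0, 12), (0, 13)), [0, 1, 2, 3, 4]), (((0, 14),
      (0, 14)), [0, 1, 2, 4, 3]), (((0, 15), (0, 15)), [0, 1, 2, 3, 4]), (((0, 16),
      (0, 16)), [0, 2, 1, 3, 4]), (((0, 17), (0, 20)), [1, 0, 2, 3, 4]), (((0, 21),
      (0, 21)), [1, 0, 2, 3, 4])]

def hhC22r2_1 : List (ℕ × ℕ) := [(0, 0), (0, 6), (3, 2), (4, 2), (3, 8), (4, 8)]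

def aaC22r2_1 : List (List Ent) := [
  [((0, 0), none), ((0, 1), none)],
  [((0, 0), none), ((0, -1), none), ((0, 5), some ((0, 5), (0, 11))), ((0, 5), some ((0, 16),
    (0, 22)))],
  [((0, 0), none), ((0, -6), some ((0, 0), (0, 0))), ((0, -5), some ((0, 5), (0, 6))),
    ((0, -6), some ((0, 11), (0, 11))), ((0, -5), some ((0, 16), (0, 17)))],
  [((0, 0), none)],
  [((0, 0), none)]]

def ggC22r2_1 : List (Lin × Lin) := [((0, 1), (0, 1)), ((0, 6), (0, 2))]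

def ffC22r2_1_0 : List TP := [
  ⟨(0, 0), (0, 0), (0, 0), 0, some (0, 0)⟩, ⟨(0, 1), (0, 1), (0, 15), 1, some (1, 10)⟩, ⟨(0, 2),
    (0, 3), (0, -1), 0, none⟩, ⟨(0, 4), (0, 4), (0, 5), 0, none⟩, ⟨(0, 5), (0, 5),
    (0, -1), 0, none⟩, ⟨(0, 6), (0, 6), (0, 0), 0, some (2, 5)⟩, ⟨(0, 7), (0, 7),
    (0, 4), 0, none⟩, ⟨(0, 8), (0, 8), (0, -1), 0, none⟩, ⟨(0, 9), (0, 9), (0, 3), 0, none⟩,
    ⟨(0, 10), (0, 10), (0, 0), 0, some (3, 5)⟩, ⟨(0, 11), (0, 11), (0, 4), 1, none⟩, ⟨(0, 12),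
    (0, 12), (0, -7), 0, none⟩, ⟨(0, 13), (0, 13), (0, 4), 1, none⟩, ⟨(0, 14), (0, 14),
    (0, 5), 1, none⟩, ⟨(0, 15), (0, 15), (0, -1), 1, none⟩, ⟨(0, 16), (0, 16), (0, -8), 1, none⟩,
    ⟨(0, 17), (0, 17), (0, 4), 1, none⟩, ⟨(0, 18), (0, 18), (0, 0), 1, none⟩, ⟨(0, 19), (0, 19),
    (0, -6), 1, none⟩, ⟨(0, 20), (0, 20), (0, -17), 1, none⟩, ⟨(0, 21), (0, 21),
    (0, -1), 1, some (4, 11)⟩]

def ffC22r2_1_1 : List TP := [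
  ⟨(0, 0), (0, 0), (0, 11), 0, some (0, 6)⟩, ⟨(0, 1), (0, 1), (0, 4), 0, some (1, 4)⟩, ⟨(0, 2),
    (0, 3), (0, 0), 0, none⟩, ⟨(0, 4), (0, 4), (0, 15), 1, none⟩, ⟨(0, 5), (0, 5),
    (0, 10), 0, none⟩, ⟨(0, 6), (0, 6), (0, 15), 1, some (2, 12)⟩, ⟨(0, 7), (0, 7),
    (0, -1), 0, none⟩, ⟨(0, 8), (0, 8), (0, 0), 0, none⟩, ⟨(0, 9), (0, 9), (0, 4), 1, none⟩,
    ⟨(0, 10), (0, 10), (0, 10), 1, some (3, 11)⟩, ⟨(0, 11), (0, 11), (0, 3), 1, none⟩, ⟨(0, 12),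
    (0, 12), (0, 0), 1, none⟩, ⟨(0, 13), (0, 13), (0, -12), 0, none⟩, ⟨(0, 14), (0, 14),
    (0, -7), 0, none⟩, ⟨(0, 15), (0, 15), (0, -11), 0, none⟩, ⟨(0, 16), (0, 17),
    (0, 0), 1, none⟩, ⟨(0, 18), (0, 18), (0, -18), 0, none⟩, ⟨(0, 19), (0, 19),
    (0, -1), 1, none⟩, ⟨(0, 20), (0, 20), (0, -11), 1, none⟩, ⟨(0, 21), (0, 21),
    (0, -11), 1, some (4, 5)⟩]

def ffC22r2_1_2 : List TP := [
  ⟨(0, 0), (0, 0), (0, 16), 0, some (0, 10)⟩, ⟨(0, 1), (0, 1), (0, 0), 0, some (1, 1)⟩, ⟨(0, 2),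
    (0, 2), (0, 3), 0, none⟩, ⟨(0, 3), (0, 3), (0, 15), 0, none⟩, ⟨(0, 4), (0, 4),
    (0, 10), 0, none⟩, ⟨(0, 5), (0, 5), (0, 4), 0, none⟩, ⟨(0, 6), (0, 6),
    (0, 14), 1, some (2, 11)⟩, ⟨(0, 7), (0, 8), (0, 3), 0, none⟩, ⟨(0, 9), (0, 9),
    (0, 10), 1, none⟩, ⟨(0, 10), (0, 10), (0, 5), 1, some (3, 9)⟩, ⟨(0, 11), (0, 11),
    (0, 10), 1, none⟩, ⟨(0, 12), (0, 12), (0, -12), 0, none⟩, ⟨(0, 13), (0, 13),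
    (0, -11), 0, none⟩, ⟨(0, 14), (0, 14), (0, 3), 1, none⟩, ⟨(0, 15), (0, 15),
    (0, -8), 1, none⟩, ⟨(0, 16), (0, 16), (0, -12), 0, none⟩, ⟨(0, 17), (0, 17),
    (0, -11), 1, none⟩, ⟨(0, 18), (0, 18), (0, -6), 1, none⟩, ⟨(0, 19), (0, 19),
    (0, -11), 1, none⟩, ⟨(0, 20), (0, 20), (0, -7), 1, none⟩, ⟨(0, 21), (0, 21),
    (0, -18), 0, some (4, 2)⟩]

def ffC22r2_1_3 : List TP := [
  ⟨(0, 0), (0, 0), (0, 3), 0, some (0, 2)⟩, ⟨(0, 1), (0, 1), (0, 10), 0, some (1, 6)⟩, ⟨(0, 2),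
    (0, 2), (0, 10), 0, none⟩, ⟨(0, 3), (0, 3), (0, 4), 0, none⟩, ⟨(0, 4), (0, 4),
    (0, 14), 1, none⟩, ⟨(0, 5), (0, 5), (0, 11), 0, none⟩, ⟨(0, 6), (0, 6),
    (0, 4), 0, some (2, 5)⟩, ⟨(0, 7), (0, 7), (0, -6), 0, none⟩, ⟨(0, 8), (0, 8),
    (0, 11), 1, none⟩, ⟨(0, 9), (0, 9), (0, -7), 0, none⟩, ⟨(0, 10), (0, 10),
    (0, 3), 1, some (3, 7)⟩, ⟨(0, 11), (0, 11), (0, -7), 0, none⟩, ⟨(0, 12), (0, 12),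
    (0, 5), 1, none⟩, ⟨(0, 13), (0, 14), (0, -8), 0, none⟩, ⟨(0, 15), (0, 15), (0, 5), 1, none⟩,
    ⟨(0, 16), (0, 16), (0, -1), 1, none⟩, ⟨(0, 17), (0, 17), (0, -8), 1, none⟩, ⟨(0, 18),
    (0, 18), (0, 3), 1, none⟩, ⟨(0, 19), (0, 19), (0, -19), 0, none⟩, ⟨(0, 20), (0, 20),
    (0, -12), 1, none⟩, ⟨(0, 21), (0, 21), (0, -7), 1, some (4, 8)⟩]

def ffC22r2_1_4 : List TP := [
  ⟨(0, 0), (0, 0), (0, 4), 0, some (0, 3)⟩, ⟨(0, 1), (0, 1), (0, 11), 0, some (1, 7)⟩, ⟨(0, 2),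
    (0, 3), (0, 11), 0, none⟩, ⟨(0, 4), (0, 4), (0, 4), 0, none⟩, ⟨(0, 5), (0, 5),
    (0, 15), 1, none⟩, ⟨(0, 6), (0, 6), (0, 11), 1, some (2, 11)⟩, ⟨(0, 7), (0, 7),
    (0, 0), 0, none⟩, ⟨(0, 8), (0, 8), (0, -7), 0, none⟩, ⟨(0, 9), (0, 9), (0, 0), 0, none⟩,
    ⟨(0, 10), (0, 10), (0, -7), 1, some (3, 2)⟩, ⟨(0, 11), (0, 11), (0, -11), 0, none⟩, ⟨(0, 12),
    (0, 12), (0, 4), 1, none⟩, ⟨(0, 13), (0, 13), (0, -7), 0, none⟩, ⟨(0, 14), (0, 14),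
    (0, 4), 1, none⟩, ⟨(0, 15), (0, 15), (0, 0), 1, none⟩, ⟨(0, 16), (0, 16), (0, -11), 0, none⟩,
    ⟨(0, 17), (0, 18), (0, -7), 1, none⟩, ⟨(0, 19), (0, 19), (0, 0), 1, none⟩, ⟨(0, 20), (0, 20),
    (0, -18), 1, none⟩, ⟨(0, 21), (0, 21), (0, 0), 1, some (4, 12)⟩]

def ffC22r2_1_5 : List TP := [
  ⟨(0, 0), (0, 0), (0, 5), 0, some (0, 4)⟩, ⟨(0, 1), (0, 1), (0, 14), 0, some (1, 9)⟩, ⟨(0, 2),
    (0, 2), (0, 15), 0, none⟩, ⟨(0, 3), (0, 3), (0, 3), 0, none⟩, ⟨(0, 4), (0, 4),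
    (0, 0), 0, none⟩, ⟨(0, 5), (0, 5), (0, 14), 1, none⟩, ⟨(0, 6), (0, 6),
    (0, 3), 0, some (2, 5)⟩, ⟨(0, 7), (0, 7), (0, 14), 1, none⟩, ⟨(0, 8), (0, 8),
    (0, 4), 0, none⟩, ⟨(0, 9), (0, 9), (0, -8), 0, none⟩, ⟨(0, 10), (0, 10),
    (0, 4), 1, some (3, 8)⟩, ⟨(0, 11), (0, 11), (0, -8), 0, none⟩, ⟨(0, 12), (0, 12),
    (0, -1), 1, none⟩, ⟨(0, 13), (0, 13), (0, 3), 1, none⟩, ⟨(0, 14), (0, 14), (0, -6), 1, none⟩,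
    ⟨(0, 15), (0, 15), (0, 3), 1, none⟩, ⟨(0, 16), (0, 16), (0, -6), 1, none⟩, ⟨(0, 17), (0, 17),
    (0, -17), 0, none⟩, ⟨(0, 18), (0, 18), (0, -11), 1, none⟩, ⟨(0, 19), (0, 19),
    (0, -17), 0, none⟩, ⟨(0, 20), (0, 20), (0, 0), 1, none⟩, ⟨(0, 21), (0, 21),
    (0, -8), 1, some (4, 7)⟩]

def ffC22r2_1 : List (List TP) := [ffC22r2_1_0, ffC22r2_1_1, ffC22r2_1_2, ffC22r2_1_3, ffC22r2_1_4, ffC22r2_1_5]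

theorem attainsC22r2_1 {s n h j : ℕ} (hn : (n : ℤ) = 0 * s + 22) (hh : (h : ℤ) = 0 * s + 11)
    (hj : (j : ℤ) ≤ 0 * s + 3) : Attains n (4 * j + 6) :=
  attains_of_chk (d := sqC22r2_1) (H := hhC22r2_1) (A := aaC22r2_1) (G := ggC22r2_1) (F := ffC22r2_1)
    (by decide +kernel) (by decide +kernel) (by decide +kernel) (by decide +kernel)
    (by decide +kernel) (by decide +kernel) (by decide +kernel) (by decide +kernel)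
    (by decide +kernel) hn hh (le_trans hj (le_of_eq (by rfl)))

/-- data `C22r3_0` (0 extra intercalates) -/
def sqC22r3_0 : Sq where
  N := (0, 22)
  Hf := (0, 11)
  R := [(0, 0), (0, 1), (0, 6), (0, 12)]
  C := [
    (((0, 0), (0, 0)), [2, 0, 3, 1]), (((0, 1), (0, 5)), [0, 1, 2, 3]), (((0, 6),
      (0, 6)), [2, 1, 0, 3]), (((0, 7), (0, 9)), [0, 1, 2, 3]), (((0, 10),
      (0, 10)), [0, 1, 2, 3]), (((0, 11), (0, 11)), [0, 3, 2, 1]), (((0, 12),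
      (0, 15)), [1, 0, 2, 3]), (((0, 16), (0, 20)), [1, 0, 2, 3]), (((0, 21),
      (0, 21)), [1, 0, 2, 3])]

def hhC22r3_0 : List (ℕ × ℕ) := [(1, 5), (3, 0), (3, 5)]

def aaC22r3_0 : List (List Ent) := [
  [((0, 0), none), ((0, 1), none), ((0, 6), some ((0, 0), (0, 6))), ((0, 6), some ((0, 6),
    (0, 12)))],
  [((0, 0), none), ((0, -1), none)],
  [((0, 0), none), ((0, 6), some ((0, 0), (0, 12))), ((0, -6), some ((0, 6), (0, 6)))],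
  [((0, 0), none)]]

def ggC22r3_0 : List (Lin × Lin) := [((0, 1), (0, 2)), ((0, 8), (0, 1))]

def ffC22r3_0_0 : List TP := [
  ⟨(0, 0), (0, 0), (0, 7), 0, some (0, 3)⟩, ⟨(0, 1), (0, 1), (0, 10), 1, some (1, 5)⟩, ⟨(0, 2),
    (0, 3), (0, 7), 0, none⟩, ⟨(0, 4), (0, 4), (0, 16), 1, none⟩, ⟨(0, 5), (0, 5),
    (0, 10), 0, none⟩, ⟨(0, 6), (0, 6), (0, 7), 0, some (2, 6)⟩, ⟨(0, 7), (0, 7),
    (0, 7), 0, none⟩, ⟨(0, 8), (0, 8), (0, 11), 1, none⟩, ⟨(0, 9), (0, 9), (0, 7), 1, none⟩,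
    ⟨(0, 10), (0, 10), (0, -6), 0, none⟩, ⟨(0, 11), (0, 11), (0, 10), 1, none⟩, ⟨(0, 12),
    (0, 12), (0, -6), 0, some (3, 2)⟩, ⟨(0, 13), (0, 13), (0, 5), 1, none⟩, ⟨(0, 14), (0, 14),
    (0, -12), 0, none⟩, ⟨(0, 15), (0, 16), (0, -15), 0, none⟩, ⟨(0, 17), (0, 17),
    (0, 0), 1, none⟩, ⟨(0, 18), (0, 18), (0, -6), 1, none⟩, ⟨(0, 19), (0, 19),
    (0, -16), 1, none⟩, ⟨(0, 20), (0, 20), (0, -12), 1, none⟩, ⟨(0, 21), (0, 21),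
    (0, -16), 1, none⟩]

def ffC22r3_0_1 : List TP := [
  ⟨(0, 0), (0, 0), (0, 10), 0, some (0, 4)⟩, ⟨(0, 1), (0, 1), (0, 0), 0, some (1, 1)⟩, ⟨(0, 2),
    (0, 2), (0, 16), 0, none⟩, ⟨(0, 3), (0, 3), (0, 16), 1, none⟩, ⟨(0, 4), (0, 4),
    (0, 11), 0, none⟩, ⟨(0, 5), (0, 5), (0, 16), 1, none⟩, ⟨(0, 6), (0, 6),
    (0, 6), 0, some (2, 6)⟩, ⟨(0, 7), (0, 7), (0, -5), 0, none⟩, ⟨(0, 8), (0, 10),
    (0, -4), 0, none⟩, ⟨(0, 11), (0, 11), (0, 6), 1, none⟩, ⟨(0, 12), (0, 12),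
    (0, -12), 0, some (3, 0)⟩, ⟨(0, 13), (0, 13), (0, -5), 0, none⟩, ⟨(0, 14), (0, 14),
    (0, -11), 0, none⟩, ⟨(0, 15), (0, 15), (0, 5), 1, none⟩, ⟨(0, 16), (0, 16),
    (0, -5), 1, none⟩, ⟨(0, 17), (0, 17), (0, -4), 1, none⟩, ⟨(0, 18), (0, 18),
    (0, -11), 1, none⟩, ⟨(0, 19), (0, 19), (0, -5), 1, none⟩, ⟨(0, 20), (0, 20),
    (0, -11), 1, none⟩, ⟨(0, 21), (0, 21), (0, -5), 1, none⟩]

def ffC22r3_0_2 : List TP := [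
  ⟨(0, 0), (0, 0), (0, 19), 0, some (0, 7)⟩, ⟨(0, 1), (0, 1), (0, 17), 0, some (1, 7)⟩, ⟨(0, 2),
    (0, 2), (0, 18), 1, none⟩, ⟨(0, 3), (0, 5), (0, -1), 0, none⟩, ⟨(0, 6), (0, 6),
    (0, -1), 0, some (2, 1)⟩, ⟨(0, 7), (0, 7), (0, 10), 1, none⟩, ⟨(0, 8), (0, 9),
    (0, -1), 0, none⟩, ⟨(0, 10), (0, 10), (0, 6), 1, none⟩, ⟨(0, 11), (0, 11), (0, -1), 0, none⟩,
    ⟨(0, 12), (0, 12), (0, -1), 0, some (3, 5)⟩, ⟨(0, 13), (0, 13), (0, -1), 1, none⟩, ⟨(0, 14),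
    (0, 14), (0, 0), 1, none⟩, ⟨(0, 15), (0, 15), (0, 6), 1, none⟩, ⟨(0, 16), (0, 16),
    (0, -16), 0, none⟩, ⟨(0, 17), (0, 17), (0, -11), 1, none⟩, ⟨(0, 18), (0, 18),
    (0, -17), 0, none⟩, ⟨(0, 19), (0, 19), (0, -6), 1, none⟩, ⟨(0, 20), (0, 20),
    (0, -5), 1, none⟩, ⟨(0, 21), (0, 21), (0, -12), 1, none⟩]

def ffC22r3_0 : List (List TP) := [ffC22r3_0_0, ffC22r3_0_1, ffC22r3_0_2]

theorem attainsC22r3_0 {s n h j : ℕ} (hn : (n : ℤ) = 0 * s + 22) (hh : (h : ℤ) = 0 * s + 11)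
    (hj : (j : ℤ) ≤ 0 * s + 3) : Attains n (4 * j + 3) :=
  attains_of_chk (d := sqC22r3_0) (H := hhC22r3_0) (A := aaC22r3_0) (G := ggC22r3_0) (F := ffC22r3_0)
    (by decide +kernel) (by decide +kernel) (by decide +kernel) (by decide +kernel)
    (by decide +kernel) (by decide +kernel) (by decide +kernel) (by decide +kernel)
    (by decide +kernel) hn hh (le_trans hj (le_of_eq (by rfl)))

/-- data `C22r3_1` (1 extra intercalates) -/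
def sqC22r3_1 : Sq where
  N := (0, 22)
  Hf := (0, 11)
  R := [(0, 0), (0, 1), (0, 6), (0, 12), (0, 10), (0, 21)]
  C := [
    (((0, 0), (0, 0)), [2, 0, 3, 1, 4, 5]), (((0, 1), (0, 5)), [0, 1, 2, 3, 4, 5]), (((0, 6),
      (0, 6)), [2, 1, 0, 3, 4, 5]), (((0, 7), (0, 9)), [0, 1, 2, 3, 4, 5]), (((0, 10),
      (0, 10)), [0, 1, 2, 3, 5, 4]), (((0, 11), (0, 11)), [0, 3, 2, 1, 4, 5]), (((0, 12),
      (0, 15)), [1, 0, 2, 3, 4, 5]), (((0, 16), (0, 20)), [1, 0, 2, 3, 4, 5]), (((0, 21),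
      (0, 21)), [1, 0, 2, 3, 5, 4])]

def hhC22r3_1 : List (ℕ × ℕ) := [(1, 5), (3, 0), (3, 5), (4, 8), (5, 8), (4, 4), (5, 4)]

def aaC22r3_1 : List (List Ent) := [
  [((0, 0), none), ((0, 1), none), ((0, 6), some ((0, 0), (0, 6))), ((0, 6), some ((0, 6),
    (0, 12)))],
  [((0, 0), none), ((0, -1), none)],
  [((0, 0), none), ((0, 6), some ((0, 0), (0, 12))), ((0, -6), some ((0, 6), (0, 6)))],
  [((0, 0), none)],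
  [((0, 0), none)],
  [((0, 0), none)]]

def ggC22r3_1 : List (Lin × Lin) := [((0, 1), (0, 2)), ((0, 8), (0, 1))]

def ffC22r3_1_0 : List TP := [
  ⟨(0, 0), (0, 0), (0, 7), 0, some (0, 3)⟩, ⟨(0, 1), (0, 1), (0, 10), 1, some (1, 5)⟩, ⟨(0, 2),
    (0, 3), (0, 7), 0, none⟩, ⟨(0, 4), (0, 4), (0, 16), 1, none⟩, ⟨(0, 5), (0, 5),
    (0, 10), 0, none⟩, ⟨(0, 6), (0, 6), (0, 7), 0, some (2, 6)⟩, ⟨(0, 7), (0, 7),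
    (0, 7), 0, none⟩, ⟨(0, 8), (0, 8), (0, 11), 1, none⟩, ⟨(0, 9), (0, 9), (0, 7), 1, none⟩,
    ⟨(0, 10), (0, 10), (0, -6), 0, some (4, 1)⟩, ⟨(0, 11), (0, 11), (0, 10), 1, none⟩, ⟨(0, 12),
    (0, 12), (0, -6), 0, some (3, 2)⟩, ⟨(0, 13), (0, 13), (0, 5), 1, none⟩, ⟨(0, 14), (0, 14),
    (0, -12), 0, none⟩, ⟨(0, 15), (0, 16), (0, -15), 0, none⟩, ⟨(0, 17), (0, 17),
    (0, 0), 1, none⟩, ⟨(0, 18), (0, 18), (0, -6), 1, none⟩, ⟨(0, 19), (0, 19),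
    (0, -16), 1, none⟩, ⟨(0, 20), (0, 20), (0, -12), 1, none⟩, ⟨(0, 21), (0, 21),
    (0, -16), 1, some (5, 1)⟩]

def ffC22r3_1_1 : List TP := [
  ⟨(0, 0), (0, 0), (0, 10), 0, some (0, 4)⟩, ⟨(0, 1), (0, 1), (0, 0), 0, some (1, 1)⟩, ⟨(0, 2),
    (0, 2), (0, 16), 0, none⟩, ⟨(0, 3), (0, 3), (0, 16), 1, none⟩, ⟨(0, 4), (0, 4),
    (0, 11), 0, none⟩, ⟨(0, 5), (0, 5), (0, 16), 1, none⟩, ⟨(0, 6), (0, 6),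
    (0, 6), 0, some (2, 6)⟩, ⟨(0, 7), (0, 7), (0, -5), 0, none⟩, ⟨(0, 8), (0, 9),
    (0, -4), 0, none⟩, ⟨(0, 10), (0, 10), (0, -4), 0, some (4, 2)⟩, ⟨(0, 11), (0, 11),
    (0, 6), 1, none⟩, ⟨(0, 12), (0, 12), (0, -12), 0, some (3, 0)⟩, ⟨(0, 13), (0, 13),
    (0, -5), 0, none⟩, ⟨(0, 14), (0, 14), (0, -11), 0, none⟩, ⟨(0, 15), (0, 15),
    (0, 5), 1, none⟩, ⟨(0, 16), (0, 16), (0, -5), 1, none⟩, ⟨(0, 17), (0, 17), (0, -4), 1, none⟩,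
    ⟨(0, 18), (0, 18), (0, -11), 1, none⟩, ⟨(0, 19), (0, 19), (0, -5), 1, none⟩, ⟨(0, 20),
    (0, 20), (0, -11), 1, none⟩, ⟨(0, 21), (0, 21), (0, -5), 1, some (5, 7)⟩]

def ffC22r3_1_2 : List TP := [
  ⟨(0, 0), (0, 0), (0, 19), 0, some (0, 7)⟩, ⟨(0, 1), (0, 1), (0, 17), 0, some (1, 7)⟩, ⟨(0, 2),
    (0, 2), (0, 18), 1, none⟩, ⟨(0, 3), (0, 5), (0, -1), 0, none⟩, ⟨(0, 6), (0, 6),
    (0, -1), 0, some (2, 1)⟩, ⟨(0, 7), (0, 7), (0, 10), 1, none⟩, ⟨(0, 8), (0, 9),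
    (0, -1), 0, none⟩, ⟨(0, 10), (0, 10), (0, 6), 1, some (4, 7)⟩, ⟨(0, 11), (0, 11),
    (0, -1), 0, none⟩, ⟨(0, 12), (0, 12), (0, -1), 0, some (3, 5)⟩, ⟨(0, 13), (0, 13),
    (0, -1), 1, none⟩, ⟨(0, 14), (0, 14), (0, 0), 1, none⟩, ⟨(0, 15), (0, 15), (0, 6), 1, none⟩,
    ⟨(0, 16), (0, 16), (0, -16), 0, none⟩, ⟨(0, 17), (0, 17), (0, -11), 1, none⟩, ⟨(0, 18),
    (0, 18), (0, -17), 0, none⟩, ⟨(0, 19), (0, 19), (0, -6), 1, none⟩, ⟨(0, 20), (0, 20),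
    (0, -5), 1, none⟩, ⟨(0, 21), (0, 21), (0, -12), 1, some (5, 3)⟩]

def ffC22r3_1_3 : List TP := [
  ⟨(0, 0), (0, 0), (0, 12), 0, some (0, 6)⟩, ⟨(0, 1), (0, 1), (0, 16), 0, some (1, 7)⟩, ⟨(0, 2),
    (0, 3), (0, 0), 0, none⟩, ⟨(0, 4), (0, 4), (0, 7), 0, none⟩, ⟨(0, 5), (0, 5),
    (0, -5), 0, none⟩, ⟨(0, 6), (0, 6), (0, -5), 0, some (2, 1)⟩, ⟨(0, 7), (0, 7),
    (0, 0), 0, none⟩, ⟨(0, 8), (0, 8), (0, 5), 0, none⟩, ⟨(0, 9), (0, 9), (0, 5), 1, none⟩,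
    ⟨(0, 10), (0, 10), (0, -1), 0, some (4, 3)⟩, ⟨(0, 11), (0, 11), (0, -6), 0, none⟩, ⟨(0, 12),
    (0, 12), (0, 6), 1, some (3, 7)⟩, ⟨(0, 13), (0, 13), (0, 6), 1, none⟩, ⟨(0, 14), (0, 14),
    (0, -6), 1, none⟩, ⟨(0, 15), (0, 15), (0, -5), 1, none⟩, ⟨(0, 16), (0, 16),
    (0, -12), 0, none⟩, ⟨(0, 17), (0, 17), (0, -1), 1, none⟩, ⟨(0, 18), (0, 18),
    (0, -12), 1, none⟩, ⟨(0, 19), (0, 19), (0, -4), 1, none⟩, ⟨(0, 20), (0, 20),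
    (0, 0), 1, none⟩, ⟨(0, 21), (0, 21), (0, 0), 1, some (5, 8)⟩]

def ffC22r3_1_4 : List TP := [
  ⟨(0, 0), (0, 0), (0, 11), 0, some (0, 5)⟩, ⟨(0, 1), (0, 1), (0, 7), 0, some (1, 3)⟩, ⟨(0, 2),
    (0, 2), (0, 11), 0, none⟩, ⟨(0, 3), (0, 3), (0, 18), 1, none⟩, ⟨(0, 4), (0, 4),
    (0, -4), 0, none⟩, ⟨(0, 5), (0, 5), (0, 11), 0, none⟩, ⟨(0, 6), (0, 6),
    (0, -4), 0, some (2, 1)⟩, ⟨(0, 7), (0, 7), (0, -4), 0, none⟩, ⟨(0, 8), (0, 8),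
    (0, 7), 1, none⟩, ⟨(0, 9), (0, 9), (0, -5), 0, none⟩, ⟨(0, 10), (0, 10),
    (0, 7), 1, some (4, 7)⟩, ⟨(0, 11), (0, 11), (0, -5), 0, none⟩, ⟨(0, 12), (0, 12),
    (0, -5), 0, some (3, 3)⟩, ⟨(0, 13), (0, 13), (0, -4), 1, none⟩, ⟨(0, 14), (0, 14),
    (0, 6), 1, none⟩, ⟨(0, 15), (0, 15), (0, -1), 1, none⟩, ⟨(0, 16), (0, 16), (0, -4), 1, none⟩,
    ⟨(0, 17), (0, 17), (0, -16), 0, none⟩, ⟨(0, 18), (0, 19), (0, 0), 1, none⟩, ⟨(0, 20),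
    (0, 20), (0, -15), 1, none⟩, ⟨(0, 21), (0, 21), (0, -11), 0, some (5, 4)⟩]

def ffC22r3_1_5 : List TP := [
  ⟨(0, 0), (0, 0), (0, 17), 0, some (0, 7)⟩, ⟨(0, 1), (0, 1), (0, -1), 0, some (1, 0)⟩, ⟨(0, 2),
    (0, 2), (0, 5), 0, none⟩, ⟨(0, 3), (0, 4), (0, 6), 0, none⟩, ⟨(0, 5), (0, 5),
    (0, -4), 0, none⟩, ⟨(0, 6), (0, 6), (0, 5), 0, some (2, 5)⟩, ⟨(0, 7), (0, 7),
    (0, -1), 0, none⟩, ⟨(0, 8), (0, 8), (0, 0), 0, none⟩, ⟨(0, 9), (0, 9), (0, 11), 1, none⟩,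
    ⟨(0, 10), (0, 10), (0, 11), 1, some (4, 8)⟩, ⟨(0, 11), (0, 11), (0, 5), 1, none⟩, ⟨(0, 12),
    (0, 12), (0, 0), 1, some (3, 6)⟩, ⟨(0, 13), (0, 13), (0, 0), 1, none⟩, ⟨(0, 14), (0, 14),
    (0, 5), 1, none⟩, ⟨(0, 15), (0, 15), (0, 0), 1, none⟩, ⟨(0, 16), (0, 16), (0, -11), 0, none⟩,
    ⟨(0, 17), (0, 17), (0, -15), 0, none⟩, ⟨(0, 18), (0, 18), (0, -4), 1, none⟩, ⟨(0, 19),
    (0, 19), (0, -1), 1, none⟩, ⟨(0, 20), (0, 20), (0, -17), 1, none⟩, ⟨(0, 21), (0, 21),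
    (0, -17), 1, some (5, 1)⟩]

def ffC22r3_1_6 : List TP := [
  ⟨(0, 0), (0, 0), (0, 5), 0, some (0, 1)⟩, ⟨(0, 1), (0, 1), (0, 5), 0, some (1, 2)⟩, ⟨(0, 2),
    (0, 2), (0, 17), 0, none⟩, ⟨(0, 3), (0, 3), (0, 10), 0, none⟩, ⟨(0, 4), (0, 4),
    (0, 0), 0, none⟩, ⟨(0, 5), (0, 5), (0, 7), 0, none⟩, ⟨(0, 6), (0, 6),
    (0, 10), 1, some (2, 7)⟩, ⟨(0, 7), (0, 7), (0, 11), 1, none⟩, ⟨(0, 8), (0, 8),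
    (0, -6), 0, none⟩, ⟨(0, 9), (0, 9), (0, 6), 1, none⟩, ⟨(0, 10), (0, 10),
    (0, 0), 1, some (4, 4)⟩, ⟨(0, 11), (0, 11), (0, -11), 0, none⟩, ⟨(0, 12), (0, 12),
    (0, -4), 0, some (3, 3)⟩, ⟨(0, 13), (0, 13), (0, -12), 0, none⟩, ⟨(0, 14), (0, 14),
    (0, -5), 1, none⟩, ⟨(0, 15), (0, 15), (0, -12), 0, none⟩, ⟨(0, 16), (0, 16),
    (0, 5), 1, none⟩, ⟨(0, 17), (0, 17), (0, -6), 1, none⟩, ⟨(0, 18), (0, 18), (0, -1), 1, none⟩,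
    ⟨(0, 19), (0, 19), (0, -12), 1, none⟩, ⟨(0, 20), (0, 20), (0, -6), 1, none⟩, ⟨(0, 21),
    (0, 21), (0, -1), 1, some (5, 7)⟩]

def ffC22r3_1 : List (List TP) := [ffC22r3_1_0, ffC22r3_1_1, ffC22r3_1_2, ffC22r3_1_3, ffC22r3_1_4, ffC22r3_1_5, ffC22r3_1_6]

theorem attainsC22r3_1 {s n h j : ℕ} (hn : (n : ℤ) = 0 * s + 22) (hh : (h : ℤ) = 0 * s + 11)
    (hj : (j : ℤ) ≤ 0 * s + 3) : Attains n (4 * j + 7) :=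
  attains_of_chk (d := sqC22r3_1) (H := hhC22r3_1) (A := aaC22r3_1) (G := ggC22r3_1) (F := ffC22r3_1)
    (by decide +kernel) (by decide +kernel) (by decide +kernel) (by decide +kernel)
    (by decide +kernel) (by decide +kernel) (by decide +kernel) (by decide +kernel)
    (by decide +kernel) hn hh (le_trans hj (le_of_eq (by rfl)))

end Pool.Agent.Hhelper79.PL
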