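import Mathlib
import Pool.Agent.Hhelper79.PL.Final

set_option autoImplicit false

/-!
Piecewise data for `n = 4 b - 2` (generated by a SAT search).
-/

namespace Pool.Agent.Hhelper79.PL

open Pool.Agent.Hhelper79.LT

/-- data `C30` (1 extra intercalates) -/
def sqC30 : Sq where
  N := (0, 30)
  Hf := (0, 15)
  R := [(0, 0), (0, 1), (0, 8), (0, 16), (0, 14), (0, 29)]
  C := [
    (((0, 0), (0, 0)), [2, 0, 3, 1, 4, 5]), (((0, 1), (0, 7)), [0, 1, 2, 3, 4, 5]), (((0, 8),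
      (0, 8)), [2, 1, 0, 3, 4, 5]), (((0, 9), (0, 13)), [0, 1, 2, 3, 4, 5]), (((0, 14),
      (0, 14)), [0, 1, 2, 3, 5, 4]), (((0, 15), (0, 15)), [0, 3, 2, 1, 4, 5]), (((0, 16),
      (0, 21)), [1, 0, 2, 3, 4, 5]), (((0, 22), (0, 28)), [1, 0, 2, 3, 4, 5]), (((0, 29),
      (0, 29)), [1, 0, 2, 3, 5, 4])]

def hhC30 : List (ℕ × ℕ) := [(1, 5), (3, 0), (3, 5), (4, 8), (5, 8), (4, 4), (5, 4)]

def aaC30 : List (List Ent) := [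
  [((0, 0), none), ((0, 1), none), ((0, 8), some ((0, 0), (0, 8))), ((0, 8), some ((0, 8),
    (0, 16)))],
  [((0, 0), none), ((0, -1), none)],
  [((0, 0), none), ((0, 8), some ((0, 0), (0, 16))), ((0, -8), some ((0, 8), (0, 8)))],
  [((0, 0), none)],
  [((0, 0), none)],
  [((0, 0), none)]]

def ggC30 : List (Lin × Lin) := [((0, 1), (0, 3)), ((0, 10), (0, 2))]

def ffC30_0 : List TP := [
  ⟨(0, 0), (0, 0), (0, 9), 0, some (0, 3)⟩, ⟨(0, 1), (0, 1), (0, 14), 1, some (1, 5)⟩, ⟨(0, 2),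
    (0, 2), (0, 24), 0, none⟩, ⟨(0, 3), (0, 3), (0, 9), 0, none⟩, ⟨(0, 4), (0, 4),
    (0, 14), 0, none⟩, ⟨(0, 5), (0, 5), (0, 22), 1, none⟩, ⟨(0, 6), (0, 6), (0, 23), 1, none⟩,
    ⟨(0, 7), (0, 7), (0, 0), 0, none⟩, ⟨(0, 8), (0, 8), (0, 9), 0, some (2, 6)⟩, ⟨(0, 9),
    (0, 10), (0, -7), 0, none⟩, ⟨(0, 11), (0, 11), (0, 14), 1, none⟩, ⟨(0, 12), (0, 12),
    (0, -7), 0, none⟩, ⟨(0, 13), (0, 13), (0, 0), 0, none⟩, ⟨(0, 14), (0, 14),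
    (0, 14), 1, some (4, 7)⟩, ⟨(0, 15), (0, 15), (0, 7), 1, none⟩, ⟨(0, 16), (0, 16),
    (0, -8), 0, some (3, 2)⟩, ⟨(0, 17), (0, 18), (0, -7), 0, none⟩, ⟨(0, 19), (0, 19),
    (0, 0), 1, none⟩, ⟨(0, 20), (0, 20), (0, -6), 1, none⟩, ⟨(0, 21), (0, 22),
    (0, -21), 0, none⟩, ⟨(0, 23), (0, 23), (0, 0), 1, none⟩, ⟨(0, 24), (0, 24),
    (0, -8), 1, none⟩, ⟨(0, 25), (0, 25), (0, -1), 1, none⟩, ⟨(0, 26), (0, 26),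
    (0, -22), 1, none⟩, ⟨(0, 27), (0, 27), (0, -21), 1, none⟩, ⟨(0, 28), (0, 28),
    (0, -8), 1, none⟩, ⟨(0, 29), (0, 29), (0, -8), 1, some (5, 6)⟩]

def ffC30_1 : List TP := [
  ⟨(0, 0), (0, 0), (0, 16), 0, some (0, 6)⟩, ⟨(0, 1), (0, 1), (0, 23), 0, some (1, 7)⟩, ⟨(0, 2),
    (0, 2), (0, 7), 0, none⟩, ⟨(0, 3), (0, 3), (0, 15), 0, none⟩, ⟨(0, 4), (0, 4),
    (0, 0), 0, none⟩, ⟨(0, 5), (0, 5), (0, 15), 0, none⟩, ⟨(0, 6), (0, 6), (0, 22), 1, none⟩,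
    ⟨(0, 7), (0, 7), (0, 8), 0, none⟩, ⟨(0, 8), (0, 8), (0, -6), 0, some (2, 1)⟩, ⟨(0, 9),
    (0, 9), (0, 8), 0, none⟩, ⟨(0, 10), (0, 10), (0, 15), 1, none⟩, ⟨(0, 11), (0, 11),
    (0, 8), 1, none⟩, ⟨(0, 12), (0, 12), (0, -1), 0, none⟩, ⟨(0, 13), (0, 13), (0, -6), 0, none⟩,
    ⟨(0, 14), (0, 14), (0, 9), 1, some (4, 7)⟩, ⟨(0, 15), (0, 15), (0, -1), 0, none⟩, ⟨(0, 16),
    (0, 16), (0, -16), 0, some (3, 0)⟩, ⟨(0, 17), (0, 17), (0, -16), 0, none⟩, ⟨(0, 18), (0, 19),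
    (0, 8), 1, none⟩, ⟨(0, 20), (0, 20), (0, 9), 1, none⟩, ⟨(0, 21), (0, 21), (0, -15), 0, none⟩,
    ⟨(0, 22), (0, 23), (0, -1), 1, none⟩, ⟨(0, 24), (0, 24), (0, -16), 1, none⟩, ⟨(0, 25),
    (0, 25), (0, -22), 0, none⟩, ⟨(0, 26), (0, 26), (0, -16), 1, none⟩, ⟨(0, 27), (0, 27),
    (0, -15), 1, none⟩, ⟨(0, 28), (0, 28), (0, -23), 1, none⟩, ⟨(0, 29), (0, 29),
    (0, -16), 1, some (5, 3)⟩]

def ffC30_2 : List TP := [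
  ⟨(0, 0), (0, 0), (0, 23), 0, some (0, 7)⟩, ⟨(0, 1), (0, 1), (0, -1), 0, some (1, 0)⟩, ⟨(0, 2),
    (0, 2), (0, -1), 0, none⟩, ⟨(0, 3), (0, 3), (0, 7), 0, none⟩, ⟨(0, 4), (0, 4),
    (0, 15), 0, none⟩, ⟨(0, 5), (0, 5), (0, 8), 0, none⟩, ⟨(0, 6), (0, 6), (0, -1), 0, none⟩,
    ⟨(0, 7), (0, 7), (0, 22), 1, none⟩, ⟨(0, 8), (0, 8), (0, -1), 0, some (2, 1)⟩, ⟨(0, 9),
    (0, 9), (0, 7), 0, none⟩, ⟨(0, 10), (0, 10), (0, -1), 0, none⟩, ⟨(0, 11), (0, 11),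
    (0, 15), 1, none⟩, ⟨(0, 12), (0, 13), (0, 8), 1, none⟩, ⟨(0, 14), (0, 14),
    (0, -6), 0, some (4, 2)⟩, ⟨(0, 15), (0, 15), (0, 9), 1, none⟩, ⟨(0, 16), (0, 16),
    (0, -1), 0, some (3, 5)⟩, ⟨(0, 17), (0, 17), (0, 8), 1, none⟩, ⟨(0, 18), (0, 18),
    (0, -16), 0, none⟩, ⟨(0, 19), (0, 19), (0, -7), 1, none⟩, ⟨(0, 20), (0, 20),
    (0, 7), 1, none⟩, ⟨(0, 21), (0, 21), (0, -7), 1, none⟩, ⟨(0, 22), (0, 22),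
    (0, -16), 0, none⟩, ⟨(0, 23), (0, 23), (0, -6), 1, none⟩, ⟨(0, 24), (0, 25),
    (0, -21), 0, none⟩, ⟨(0, 26), (0, 26), (0, -8), 1, none⟩, ⟨(0, 27), (0, 27),
    (0, -16), 1, none⟩, ⟨(0, 28), (0, 28), (0, 0), 1, none⟩, ⟨(0, 29), (0, 29),
    (0, -7), 1, some (5, 7)⟩]

def ffC30_3 : List TP := [
  ⟨(0, 0), (0, 0), (0, 7), 0, some (0, 1)⟩, ⟨(0, 1), (0, 1), (0, 8), 0, some (1, 3)⟩, ⟨(0, 2),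
    (0, 3), (0, 22), 0, none⟩, ⟨(0, 4), (0, 4), (0, 22), 1, none⟩, ⟨(0, 5), (0, 5),
    (0, -1), 0, none⟩, ⟨(0, 6), (0, 6), (0, -6), 0, none⟩, ⟨(0, 7), (0, 7), (0, 7), 0, none⟩,
    ⟨(0, 8), (0, 8), (0, 7), 0, some (2, 5)⟩, ⟨(0, 9), (0, 9), (0, 9), 0, none⟩, ⟨(0, 10),
    (0, 10), (0, -8), 0, none⟩, ⟨(0, 11), (0, 12), (0, 0), 0, none⟩, ⟨(0, 13), (0, 13),
    (0, -8), 0, none⟩, ⟨(0, 14), (0, 14), (0, -8), 0, some (4, 1)⟩, ⟨(0, 15), (0, 15),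
    (0, 8), 1, none⟩, ⟨(0, 16), (0, 16), (0, 0), 1, some (3, 6)⟩, ⟨(0, 17), (0, 17),
    (0, 0), 1, none⟩, ⟨(0, 18), (0, 19), (0, 9), 1, none⟩, ⟨(0, 20), (0, 20), (0, -7), 1, none⟩,
    ⟨(0, 21), (0, 21), (0, -1), 1, none⟩, ⟨(0, 22), (0, 22), (0, 0), 1, none⟩, ⟨(0, 23), (0, 23),
    (0, -15), 1, none⟩, ⟨(0, 24), (0, 24), (0, -23), 0, none⟩, ⟨(0, 25), (0, 25),
    (0, -15), 1, none⟩, ⟨(0, 26), (0, 26), (0, -23), 0, none⟩, ⟨(0, 27), (0, 27),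
    (0, -8), 1, none⟩, ⟨(0, 28), (0, 28), (0, -7), 1, none⟩, ⟨(0, 29), (0, 29),
    (0, 0), 1, some (5, 8)⟩]

def ffC30_4 : List TP := [
  ⟨(0, 0), (0, 0), (0, 15), 0, some (0, 5)⟩, ⟨(0, 1), (0, 1), (0, 9), 0, some (1, 3)⟩, ⟨(0, 2),
    (0, 2), (0, 9), 0, none⟩, ⟨(0, 3), (0, 3), (0, 23), 0, none⟩, ⟨(0, 4), (0, 4),
    (0, -1), 0, none⟩, ⟨(0, 5), (0, 5), (0, 24), 1, none⟩, ⟨(0, 6), (0, 6), (0, 0), 0, none⟩,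
    ⟨(0, 7), (0, 7), (0, -6), 0, none⟩, ⟨(0, 8), (0, 8), (0, 15), 1, some (2, 7)⟩, ⟨(0, 9),
    (0, 9), (0, 0), 0, none⟩, ⟨(0, 10), (0, 10), (0, 7), 0, none⟩, ⟨(0, 11), (0, 11),
    (0, -6), 0, none⟩, ⟨(0, 12), (0, 12), (0, 15), 1, none⟩, ⟨(0, 13), (0, 13),
    (0, -1), 0, none⟩, ⟨(0, 14), (0, 14), (0, 7), 1, some (4, 6)⟩, ⟨(0, 15), (0, 15),
    (0, -7), 0, none⟩, ⟨(0, 16), (0, 16), (0, 8), 1, some (3, 7)⟩, ⟨(0, 17), (0, 17),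
    (0, -1), 1, none⟩, ⟨(0, 18), (0, 18), (0, 0), 1, none⟩, ⟨(0, 19), (0, 19), (0, -6), 1, none⟩,
    ⟨(0, 20), (0, 20), (0, -16), 0, none⟩, ⟨(0, 21), (0, 21), (0, 7), 1, none⟩, ⟨(0, 22),
    (0, 22), (0, -22), 0, none⟩, ⟨(0, 23), (0, 23), (0, -16), 1, none⟩, ⟨(0, 24), (0, 24),
    (0, -22), 0, none⟩, ⟨(0, 25), (0, 25), (0, -6), 1, none⟩, ⟨(0, 26), (0, 26),
    (0, -1), 1, none⟩, ⟨(0, 27), (0, 27), (0, -7), 1, none⟩, ⟨(0, 28), (0, 28),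
    (0, -6), 1, none⟩, ⟨(0, 29), (0, 29), (0, -15), 0, some (5, 4)⟩]

def ffC30_5 : List TP := [
  ⟨(0, 0), (0, 0), (0, 14), 0, some (0, 4)⟩, ⟨(0, 1), (0, 1), (0, 0), 0, some (1, 1)⟩, ⟨(0, 2),
    (0, 2), (0, 8), 0, none⟩, ⟨(0, 3), (0, 3), (0, -1), 0, none⟩, ⟨(0, 4), (0, 4),
    (0, 23), 1, none⟩, ⟨(0, 5), (0, 5), (0, 14), 0, none⟩, ⟨(0, 6), (0, 6), (0, 7), 0, none⟩,
    ⟨(0, 7), (0, 7), (0, -1), 0, none⟩, ⟨(0, 8), (0, 8), (0, 14), 1, some (2, 7)⟩, ⟨(0, 9),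
    (0, 9), (0, -1), 0, none⟩, ⟨(0, 10), (0, 10), (0, 14), 1, none⟩, ⟨(0, 11), (0, 11),
    (0, 7), 0, none⟩, ⟨(0, 12), (0, 12), (0, -8), 0, none⟩, ⟨(0, 13), (0, 13), (0, 7), 1, none⟩,
    ⟨(0, 14), (0, 14), (0, 15), 1, some (4, 8)⟩, ⟨(0, 15), (0, 15), (0, -8), 0, none⟩, ⟨(0, 16),
    (0, 16), (0, 7), 1, some (3, 7)⟩, ⟨(0, 17), (0, 17), (0, -8), 0, none⟩, ⟨(0, 18), (0, 18),
    (0, -15), 0, none⟩, ⟨(0, 19), (0, 19), (0, 7), 1, none⟩, ⟨(0, 20), (0, 20),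
    (0, -15), 0, none⟩, ⟨(0, 21), (0, 22), (0, -6), 1, none⟩, ⟨(0, 23), (0, 23),
    (0, -23), 0, none⟩, ⟨(0, 24), (0, 24), (0, -7), 1, none⟩, ⟨(0, 25), (0, 25),
    (0, 0), 1, none⟩, ⟨(0, 26), (0, 26), (0, -15), 1, none⟩, ⟨(0, 27), (0, 27),
    (0, -6), 1, none⟩, ⟨(0, 28), (0, 28), (0, -16), 1, none⟩, ⟨(0, 29), (0, 29),
    (0, -1), 1, some (5, 7)⟩]

def ffC30_6 : List TP := [
  ⟨(0, 0), (0, 0), (0, 24), 0, some (0, 7)⟩, ⟨(0, 1), (0, 1), (0, 21), 0, some (1, 7)⟩, ⟨(0, 2),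
    (0, 2), (0, 23), 0, none⟩, ⟨(0, 3), (0, 3), (0, 0), 0, none⟩, ⟨(0, 4), (0, 4),
    (0, 8), 0, none⟩, ⟨(0, 5), (0, 5), (0, 23), 1, none⟩, ⟨(0, 6), (0, 7), (0, 14), 0, none⟩,
    ⟨(0, 8), (0, 8), (0, 8), 0, some (2, 6)⟩, ⟨(0, 9), (0, 9), (0, 14), 1, none⟩, ⟨(0, 10),
    (0, 10), (0, -6), 0, none⟩, ⟨(0, 11), (0, 11), (0, -1), 0, none⟩, ⟨(0, 12), (0, 12),
    (0, -6), 0, none⟩, ⟨(0, 13), (0, 13), (0, 14), 1, none⟩, ⟨(0, 14), (0, 14),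
    (0, 0), 1, some (4, 4)⟩, ⟨(0, 15), (0, 15), (0, -15), 0, none⟩, ⟨(0, 16), (0, 16),
    (0, -15), 0, some (3, 1)⟩, ⟨(0, 17), (0, 17), (0, -15), 0, none⟩, ⟨(0, 18), (0, 18),
    (0, -1), 1, none⟩, ⟨(0, 19), (0, 19), (0, -8), 1, none⟩, ⟨(0, 20), (0, 20),
    (0, -1), 1, none⟩, ⟨(0, 21), (0, 21), (0, 8), 1, none⟩, ⟨(0, 22), (0, 22),
    (0, -15), 0, none⟩, ⟨(0, 23), (0, 23), (0, -8), 1, none⟩, ⟨(0, 24), (0, 24),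
    (0, -6), 1, none⟩, ⟨(0, 25), (0, 25), (0, -16), 1, none⟩, ⟨(0, 26), (0, 26),
    (0, -21), 1, none⟩, ⟨(0, 27), (0, 27), (0, -1), 1, none⟩, ⟨(0, 28), (0, 28),
    (0, -15), 1, none⟩, ⟨(0, 29), (0, 29), (0, -21), 1, some (5, 2)⟩]

def ffC30 : List (List TP) := [ffC30_0, ffC30_1, ffC30_2, ffC30_3, ffC30_4, ffC30_5, ffC30_6]

theorem attainsC30 {s n h j : ℕ} (hn : (n : ℤ) = 0 * s + 30) (hh : (h : ℤ) = 0 * s + 15)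
    (hj : (j : ℤ) ≤ 0 * s + 5) : Attains n (4 * j + 7) :=
  attains_of_chk (d := sqC30) (H := hhC30) (A := aaC30) (G := ggC30) (F := ffC30)
    (by decide +kernel) (by decide +kernel) (by decide +kernel) (by decide +kernel)
    (by decide +kernel) (by decide +kernel) (by decide +kernel) (by decide +kernel)
    (by decide +kernel) hn hh (le_trans hj (le_of_eq (by rfl)))

end Pool.Agent.Hhelper79.PL
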