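import Mathlib
import Pool.Agent.Hhelper79.PL.Final

set_option autoImplicit false

/-!
Piecewise data for `n = 4 b - 2` (generated by a SAT search).
-/

namespace Pool.Agent.Hhelper79.PL

open Pool.Agent.Hhelper79.LT

/-- data `R1e0` (0 extra intercalates) -/
def sqR1e0 : Sq where
  N := (8, 30)
  Hf := (4, 15)
  R := [(0, 0), (0, 1), (2, 8)]
  C := [
    (((0, 0), (2, 6)), [0, 1, 2]), (((2, 7), (2, 7)), [2, 1, 0]), (((2, 8), (4, 14)), [0, 1, 2]),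
      (((4, 15), (4, 15)), [2, 1, 0]), (((4, 16), (6, 21)), [0, 1, 2]), (((6, 22),
      (6, 22)), [0, 2, 1]), (((6, 23), (8, 28)), [1, 0, 2]), (((8, 29), (8, 29)), [2, 0, 1])]

def hhR1e0 : List (ℕ × ℕ) := [(1, 5)]

def aaR1e0 : List (List Ent) := [
  [((0, 0), none), ((0, 1), none), ((2, 8), some ((2, 7), (4, 15))), ((2, 8), some ((4, 15),
    (6, 23))), ((2, 8), some ((8, 29), (10, 37)))],
  [((0, 0), none), ((0, -1), none)],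
  [((0, 0), none), ((-2, -8), some ((2, 7), (2, 7))), ((-2, -8), some ((4, 15), (4, 15))),
    ((-2, -7), some ((6, 22), (6, 23))), ((-2, -7), some ((8, 29), (8, 30)))]]

def ggR1e0 : List (Lin × Lin) := [((0, 1), (1, 2)), ((2, 8), (1, 2))]

def ffR1e0_0 : List TP := [
  ⟨(0, 0), (0, 0), (8, 29), 1, some (0, 7)⟩, ⟨(0, 1), (0, 1), (6, 21), 1, some (1, 5)⟩, ⟨(0, 2),
    (1, 3), (0, -1), 0, none⟩, ⟨(1, 4), (1, 4), (0, 0), 0, none⟩, ⟨(1, 5), (1, 5),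
    (6, 21), 1, none⟩, ⟨(1, 6), (2, 7), (0, -1), 0, none⟩, ⟨(2, 8), (2, 8),
    (2, 6), 0, some (2, 2)⟩, ⟨(2, 9), (3, 11), (0, -1), 0, none⟩, ⟨(3, 12), (3, 12),
    (-2, -9), 0, none⟩, ⟨(3, 13), (4, 15), (0, -2), 0, none⟩, ⟨(4, 16), (5, 18),
    (0, 0), 1, none⟩, ⟨(5, 19), (5, 19), (2, 6), 1, none⟩, ⟨(5, 20), (6, 21), (0, 0), 1, none⟩,
    ⟨(6, 22), (6, 22), (-4, -15), 0, none⟩, ⟨(6, 23), (6, 23), (-6, -23), 0, none⟩, ⟨(6, 24),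
    (6, 24), (-2, -9), 1, none⟩, ⟨(6, 25), (7, 26), (0, -2), 1, none⟩, ⟨(7, 27), (7, 27),
    (-2, -8), 1, none⟩, ⟨(7, 28), (8, 29), (0, -1), 1, none⟩]

def ffR1e0 : List (List TP) := [ffR1e0_0]

theorem attainsR1e0 {s n h j : ℕ} (hn : (n : ℤ) = 8 * s + 30) (hh : (h : ℤ) = 4 * s + 15)
    (hj : (j : ℤ) ≤ 2 * s + 4) : Attains n (4 * j + 1) :=
  attains_of_chk (d := sqR1e0) (H := hhR1e0) (A := aaR1e0) (G := ggR1e0) (F := ffR1e0)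
    (by decide +kernel) (by decide +kernel) (by decide +kernel) (by decide +kernel)
    (by decide +kernel) (by decide +kernel) (by decide +kernel) (by decide +kernel)
    (by decide +kernel) hn hh (le_trans hj (le_of_eq (by rfl)))

/-- data `R1e1` (1 extra intercalates) -/
def sqR1e1 : Sq where
  N := (8, 30)
  Hf := (4, 15)
  R := [(0, 0), (0, 1), (2, 8), (4, 14), (8, 29)]
  C := [
    (((0, 0), (0, 0)), [0, 1, 2, 3, 4]), (((0, 1), (2, 4)), [0, 1, 2, 3, 4]), (((2, 5),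
      (2, 5)), [0, 1, 2, 4, 3]), (((2, 6), (2, 6)), [0, 1, 2, 3, 4]), (((2, 7),
      (2, 7)), [2, 1, 0, 3, 4]), (((2, 8), (4, 14)), [0, 1, 2, 3, 4]), (((4, 15),
      (4, 15)), [2, 1, 0, 3, 4]), (((4, 16), (6, 19)), [0, 1, 2, 3, 4]), (((6, 20),
      (6, 20)), [0, 1, 2, 4, 3]), (((6, 21), (6, 21)), [0, 1, 2, 3, 4]), (((6, 22),
      (6, 22)), [0, 2, 1, 3, 4]), (((6, 23), (8, 28)), [1, 0, 2, 3, 4]), (((8, 29),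
      (8, 29)), [2, 0, 1, 3, 4])]

def hhR1e1 : List (ℕ × ℕ) := [(1, 10), (3, 2), (4, 2), (3, 8), (4, 8)]

def aaR1e1 : List (List Ent) := [
  [((0, 0), none), ((0, 1), none), ((2, 8), some ((2, 7), (4, 15))), ((2, 8), some ((4, 15),
    (6, 23))), ((2, 8), some ((8, 29), (10, 37)))],
  [((0, 0), none), ((0, -1), none)],
  [((0, 0), none), ((-2, -8), some ((2, 7), (2, 7))), ((-2, -8), some ((4, 15), (4, 15))),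
    ((-2, -7), some ((6, 22), (6, 23))), ((-2, -7), some ((8, 29), (8, 30)))],
  [((0, 0), none)],
  [((0, 0), none)]]

def ggR1e1 : List (Lin × Lin) := [((0, 1), (1, 2)), ((2, 8), (1, 2))]

def ffR1e1_0 : List TP := [
  ⟨(0, 0), (0, 0), (8, 29), 1, some (0, 12)⟩, ⟨(0, 1), (0, 1), (6, 21), 1, some (1, 10)⟩,
    ⟨(0, 2), (1, 3), (0, -1), 0, none⟩, ⟨(1, 4), (1, 4), (0, 0), 0, none⟩, ⟨(1, 5), (1, 5),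
    (6, 21), 1, none⟩, ⟨(1, 6), (2, 7), (0, -1), 0, none⟩, ⟨(2, 8), (2, 8),
    (2, 6), 0, some (2, 5)⟩, ⟨(2, 9), (3, 11), (0, -1), 0, none⟩, ⟨(3, 12), (3, 12),
    (-2, -9), 0, none⟩, ⟨(3, 13), (4, 13), (0, -2), 0, none⟩, ⟨(4, 14), (4, 14),
    (0, -2), 0, some (3, 5)⟩, ⟨(4, 15), (4, 15), (0, -2), 0, none⟩, ⟨(4, 16), (5, 18),
    (0, 0), 1, none⟩, ⟨(5, 19), (5, 19), (2, 6), 1, none⟩, ⟨(5, 20), (6, 21), (0, 0), 1, none⟩,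
    ⟨(6, 22), (6, 22), (-4, -15), 0, none⟩, ⟨(6, 23), (6, 23), (-6, -23), 0, none⟩, ⟨(6, 24),
    (6, 24), (-2, -9), 1, none⟩, ⟨(6, 25), (7, 26), (0, -2), 1, none⟩, ⟨(7, 27), (7, 27),
    (-2, -8), 1, none⟩, ⟨(7, 28), (8, 28), (0, -1), 1, none⟩, ⟨(8, 29), (8, 29),
    (0, -1), 1, some (4, 11)⟩]

def ffR1e1_1 : List TP := [
  ⟨(0, 0), (0, 0), (6, 20), 0, some (0, 8)⟩, ⟨(0, 1), (0, 1), (0, -1), 0, some (1, 0)⟩, ⟨(0, 2),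
    (1, 3), (4, 12), 0, none⟩, ⟨(1, 4), (1, 4), (4, 14), 0, none⟩, ⟨(1, 5), (1, 5),
    (2, 5), 0, none⟩, ⟨(1, 6), (2, 6), (6, 20), 1, none⟩, ⟨(2, 7), (2, 7), (6, 22), 1, none⟩,
    ⟨(2, 8), (2, 8), (2, 5), 0, some (2, 5)⟩, ⟨(2, 9), (2, 9), (4, 12), 1, none⟩, ⟨(2, 10),
    (3, 12), (4, 13), 1, none⟩, ⟨(3, 13), (4, 13), (-2, -9), 0, none⟩, ⟨(4, 14), (4, 14),
    (4, 13), 1, some (3, 11)⟩, ⟨(4, 15), (4, 15), (4, 13), 1, none⟩, ⟨(4, 16), (4, 16),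
    (2, 6), 1, none⟩, ⟨(4, 17), (5, 19), (-2, -10), 0, none⟩, ⟨(5, 20), (5, 20),
    (-4, -17), 0, none⟩, ⟨(5, 21), (6, 21), (0, -2), 1, none⟩, ⟨(6, 22), (6, 22),
    (-2, -10), 1, none⟩, ⟨(6, 23), (6, 23), (-4, -17), 0, none⟩, ⟨(6, 24), (7, 25),
    (-6, -23), 0, none⟩, ⟨(7, 26), (7, 27), (-2, -10), 1, none⟩, ⟨(7, 28), (8, 28),
    (-4, -17), 1, none⟩, ⟨(8, 29), (8, 29), (-6, -24), 0, some (4, 2)⟩]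

def ffR1e1_2 : List TP := [
  ⟨(0, 0), (0, 0), (6, 22), 0, some (0, 10)⟩, ⟨(0, 1), (0, 1), (2, 5), 0, some (1, 3)⟩, ⟨(0, 2),
    (1, 3), (6, 21), 0, none⟩, ⟨(1, 4), (1, 4), (4, 12), 0, none⟩, ⟨(1, 5), (2, 6),
    (2, 6), 0, none⟩, ⟨(2, 7), (2, 7), (6, 21), 1, none⟩, ⟨(2, 8), (2, 8),
    (0, -3), 0, some (2, 2)⟩, ⟨(2, 9), (3, 10), (-2, -9), 0, none⟩, ⟨(3, 11), (3, 12),
    (0, -3), 0, none⟩, ⟨(3, 13), (4, 13), (4, 12), 1, none⟩, ⟨(4, 14), (4, 14),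
    (4, 12), 1, some (3, 11)⟩, ⟨(4, 15), (4, 15), (4, 12), 1, none⟩, ⟨(4, 16), (4, 16),
    (0, -3), 0, none⟩, ⟨(4, 17), (5, 18), (0, -3), 1, none⟩, ⟨(5, 19), (5, 19),
    (0, -2), 1, none⟩, ⟨(5, 20), (5, 20), (-2, -10), 1, none⟩, ⟨(5, 21), (6, 22),
    (-4, -18), 0, none⟩, ⟨(6, 23), (6, 23), (0, -2), 1, none⟩, ⟨(6, 24), (6, 24),
    (2, 5), 1, none⟩, ⟨(6, 25), (7, 25), (-4, -18), 1, none⟩, ⟨(7, 26), (7, 26),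
    (-6, -24), 0, none⟩, ⟨(7, 27), (8, 28), (-2, -9), 1, none⟩, ⟨(8, 29), (8, 29),
    (-2, -9), 1, some (4, 8)⟩]

def ffR1e1_3 : List TP := [
  ⟨(0, 0), (0, 0), (2, 6), 0, some (0, 3)⟩, ⟨(0, 1), (0, 1), (4, 15), 0, some (1, 7)⟩, ⟨(0, 2),
    (1, 3), (4, 15), 0, none⟩, ⟨(1, 4), (1, 4), (0, -3), 0, none⟩, ⟨(1, 5), (2, 7),
    (4, 14), 0, none⟩, ⟨(2, 8), (2, 8), (4, 15), 1, some (2, 11)⟩, ⟨(2, 9), (2, 9),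
    (2, 5), 0, none⟩, ⟨(2, 10), (3, 10), (-2, -10), 0, none⟩, ⟨(3, 11), (3, 11),
    (-2, -9), 0, none⟩, ⟨(3, 12), (4, 13), (4, 15), 1, none⟩, ⟨(4, 14), (4, 14),
    (-2, -9), 1, some (3, 2)⟩, ⟨(4, 15), (4, 15), (-2, -8), 0, none⟩, ⟨(4, 16), (4, 16),
    (4, 13), 1, none⟩, ⟨(4, 17), (5, 19), (-2, -9), 0, none⟩, ⟨(5, 20), (5, 20),
    (2, 6), 1, none⟩, ⟨(5, 21), (6, 21), (-2, -9), 1, none⟩, ⟨(6, 22), (6, 22), (0, 0), 1, none⟩,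
    ⟨(6, 23), (6, 23), (-2, -8), 1, none⟩, ⟨(6, 24), (7, 25), (0, 0), 1, none⟩, ⟨(7, 26),
    (7, 26), (-4, -15), 1, none⟩, ⟨(7, 27), (8, 28), (-6, -24), 1, none⟩, ⟨(8, 29), (8, 29),
    (-4, -16), 1, some (4, 5)⟩]

def ffR1e1_4 : List TP := [
  ⟨(0, 0), (0, 0), (4, 15), 0, some (0, 6)⟩, ⟨(0, 1), (0, 1), (8, 26), 0, some (1, 11)⟩, ⟨(0, 2),
    (1, 3), (2, 6), 0, none⟩, ⟨(1, 4), (1, 4), (6, 20), 0, none⟩, ⟨(1, 5), (1, 5),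
    (0, -3), 0, none⟩, ⟨(1, 6), (2, 6), (2, 5), 0, none⟩, ⟨(2, 7), (2, 7), (4, 12), 0, none⟩,
    ⟨(2, 8), (2, 8), (6, 21), 1, some (2, 12)⟩, ⟨(2, 9), (2, 9), (0, -2), 0, none⟩, ⟨(2, 10),
    (3, 11), (4, 12), 1, none⟩, ⟨(3, 12), (3, 12), (0, -2), 0, none⟩, ⟨(3, 13), (4, 13),
    (-2, -8), 0, none⟩, ⟨(4, 14), (4, 14), (2, 6), 1, some (3, 8)⟩, ⟨(4, 15), (4, 15),
    (-2, -9), 0, none⟩, ⟨(4, 16), (4, 16), (4, 12), 1, none⟩, ⟨(4, 17), (5, 18),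
    (0, -1), 1, none⟩, ⟨(5, 19), (5, 19), (-4, -18), 0, none⟩, ⟨(5, 20), (5, 20),
    (2, 5), 1, none⟩, ⟨(5, 21), (6, 21), (0, -3), 1, none⟩, ⟨(6, 22), (6, 22), (0, -1), 1, none⟩,
    ⟨(6, 23), (6, 24), (-2, -10), 1, none⟩, ⟨(6, 25), (7, 25), (-6, -25), 0, none⟩, ⟨(7, 26),
    (7, 26), (-6, -23), 0, none⟩, ⟨(7, 27), (7, 27), (-6, -23), 1, none⟩, ⟨(7, 28), (8, 28),
    (0, -2), 1, none⟩, ⟨(8, 29), (8, 29), (-4, -17), 1, some (4, 5)⟩]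

def ffR1e1 : List (List TP) := [ffR1e1_0, ffR1e1_1, ffR1e1_2, ffR1e1_3, ffR1e1_4]

theorem attainsR1e1 {s n h j : ℕ} (hn : (n : ℤ) = 8 * s + 30) (hh : (h : ℤ) = 4 * s + 15)
    (hj : (j : ℤ) ≤ 2 * s + 4) : Attains n (4 * j + 5) :=
  attains_of_chk (d := sqR1e1) (H := hhR1e1) (A := aaR1e1) (G := ggR1e1) (F := ffR1e1)
    (by decide +kernel) (by decide +kernel) (by decide +kernel) (by decide +kernel)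
    (by decide +kernel) (by decide +kernel) (by decide +kernel) (by decide +kernel)
    (by decide +kernel) hn hh (le_trans hj (le_of_eq (by rfl)))

/-- data `R1e2` (2 extra intercalates) -/
def sqR1e2 : Sq where
  N := (8, 30)
  Hf := (4, 15)
  R := [(0, 0), (0, 1), (2, 8), (4, 14), (8, 29)]
  C := [
    (((0, 0), (0, 0)), [0, 1, 2, 3, 4]), (((0, 1), (2, 4)), [0, 1, 2, 3, 4]), (((2, 5),
      (2, 5)), [0, 1, 2, 4, 3]), (((2, 6), (2, 6)), [0, 1, 2, 4, 3]), (((2, 7),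
      (2, 7)), [2, 1, 0, 3, 4]), (((2, 8), (4, 14)), [0, 1, 2, 3, 4]), (((4, 15),
      (4, 15)), [2, 1, 0, 3, 4]), (((4, 16), (6, 19)), [0, 1, 2, 3, 4]), (((6, 20),
      (6, 20)), [0, 1, 2, 4, 3]), (((6, 21), (6, 21)), [0, 1, 2, 4, 3]), (((6, 22),
      (6, 22)), [0, 2, 1, 3, 4]), (((6, 23), (8, 28)), [1, 0, 2, 3, 4]), (((8, 29),
      (8, 29)), [2, 0, 1, 3, 4])]

def hhR1e2 : List (ℕ × ℕ) := [(1, 10), (3, 2), (4, 2), (3, 8), (4, 8), (3, 3), (4, 3), (3, 9), (4, 9)]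

def aaR1e2 : List (List Ent) := [
  [((0, 0), none), ((0, 1), none), ((2, 8), some ((2, 7), (4, 15))), ((2, 8), some ((4, 15),
    (6, 23))), ((2, 8), some ((8, 29), (10, 37)))],
  [((0, 0), none), ((0, -1), none)],
  [((0, 0), none), ((-2, -8), some ((2, 7), (2, 7))), ((-2, -8), some ((4, 15), (4, 15))),
    ((-2, -7), some ((6, 22), (6, 23))), ((-2, -7), some ((8, 29), (8, 30)))],
  [((0, 0), none)],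
  [((0, 0), none)]]

def ggR1e2 : List (Lin × Lin) := [((0, 1), (1, 2)), ((2, 8), (1, 2))]

def ffR1e2_0 : List TP := [
  ⟨(0, 0), (0, 0), (8, 29), 1, some (0, 12)⟩, ⟨(0, 1), (0, 1), (6, 21), 1, some (1, 10)⟩,
    ⟨(0, 2), (1, 3), (0, -1), 0, none⟩, ⟨(1, 4), (1, 4), (0, 0), 0, none⟩, ⟨(1, 5), (1, 5),
    (6, 21), 1, none⟩, ⟨(1, 6), (2, 7), (0, -1), 0, none⟩, ⟨(2, 8), (2, 8),
    (2, 6), 0, some (2, 5)⟩, ⟨(2, 9), (3, 11), (0, -1), 0, none⟩, ⟨(3, 12), (3, 12),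
    (-2, -9), 0, none⟩, ⟨(3, 13), (4, 13), (0, -2), 0, none⟩, ⟨(4, 14), (4, 14),
    (0, -2), 0, some (3, 5)⟩, ⟨(4, 15), (4, 15), (0, -2), 0, none⟩, ⟨(4, 16), (5, 18),
    (0, 0), 1, none⟩, ⟨(5, 19), (5, 19), (2, 6), 1, none⟩, ⟨(5, 20), (6, 21), (0, 0), 1, none⟩,
    ⟨(6, 22), (6, 22), (-4, -15), 0, none⟩, ⟨(6, 23), (6, 23), (-6, -23), 0, none⟩, ⟨(6, 24),
    (6, 24), (-2, -9), 1, none⟩, ⟨(6, 25), (7, 26), (0, -2), 1, none⟩, ⟨(7, 27), (7, 27),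
    (-2, -8), 1, none⟩, ⟨(7, 28), (8, 28), (0, -1), 1, none⟩, ⟨(8, 29), (8, 29),
    (0, -1), 1, some (4, 11)⟩]

def ffR1e2_1 : List TP := [
  ⟨(0, 0), (0, 0), (6, 20), 0, some (0, 8)⟩, ⟨(0, 1), (0, 1), (0, -1), 0, some (1, 0)⟩, ⟨(0, 2),
    (1, 3), (4, 12), 0, none⟩, ⟨(1, 4), (1, 4), (4, 14), 0, none⟩, ⟨(1, 5), (1, 5),
    (2, 5), 0, none⟩, ⟨(1, 6), (2, 6), (6, 20), 1, none⟩, ⟨(2, 7), (2, 7), (6, 22), 1, none⟩,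
    ⟨(2, 8), (2, 8), (2, 5), 0, some (2, 5)⟩, ⟨(2, 9), (2, 9), (4, 12), 1, none⟩, ⟨(2, 10),
    (3, 12), (4, 13), 1, none⟩, ⟨(3, 13), (4, 13), (-2, -9), 0, none⟩, ⟨(4, 14), (4, 14),
    (4, 13), 1, some (3, 11)⟩, ⟨(4, 15), (4, 15), (4, 13), 1, none⟩, ⟨(4, 16), (4, 16),
    (2, 6), 1, none⟩, ⟨(4, 17), (5, 19), (-2, -10), 0, none⟩, ⟨(5, 20), (5, 20),
    (-4, -17), 0, none⟩, ⟨(5, 21), (6, 21), (0, -2), 1, none⟩, ⟨(6, 22), (6, 22),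
    (-2, -10), 1, none⟩, ⟨(6, 23), (6, 23), (-4, -17), 0, none⟩, ⟨(6, 24), (7, 25),
    (-6, -23), 0, none⟩, ⟨(7, 26), (7, 27), (-2, -10), 1, none⟩, ⟨(7, 28), (8, 28),
    (-4, -17), 1, none⟩, ⟨(8, 29), (8, 29), (-6, -24), 0, some (4, 2)⟩]

def ffR1e2_2 : List TP := [
  ⟨(0, 0), (0, 0), (6, 22), 0, some (0, 10)⟩, ⟨(0, 1), (0, 1), (2, 5), 0, some (1, 3)⟩, ⟨(0, 2),
    (1, 3), (6, 21), 0, none⟩, ⟨(1, 4), (1, 4), (4, 12), 0, none⟩, ⟨(1, 5), (2, 6),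
    (2, 6), 0, none⟩, ⟨(2, 7), (2, 7), (6, 21), 1, none⟩, ⟨(2, 8), (2, 8),
    (0, -3), 0, some (2, 2)⟩, ⟨(2, 9), (3, 10), (-2, -9), 0, none⟩, ⟨(3, 11), (3, 12),
    (0, -3), 0, none⟩, ⟨(3, 13), (4, 13), (4, 12), 1, none⟩, ⟨(4, 14), (4, 14),
    (4, 12), 1, some (3, 11)⟩, ⟨(4, 15), (4, 15), (4, 12), 1, none⟩, ⟨(4, 16), (4, 16),
    (0, -3), 0, none⟩, ⟨(4, 17), (5, 18), (0, -3), 1, none⟩, ⟨(5, 19), (5, 19),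
    (0, -2), 1, none⟩, ⟨(5, 20), (5, 20), (-2, -10), 1, none⟩, ⟨(5, 21), (6, 22),
    (-4, -18), 0, none⟩, ⟨(6, 23), (6, 23), (0, -2), 1, none⟩, ⟨(6, 24), (6, 24),
    (2, 5), 1, none⟩, ⟨(6, 25), (7, 25), (-4, -18), 1, none⟩, ⟨(7, 26), (7, 26),
    (-6, -24), 0, none⟩, ⟨(7, 27), (8, 28), (-2, -9), 1, none⟩, ⟨(8, 29), (8, 29),
    (-2, -9), 1, some (4, 8)⟩]

def ffR1e2_3 : List TP := [
  ⟨(0, 0), (0, 0), (2, 6), 0, some (0, 3)⟩, ⟨(0, 1), (0, 1), (4, 15), 0, some (1, 7)⟩, ⟨(0, 2),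
    (1, 3), (4, 15), 0, none⟩, ⟨(1, 4), (1, 4), (0, -3), 0, none⟩, ⟨(1, 5), (2, 7),
    (4, 14), 0, none⟩, ⟨(2, 8), (2, 8), (4, 15), 1, some (2, 11)⟩, ⟨(2, 9), (2, 9),
    (2, 5), 0, none⟩, ⟨(2, 10), (3, 10), (-2, -10), 0, none⟩, ⟨(3, 11), (3, 11),
    (-2, -9), 0, none⟩, ⟨(3, 12), (4, 13), (4, 15), 1, none⟩, ⟨(4, 14), (4, 14),
    (-2, -9), 1, some (3, 2)⟩, ⟨(4, 15), (4, 15), (-2, -8), 0, none⟩, ⟨(4, 16), (4, 16),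
    (4, 13), 1, none⟩, ⟨(4, 17), (5, 19), (-2, -9), 0, none⟩, ⟨(5, 20), (5, 20),
    (2, 6), 1, none⟩, ⟨(5, 21), (6, 21), (-2, -9), 1, none⟩, ⟨(6, 22), (6, 22), (0, 0), 1, none⟩,
    ⟨(6, 23), (6, 23), (-2, -8), 1, none⟩, ⟨(6, 24), (7, 25), (0, 0), 1, none⟩, ⟨(7, 26),
    (7, 26), (-4, -15), 1, none⟩, ⟨(7, 27), (8, 28), (-6, -24), 1, none⟩, ⟨(8, 29), (8, 29),
    (-4, -16), 1, some (4, 5)⟩]

def ffR1e2_4 : List TP := [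
  ⟨(0, 0), (0, 0), (4, 15), 0, some (0, 6)⟩, ⟨(0, 1), (0, 1), (8, 26), 0, some (1, 11)⟩, ⟨(0, 2),
    (1, 3), (2, 6), 0, none⟩, ⟨(1, 4), (1, 4), (6, 20), 0, none⟩, ⟨(1, 5), (1, 5),
    (0, -3), 0, none⟩, ⟨(1, 6), (2, 6), (2, 5), 0, none⟩, ⟨(2, 7), (2, 7), (4, 12), 0, none⟩,
    ⟨(2, 8), (2, 8), (6, 21), 1, some (2, 12)⟩, ⟨(2, 9), (2, 9), (0, -2), 0, none⟩, ⟨(2, 10),
    (3, 11), (4, 12), 1, none⟩, ⟨(3, 12), (3, 12), (0, -2), 0, none⟩, ⟨(3, 13), (4, 13),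
    (-2, -8), 0, none⟩, ⟨(4, 14), (4, 14), (2, 6), 1, some (3, 8)⟩, ⟨(4, 15), (4, 15),
    (-2, -9), 0, none⟩, ⟨(4, 16), (4, 16), (4, 12), 1, none⟩, ⟨(4, 17), (5, 18),
    (0, -1), 1, none⟩, ⟨(5, 19), (5, 19), (-4, -18), 0, none⟩, ⟨(5, 20), (5, 20),
    (2, 5), 1, none⟩, ⟨(5, 21), (6, 21), (0, -3), 1, none⟩, ⟨(6, 22), (6, 22), (0, -1), 1, none⟩,
    ⟨(6, 23), (6, 24), (-2, -10), 1, none⟩, ⟨(6, 25), (7, 25), (-6, -25), 0, none⟩, ⟨(7, 26),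
    (7, 26), (-6, -23), 0, none⟩, ⟨(7, 27), (7, 27), (-6, -23), 1, none⟩, ⟨(7, 28), (8, 28),
    (0, -2), 1, none⟩, ⟨(8, 29), (8, 29), (-4, -17), 1, some (4, 5)⟩]

def ffR1e2_5 : List TP := [
  ⟨(0, 0), (0, 0), (6, 21), 0, some (0, 9)⟩, ⟨(0, 1), (0, 1), (2, 7), 0, some (1, 5)⟩, ⟨(0, 2),
    (1, 3), (2, 7), 0, none⟩, ⟨(1, 4), (1, 4), (0, -1), 0, none⟩, ⟨(1, 5), (1, 5),
    (6, 20), 1, none⟩, ⟨(1, 6), (2, 6), (4, 13), 0, none⟩, ⟨(2, 7), (2, 7), (0, 0), 0, none⟩,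
    ⟨(2, 8), (2, 8), (6, 20), 1, some (2, 11)⟩, ⟨(2, 9), (3, 10), (4, 14), 1, none⟩, ⟨(3, 11),
    (4, 13), (0, 0), 0, none⟩, ⟨(4, 14), (4, 14), (0, 0), 0, some (3, 5)⟩, ⟨(4, 15), (4, 15),
    (2, 5), 1, none⟩, ⟨(4, 16), (4, 16), (0, -1), 1, none⟩, ⟨(4, 17), (4, 17), (4, 12), 1, none⟩,
    ⟨(4, 18), (5, 18), (-4, -18), 0, none⟩, ⟨(5, 19), (5, 19), (-4, -15), 0, none⟩, ⟨(5, 20),
    (5, 20), (0, -2), 1, none⟩, ⟨(5, 21), (6, 22), (2, 5), 1, none⟩, ⟨(6, 23), (6, 23),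
    (0, -1), 1, none⟩, ⟨(6, 24), (7, 25), (-2, -8), 1, none⟩, ⟨(7, 26), (7, 27),
    (-6, -25), 0, none⟩, ⟨(7, 28), (8, 28), (-6, -23), 1, none⟩, ⟨(8, 29), (8, 29),
    (-6, -23), 0, some (4, 3)⟩]

def ffR1e2_6 : List TP := [
  ⟨(0, 0), (0, 0), (4, 14), 0, some (0, 5)⟩, ⟨(0, 1), (0, 1), (4, 14), 0, some (1, 6)⟩, ⟨(0, 2),
    (1, 3), (6, 20), 0, none⟩, ⟨(1, 4), (1, 4), (6, 21), 0, none⟩, ⟨(1, 5), (2, 7),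
    (0, -2), 0, none⟩, ⟨(2, 8), (2, 8), (4, 12), 0, some (2, 8)⟩, ⟨(2, 9), (3, 10),
    (2, 7), 0, none⟩, ⟨(3, 11), (3, 11), (4, 15), 1, none⟩, ⟨(3, 12), (3, 12), (0, -1), 0, none⟩,
    ⟨(3, 13), (4, 13), (2, 5), 1, none⟩, ⟨(4, 14), (4, 14), (2, 5), 1, some (3, 7)⟩, ⟨(4, 15),
    (4, 15), (-4, -15), 0, none⟩, ⟨(4, 16), (4, 16), (-2, -10), 0, none⟩, ⟨(4, 17), (5, 18),
    (-4, -16), 0, none⟩, ⟨(5, 19), (5, 19), (2, 5), 1, none⟩, ⟨(5, 20), (6, 22),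
    (2, 7), 1, none⟩, ⟨(6, 23), (7, 26), (-4, -16), 1, none⟩, ⟨(7, 27), (8, 28),
    (-4, -15), 1, none⟩, ⟨(8, 29), (8, 29), (-2, -8), 1, some (4, 9)⟩]

def ffR1e2_7 : List TP := [
  ⟨(0, 0), (0, 0), (4, 13), 0, some (0, 5)⟩, ⟨(0, 1), (0, 1), (6, 20), 0, some (1, 9)⟩, ⟨(0, 2),
    (1, 3), (4, 13), 0, none⟩, ⟨(1, 4), (1, 4), (0, -2), 0, none⟩, ⟨(1, 5), (2, 6),
    (6, 22), 1, none⟩, ⟨(2, 7), (2, 7), (4, 15), 0, none⟩, ⟨(2, 8), (2, 8),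
    (0, 0), 0, some (2, 5)⟩, ⟨(2, 9), (3, 10), (0, 0), 0, none⟩, ⟨(3, 11), (3, 11),
    (2, 6), 0, none⟩, ⟨(3, 12), (3, 12), (2, 6), 1, none⟩, ⟨(3, 13), (4, 13), (0, -1), 0, none⟩,
    ⟨(4, 14), (4, 14), (-2, -8), 1, some (3, 3)⟩, ⟨(4, 15), (4, 15), (4, 14), 1, none⟩, ⟨(4, 16),
    (4, 16), (-2, -9), 0, none⟩, ⟨(4, 17), (5, 18), (2, 6), 1, none⟩, ⟨(5, 19), (5, 19),
    (2, 7), 1, none⟩, ⟨(5, 20), (6, 21), (0, -1), 1, none⟩, ⟨(6, 22), (6, 22),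
    (-4, -17), 0, none⟩, ⟨(6, 23), (6, 23), (-2, -9), 1, none⟩, ⟨(6, 24), (7, 25),
    (-6, -24), 0, none⟩, ⟨(7, 26), (7, 26), (0, -1), 1, none⟩, ⟨(7, 27), (7, 27),
    (-4, -16), 1, none⟩, ⟨(7, 28), (8, 28), (-6, -25), 1, none⟩, ⟨(8, 29), (8, 29),
    (-6, -25), 1, some (4, 1)⟩]

def ffR1e2_8 : List TP := [
  ⟨(0, 0), (0, 0), (6, 23), 0, some (0, 11)⟩, ⟨(0, 1), (0, 1), (8, 27), 0, some (1, 11)⟩,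
    ⟨(0, 2), (1, 3), (0, 0), 0, none⟩, ⟨(1, 4), (1, 4), (2, 6), 0, none⟩, ⟨(1, 5), (1, 5),
    (0, -1), 0, none⟩, ⟨(1, 6), (2, 7), (2, 7), 0, none⟩, ⟨(2, 8), (2, 8),
    (-2, -8), 0, some (2, 0)⟩, ⟨(2, 9), (2, 9), (0, -3), 0, none⟩, ⟨(2, 10), (3, 12),
    (2, 5), 0, none⟩, ⟨(3, 13), (4, 13), (4, 14), 1, none⟩, ⟨(4, 14), (4, 14),
    (2, 7), 1, some (3, 9)⟩, ⟨(4, 15), (4, 15), (2, 7), 1, none⟩, ⟨(4, 16), (4, 16),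
    (-4, -15), 0, none⟩, ⟨(4, 17), (5, 18), (2, 7), 1, none⟩, ⟨(5, 19), (5, 20),
    (-2, -8), 1, none⟩, ⟨(5, 21), (6, 21), (-4, -16), 0, none⟩, ⟨(6, 22), (6, 22),
    (0, -2), 1, none⟩, ⟨(6, 23), (6, 23), (2, 6), 1, none⟩, ⟨(6, 24), (7, 26),
    (-4, -17), 1, none⟩, ⟨(7, 27), (7, 27), (0, -1), 1, none⟩, ⟨(7, 28), (8, 28),
    (-2, -10), 1, none⟩, ⟨(8, 29), (8, 29), (-2, -10), 1, some (4, 7)⟩]

def ffR1e2 : List (List TP) := [ffR1e2_0, ffR1e2_1, ffR1e2_2, ffR1e2_3, ffR1e2_4, ffR1e2_5, ffR1e2_6, ffR1e2_7, ffR1e2_8]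

theorem attainsR1e2 {s n h j : ℕ} (hn : (n : ℤ) = 8 * s + 30) (hh : (h : ℤ) = 4 * s + 15)
    (hj : (j : ℤ) ≤ 2 * s + 4) : Attains n (4 * j + 9) :=
  attains_of_chk (d := sqR1e2) (H := hhR1e2) (A := aaR1e2) (G := ggR1e2) (F := ffR1e2)
    (by decide +kernel) (by decide +kernel) (by decide +kernel) (by decide +kernel)
    (by decide +kernel) (by decide +kernel) (by decide +kernel) (by decide +kernel)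
    (by decide +kernel) hn hh (le_trans hj (le_of_eq (by rfl)))

end Pool.Agent.Hhelper79.PL
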