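import Mathlib
import Pool.Agent.Hhelper79.PL.Final

set_option autoImplicit false

/-!
Piecewise data for `n = 4 b - 2` (generated by a SAT search).
-/

namespace Pool.Agent.Hhelper79.PL

open Pool.Agent.Hhelper79.LT

/-- data `R2e0` (0 extra intercalates) -/
def sqR2e0 : Sq where
  N := (8, 30)
  Hf := (4, 15)
  R := [(0, 0), (0, 1), (2, 8)]
  C := [
    (((0, 0), (0, 0)), [2, 1, 0]), (((0, 1), (2, 6)), [0, 1, 2]), (((2, 7), (2, 7)), [0, 2, 1]),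
      (((2, 8), (4, 14)), [1, 0, 2]), (((4, 15), (4, 15)), [2, 1, 0]), (((4, 16),
      (6, 21)), [0, 1, 2]), (((6, 22), (6, 22)), [0, 2, 1]), (((6, 23), (8, 28)), [1, 0, 2]),
      (((8, 29), (8, 29)), [1, 0, 2])]

def hhR2e0 : List (ℕ × ℕ) := [(0, 0), (0, 4)]

def aaR2e0 : List (List Ent) := [
  [((0, 0), none), ((0, 1), none)],
  [((0, 0), none), ((0, -1), none), ((2, 7), some ((2, 7), (4, 15))), ((2, 7), some ((6, 22),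
    (8, 30)))],
  [((0, 0), none), ((-2, -8), some ((0, 0), (0, 0))), ((-2, -7), some ((2, 7), (2, 8))),
    ((-2, -8), some ((4, 15), (4, 15))), ((-2, -7), some ((6, 22), (6, 23)))]]

def ggR2e0 : List (Lin × Lin) := [((0, 1), (1, 2)), ((2, 8), (1, 3))]

def ffR2e0_0 : List TP := [
  ⟨(0, 0), (0, 0), (0, 0), 0, some (0, 0)⟩, ⟨(0, 1), (0, 1), (6, 21), 1, some (1, 6)⟩, ⟨(0, 2),
    (1, 3), (2, 6), 0, none⟩, ⟨(1, 4), (1, 4), (2, 7), 0, none⟩, ⟨(1, 5), (2, 6),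
    (6, 22), 1, none⟩, ⟨(2, 7), (2, 7), (0, 0), 0, none⟩, ⟨(2, 8), (2, 8),
    (2, 6), 0, some (2, 3)⟩, ⟨(2, 9), (3, 10), (2, 6), 0, none⟩, ⟨(3, 11), (3, 11),
    (4, 15), 1, none⟩, ⟨(3, 12), (3, 12), (2, 5), 0, none⟩, ⟨(3, 13), (4, 15), (2, 5), 1, none⟩,
    ⟨(4, 16), (6, 21), (-4, -15), 0, none⟩, ⟨(6, 22), (6, 22), (0, -1), 1, none⟩, ⟨(6, 23),
    (7, 25), (0, 0), 1, none⟩, ⟨(7, 26), (7, 26), (-4, -16), 1, none⟩, ⟨(7, 27), (8, 28),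
    (-4, -15), 1, none⟩, ⟨(8, 29), (8, 29), (0, 0), 1, none⟩]

def ffR2e0_1 : List TP := [
  ⟨(0, 0), (0, 0), (4, 15), 0, some (0, 4)⟩, ⟨(0, 1), (0, 1), (2, 6), 0, some (1, 2)⟩, ⟨(0, 2),
    (1, 3), (6, 21), 0, none⟩, ⟨(1, 4), (1, 4), (6, 22), 1, none⟩, ⟨(1, 5), (2, 6),
    (2, 7), 0, none⟩, ⟨(2, 7), (2, 7), (4, 15), 0, none⟩, ⟨(2, 8), (2, 8),
    (6, 21), 1, some (2, 8)⟩, ⟨(2, 9), (3, 10), (-2, -9), 0, none⟩, ⟨(3, 11), (3, 11),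
    (0, 0), 0, none⟩, ⟨(3, 12), (4, 15), (-2, -10), 0, none⟩, ⟨(4, 16), (6, 21),
    (0, 0), 1, none⟩, ⟨(6, 22), (6, 22), (-4, -16), 0, none⟩, ⟨(6, 23), (7, 25),
    (-4, -15), 1, none⟩, ⟨(7, 26), (7, 26), (0, -1), 1, none⟩, ⟨(7, 27), (8, 28),
    (0, 0), 1, none⟩, ⟨(8, 29), (8, 29), (-4, -15), 1, none⟩]

def ffR2e0 : List (List TP) := [ffR2e0_0, ffR2e0_1]

theorem attainsR2e0 {s n h j : ℕ} (hn : (n : ℤ) = 8 * s + 30) (hh : (h : ℤ) = 4 * s + 15)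
    (hj : (j : ℤ) ≤ 2 * s + 5) : Attains n (4 * j + 2) :=
  attains_of_chk (d := sqR2e0) (H := hhR2e0) (A := aaR2e0) (G := ggR2e0) (F := ffR2e0)
    (by decide +kernel) (by decide +kernel) (by decide +kernel) (by decide +kernel)
    (by decide +kernel) (by decide +kernel) (by decide +kernel) (by decide +kernel)
    (by decide +kernel) hn hh (le_trans hj (le_of_eq (by rfl)))

/-- data `R2e1` (1 extra intercalates) -/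
def sqR2e1 : Sq where
  N := (8, 30)
  Hf := (4, 15)
  R := [(0, 0), (0, 1), (2, 8), (4, 14), (8, 29)]
  C := [
    (((0, 0), (0, 0)), [2, 1, 0, 3, 4]), (((0, 1), (2, 4)), [0, 1, 2, 3, 4]), (((2, 5),
      (2, 5)), [0, 1, 2, 4, 3]), (((2, 6), (2, 6)), [0, 1, 2, 3, 4]), (((2, 7),
      (2, 7)), [0, 2, 1, 3, 4]), (((2, 8), (4, 14)), [1, 0, 2, 3, 4]), (((4, 15),
      (4, 15)), [2, 1, 0, 3, 4]), (((4, 16), (6, 19)), [0, 1, 2, 3, 4]), (((6, 20),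
      (6, 20)), [0, 1, 2, 4, 3]), (((6, 21), (6, 21)), [0, 1, 2, 3, 4]), (((6, 22),
      (6, 22)), [0, 2, 1, 3, 4]), (((6, 23), (8, 28)), [1, 0, 2, 3, 4]), (((8, 29),
      (8, 29)), [1, 0, 2, 3, 4])]

def hhR2e1 : List (ℕ × ℕ) := [(0, 0), (0, 6), (3, 2), (4, 2), (3, 8), (4, 8)]

def aaR2e1 : List (List Ent) := [
  [((0, 0), none), ((0, 1), none)],
  [((0, 0), none), ((0, -1), none), ((2, 7), some ((2, 7), (4, 15))), ((2, 7), some ((6, 22),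
    (8, 30)))],
  [((0, 0), none), ((-2, -8), some ((0, 0), (0, 0))), ((-2, -7), some ((2, 7), (2, 8))),
    ((-2, -8), some ((4, 15), (4, 15))), ((-2, -7), some ((6, 22), (6, 23)))],
  [((0, 0), none)],
  [((0, 0), none)]]

def ggR2e1 : List (Lin × Lin) := [((0, 1), (1, 2)), ((2, 8), (1, 3))]

def ffR2e1_0 : List TP := [
  ⟨(0, 0), (0, 0), (0, 0), 0, some (0, 0)⟩, ⟨(0, 1), (0, 1), (6, 21), 1, some (1, 10)⟩, ⟨(0, 2),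
    (1, 3), (2, 6), 0, none⟩, ⟨(1, 4), (1, 4), (2, 7), 0, none⟩, ⟨(1, 5), (2, 6),
    (6, 22), 1, none⟩, ⟨(2, 7), (2, 7), (0, 0), 0, none⟩, ⟨(2, 8), (2, 8),
    (2, 6), 0, some (2, 5)⟩, ⟨(2, 9), (3, 10), (2, 6), 0, none⟩, ⟨(3, 11), (3, 11),
    (4, 15), 1, none⟩, ⟨(3, 12), (3, 12), (2, 5), 0, none⟩, ⟨(3, 13), (4, 13), (2, 5), 1, none⟩,
    ⟨(4, 14), (4, 14), (2, 5), 1, some (3, 7)⟩, ⟨(4, 15), (4, 15), (2, 5), 1, none⟩, ⟨(4, 16),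
    (6, 21), (-4, -15), 0, none⟩, ⟨(6, 22), (6, 22), (0, -1), 1, none⟩, ⟨(6, 23), (7, 25),
    (0, 0), 1, none⟩, ⟨(7, 26), (7, 26), (-4, -16), 1, none⟩, ⟨(7, 27), (8, 28),
    (-4, -15), 1, none⟩, ⟨(8, 29), (8, 29), (0, 0), 1, some (4, 12)⟩]

def ffR2e1_1 : List TP := [
  ⟨(0, 0), (0, 0), (4, 15), 0, some (0, 6)⟩, ⟨(0, 1), (0, 1), (2, 6), 0, some (1, 4)⟩, ⟨(0, 2),
    (1, 3), (6, 21), 0, none⟩, ⟨(1, 4), (1, 4), (6, 22), 1, none⟩, ⟨(1, 5), (2, 6),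
    (2, 7), 0, none⟩, ⟨(2, 7), (2, 7), (4, 15), 0, none⟩, ⟨(2, 8), (2, 8),
    (6, 21), 1, some (2, 12)⟩, ⟨(2, 9), (3, 10), (-2, -9), 0, none⟩, ⟨(3, 11), (3, 11),
    (0, 0), 0, none⟩, ⟨(3, 12), (4, 13), (-2, -10), 0, none⟩, ⟨(4, 14), (4, 14),
    (-2, -10), 0, some (3, 1)⟩, ⟨(4, 15), (4, 15), (-2, -10), 0, none⟩, ⟨(4, 16), (6, 21),
    (0, 0), 1, none⟩, ⟨(6, 22), (6, 22), (-4, -16), 0, none⟩, ⟨(6, 23), (7, 25),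
    (-4, -15), 1, none⟩, ⟨(7, 26), (7, 26), (0, -1), 1, none⟩, ⟨(7, 27), (8, 28),
    (0, 0), 1, none⟩, ⟨(8, 29), (8, 29), (-4, -15), 1, some (4, 5)⟩]

def ffR2e1_2 : List TP := [
  ⟨(0, 0), (0, 0), (2, 6), 0, some (0, 3)⟩, ⟨(0, 1), (0, 1), (0, -1), 0, some (1, 0)⟩, ⟨(0, 2),
    (1, 3), (0, -1), 0, none⟩, ⟨(1, 4), (2, 6), (4, 14), 0, none⟩, ⟨(2, 7), (2, 7),
    (6, 20), 1, none⟩, ⟨(2, 8), (2, 8), (0, 0), 0, some (2, 5)⟩, ⟨(2, 9), (3, 10),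
    (0, 0), 0, none⟩, ⟨(3, 11), (3, 11), (2, 6), 0, none⟩, ⟨(3, 12), (4, 13), (0, -1), 0, none⟩,
    ⟨(4, 14), (4, 14), (0, -1), 0, some (3, 5)⟩, ⟨(4, 15), (4, 15), (4, 14), 1, none⟩, ⟨(4, 16),
    (6, 21), (2, 5), 1, none⟩, ⟨(6, 22), (6, 22), (-4, -15), 0, none⟩, ⟨(6, 23), (6, 23),
    (2, 5), 1, none⟩, ⟨(6, 24), (7, 26), (-2, -10), 1, none⟩, ⟨(7, 27), (8, 28),
    (-6, -24), 1, none⟩, ⟨(8, 29), (8, 29), (-6, -24), 0, some (4, 2)⟩]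

def ffR2e1_3 : List TP := [
  ⟨(0, 0), (0, 0), (6, 21), 0, some (0, 9)⟩, ⟨(0, 1), (0, 1), (4, 14), 0, some (1, 6)⟩, ⟨(0, 2),
    (1, 3), (4, 14), 0, none⟩, ⟨(1, 4), (2, 6), (0, -1), 0, none⟩, ⟨(2, 7), (2, 7),
    (2, 5), 0, none⟩, ⟨(2, 8), (2, 8), (4, 15), 1, some (2, 11)⟩, ⟨(2, 9), (3, 10),
    (4, 15), 1, none⟩, ⟨(3, 11), (3, 11), (-2, -9), 0, none⟩, ⟨(3, 12), (4, 13),
    (4, 14), 1, none⟩, ⟨(4, 14), (4, 14), (4, 14), 1, some (3, 11)⟩, ⟨(4, 15), (4, 15),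
    (0, -1), 0, none⟩, ⟨(4, 16), (5, 19), (-2, -10), 0, none⟩, ⟨(5, 20), (6, 21),
    (-2, -10), 1, none⟩, ⟨(6, 22), (6, 22), (0, 0), 1, none⟩, ⟨(6, 23), (6, 23),
    (-2, -10), 1, none⟩, ⟨(6, 24), (6, 24), (2, 5), 1, none⟩, ⟨(6, 25), (7, 26),
    (-6, -25), 0, none⟩, ⟨(7, 27), (8, 28), (-2, -9), 1, none⟩, ⟨(8, 29), (8, 29),
    (-2, -9), 1, some (4, 8)⟩]

def ffR2e1_4 : List TP := [
  ⟨(0, 0), (0, 0), (6, 20), 0, some (0, 8)⟩, ⟨(0, 1), (0, 1), (2, 5), 0, some (1, 3)⟩, ⟨(0, 2),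
    (1, 4), (2, 5), 0, none⟩, ⟨(1, 5), (2, 6), (6, 20), 1, none⟩, ⟨(2, 7), (2, 7),
    (6, 21), 1, none⟩, ⟨(2, 8), (2, 8), (2, 5), 0, some (2, 5)⟩, ⟨(2, 9), (3, 11),
    (2, 5), 0, none⟩, ⟨(3, 12), (4, 13), (-2, -9), 0, none⟩, ⟨(4, 14), (4, 14),
    (-2, -9), 1, some (3, 2)⟩, ⟨(4, 15), (5, 18), (2, 6), 1, none⟩, ⟨(5, 19), (5, 19),
    (-2, -9), 0, none⟩, ⟨(5, 20), (6, 21), (-2, -9), 1, none⟩, ⟨(6, 22), (6, 22),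
    (2, 5), 1, none⟩, ⟨(6, 23), (6, 23), (2, 6), 1, none⟩, ⟨(6, 24), (7, 26),
    (-6, -24), 0, none⟩, ⟨(7, 27), (8, 28), (-2, -10), 1, none⟩, ⟨(8, 29), (8, 29),
    (-2, -10), 1, some (4, 7)⟩]

def ffR2e1_5 : List TP := [
  ⟨(0, 0), (0, 0), (2, 5), 0, some (0, 2)⟩, ⟨(0, 1), (0, 1), (6, 20), 0, some (1, 9)⟩, ⟨(0, 2),
    (1, 4), (6, 20), 0, none⟩, ⟨(1, 5), (2, 6), (2, 5), 0, none⟩, ⟨(2, 7), (2, 7),
    (2, 6), 0, none⟩, ⟨(2, 8), (2, 8), (6, 20), 1, some (2, 11)⟩, ⟨(2, 9), (2, 9),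
    (6, 20), 1, none⟩, ⟨(2, 10), (3, 11), (-2, -10), 0, none⟩, ⟨(3, 12), (4, 13),
    (2, 6), 1, none⟩, ⟨(4, 14), (4, 14), (2, 6), 1, some (3, 8)⟩, ⟨(4, 15), (5, 18),
    (-2, -9), 0, none⟩, ⟨(5, 19), (6, 21), (2, 6), 1, none⟩, ⟨(6, 22), (6, 22),
    (-2, -10), 1, none⟩, ⟨(6, 23), (7, 26), (-2, -9), 1, none⟩, ⟨(7, 27), (7, 27),
    (-6, -25), 0, none⟩, ⟨(7, 28), (8, 28), (-6, -25), 1, none⟩, ⟨(8, 29), (8, 29),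
    (-6, -25), 1, some (4, 1)⟩]

def ffR2e1 : List (List TP) := [ffR2e1_0, ffR2e1_1, ffR2e1_2, ffR2e1_3, ffR2e1_4, ffR2e1_5]

theorem attainsR2e1 {s n h j : ℕ} (hn : (n : ℤ) = 8 * s + 30) (hh : (h : ℤ) = 4 * s + 15)
    (hj : (j : ℤ) ≤ 2 * s + 5) : Attains n (4 * j + 6) :=
  attains_of_chk (d := sqR2e1) (H := hhR2e1) (A := aaR2e1) (G := ggR2e1) (F := ffR2e1)
    (by decide +kernel) (by decide +kernel) (by decide +kernel) (by decide +kernel)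
    (by decide +kernel) (by decide +kernel) (by decide +kernel) (by decide +kernel)
    (by decide +kernel) hn hh (le_trans hj (le_of_eq (by rfl)))

end Pool.Agent.Hhelper79.PL
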