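import Mathlib
import Pool.Agent.Hhelper79.PL.Final

set_option autoImplicit false

/-!
Piecewise data for `n = 4 b - 2` (generated by a SAT search).
-/

namespace Pool.Agent.Hhelper79.PL

open Pool.Agent.Hhelper79.LT

/-- data `R2o0` (0 extra intercalates) -/
def sqR2o0 : Sq where
  N := (8, 26)
  Hf := (4, 13)
  R := [(0, 0), (0, 1), (2, 7)]
  C := [
    (((0, 0), (0, 0)), [2, 1, 0]), (((0, 1), (2, 5)), [0, 1, 2]), (((2, 6), (2, 6)), [0, 2, 1]),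
      (((2, 7), (4, 12)), [1, 0, 2]), (((4, 13), (4, 13)), [2, 1, 0]), (((4, 14),
      (6, 18)), [0, 1, 2]), (((6, 19), (6, 19)), [0, 2, 1]), (((6, 20), (8, 24)), [1, 0, 2]),
      (((8, 25), (8, 25)), [1, 0, 2])]

def hhR2o0 : List (ℕ × ℕ) := [(0, 0), (0, 4)]

def aaR2o0 : List (List Ent) := [
  [((0, 0), none), ((0, 1), none)],
  [((0, 0), none), ((0, -1), none), ((2, 6), some ((2, 6), (4, 13))), ((2, 6), some ((6, 19),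
    (8, 26)))],
  [((0, 0), none), ((-2, -7), some ((0, 0), (0, 0))), ((-2, -6), some ((2, 6), (2, 7))),
    ((-2, -7), some ((4, 13), (4, 13))), ((-2, -6), some ((6, 19), (6, 20)))]]

def ggR2o0 : List (Lin × Lin) := [((0, 1), (1, 2)), ((2, 7), (1, 2))]

def ffR2o0_0 : List TP := [
  ⟨(0, 0), (0, 0), (0, 0), 0, some (0, 0)⟩, ⟨(0, 1), (0, 1), (2, 5), 0, some (1, 2)⟩, ⟨(0, 2),
    (1, 2), (2, 5), 0, none⟩, ⟨(1, 3), (1, 3), (0, 0), 0, none⟩, ⟨(1, 4), (2, 5),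
    (6, 18), 1, none⟩, ⟨(2, 6), (2, 6), (2, 6), 0, none⟩, ⟨(2, 7), (2, 7),
    (4, 11), 0, some (2, 5)⟩, ⟨(2, 8), (3, 10), (4, 11), 1, none⟩, ⟨(3, 11), (4, 12),
    (0, -2), 0, none⟩, ⟨(4, 13), (4, 13), (4, 11), 1, none⟩, ⟨(4, 14), (5, 15),
    (-4, -13), 0, none⟩, ⟨(5, 16), (5, 16), (-2, -8), 0, none⟩, ⟨(5, 17), (6, 18),
    (-4, -13), 0, none⟩, ⟨(6, 19), (6, 19), (-2, -8), 1, none⟩, ⟨(6, 20), (6, 20),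
    (2, 5), 1, none⟩, ⟨(6, 21), (8, 25), (-2, -8), 1, none⟩]

def ffR2o0_1 : List TP := [
  ⟨(0, 0), (0, 0), (4, 13), 0, some (0, 4)⟩, ⟨(0, 1), (0, 1), (6, 18), 1, some (1, 6)⟩, ⟨(0, 2),
    (1, 2), (6, 18), 0, none⟩, ⟨(1, 3), (1, 3), (4, 13), 0, none⟩, ⟨(1, 4), (2, 5),
    (2, 5), 0, none⟩, ⟨(2, 6), (2, 6), (6, 19), 1, none⟩, ⟨(2, 7), (2, 7),
    (0, -2), 0, some (2, 1)⟩, ⟨(2, 8), (3, 10), (0, -2), 0, none⟩, ⟨(3, 11), (4, 12),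
    (4, 11), 1, none⟩, ⟨(4, 13), (4, 13), (0, -2), 0, none⟩, ⟨(4, 14), (5, 15), (0, 0), 1, none⟩,
    ⟨(5, 16), (5, 16), (2, 5), 1, none⟩, ⟨(5, 17), (6, 18), (0, 0), 1, none⟩, ⟨(6, 19), (6, 19),
    (2, 5), 1, none⟩, ⟨(6, 20), (6, 20), (-2, -8), 1, none⟩, ⟨(6, 21), (7, 23),
    (-6, -21), 0, none⟩, ⟨(7, 24), (8, 25), (-6, -21), 1, none⟩]

def ffR2o0 : List (List TP) := [ffR2o0_0, ffR2o0_1]

theorem attainsR2o0 {s n h j : ℕ} (hn : (n : ℤ) = 8 * s + 26) (hh : (h : ℤ) = 4 * s + 13)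
    (hj : (j : ℤ) ≤ 2 * s + 4) : Attains n (4 * j + 2) :=
  attains_of_chk (d := sqR2o0) (H := hhR2o0) (A := aaR2o0) (G := ggR2o0) (F := ffR2o0)
    (by decide +kernel) (by decide +kernel) (by decide +kernel) (by decide +kernel)
    (by decide +kernel) (by decide +kernel) (by decide +kernel) (by decide +kernel)
    (by decide +kernel) hn hh (le_trans hj (le_of_eq (by rfl)))

/-- data `R2o1` (1 extra intercalates) -/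
def sqR2o1 : Sq where
  N := (8, 26)
  Hf := (4, 13)
  R := [(0, 0), (0, 1), (2, 7), (4, 12), (8, 25)]
  C := [
    (((0, 0), (0, 0)), [2, 1, 0, 3, 4]), (((0, 1), (2, 4)), [0, 1, 2, 3, 4]), (((2, 5),
      (2, 5)), [0, 1, 2, 4, 3]), (((2, 6), (2, 6)), [0, 2, 1, 3, 4]), (((2, 7),
      (4, 12)), [1, 0, 2, 3, 4]), (((4, 13), (4, 13)), [2, 1, 0, 3, 4]), (((4, 14),
      (6, 17)), [0, 1, 2, 3, 4]), (((6, 18), (6, 18)), [0, 1, 2, 4, 3]), (((6, 19),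
      (6, 19)), [0, 2, 1, 3, 4]), (((6, 20), (8, 24)), [1, 0, 2, 3, 4]), (((8, 25),
      (8, 25)), [1, 0, 2, 3, 4])]

def hhR2o1 : List (ℕ × ℕ) := [(0, 0), (0, 5), (3, 2), (4, 2), (3, 7), (4, 7)]

def aaR2o1 : List (List Ent) := [
  [((0, 0), none), ((0, 1), none)],
  [((0, 0), none), ((0, -1), none), ((2, 6), some ((2, 6), (4, 13))), ((2, 6), some ((6, 19),
    (8, 26)))],
  [((0, 0), none), ((-2, -7), some ((0, 0), (0, 0))), ((-2, -6), some ((2, 6), (2, 7))),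
    ((-2, -7), some ((4, 13), (4, 13))), ((-2, -6), some ((6, 19), (6, 20)))],
  [((0, 0), none)],
  [((0, 0), none)]]

def ggR2o1 : List (Lin × Lin) := [((0, 1), (1, 2)), ((2, 7), (1, 2))]

def ffR2o1_0 : List TP := [
  ⟨(0, 0), (0, 0), (0, 0), 0, some (0, 0)⟩, ⟨(0, 1), (0, 1), (2, 5), 0, some (1, 3)⟩, ⟨(0, 2),
    (1, 2), (2, 5), 0, none⟩, ⟨(1, 3), (1, 3), (0, 0), 0, none⟩, ⟨(1, 4), (2, 5),
    (6, 18), 1, none⟩, ⟨(2, 6), (2, 6), (2, 6), 0, none⟩, ⟨(2, 7), (2, 7),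
    (4, 11), 0, some (2, 7)⟩, ⟨(2, 8), (3, 10), (4, 11), 1, none⟩, ⟨(3, 11), (4, 11),
    (0, -2), 0, none⟩, ⟨(4, 12), (4, 12), (0, -2), 0, some (3, 4)⟩, ⟨(4, 13), (4, 13),
    (4, 11), 1, none⟩, ⟨(4, 14), (5, 15), (-4, -13), 0, none⟩, ⟨(5, 16), (5, 16),
    (-2, -8), 0, none⟩, ⟨(5, 17), (6, 18), (-4, -13), 0, none⟩, ⟨(6, 19), (6, 19),
    (-2, -8), 1, none⟩, ⟨(6, 20), (6, 20), (2, 5), 1, none⟩, ⟨(6, 21), (8, 24),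
    (-2, -8), 1, none⟩, ⟨(8, 25), (8, 25), (-2, -8), 1, some (4, 6)⟩]

def ffR2o1_1 : List TP := [
  ⟨(0, 0), (0, 0), (4, 13), 0, some (0, 5)⟩, ⟨(0, 1), (0, 1), (6, 18), 1, some (1, 8)⟩, ⟨(0, 2),
    (1, 2), (6, 18), 0, none⟩, ⟨(1, 3), (1, 3), (4, 13), 0, none⟩, ⟨(1, 4), (2, 5),
    (2, 5), 0, none⟩, ⟨(2, 6), (2, 6), (6, 19), 1, none⟩, ⟨(2, 7), (2, 7),
    (0, -2), 0, some (2, 2)⟩, ⟨(2, 8), (3, 10), (0, -2), 0, none⟩, ⟨(3, 11), (4, 11),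
    (4, 11), 1, none⟩, ⟨(4, 12), (4, 12), (4, 11), 1, some (3, 9)⟩, ⟨(4, 13), (4, 13),
    (0, -2), 0, none⟩, ⟨(4, 14), (5, 15), (0, 0), 1, none⟩, ⟨(5, 16), (5, 16), (2, 5), 1, none⟩,
    ⟨(5, 17), (6, 18), (0, 0), 1, none⟩, ⟨(6, 19), (6, 19), (2, 5), 1, none⟩, ⟨(6, 20), (6, 20),
    (-2, -8), 1, none⟩, ⟨(6, 21), (7, 23), (-6, -21), 0, none⟩, ⟨(7, 24), (8, 24),
    (-6, -21), 1, none⟩, ⟨(8, 25), (8, 25), (-6, -21), 1, some (4, 1)⟩]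

def ffR2o1_2 : List TP := [
  ⟨(0, 0), (0, 0), (8, 25), 1, some (0, 10)⟩, ⟨(0, 1), (0, 1), (4, 11), 0, some (1, 4)⟩, ⟨(0, 2),
    (1, 2), (4, 11), 0, none⟩, ⟨(1, 3), (1, 3), (4, 12), 0, none⟩, ⟨(1, 4), (2, 5),
    (2, 6), 0, none⟩, ⟨(2, 6), (2, 6), (4, 13), 0, none⟩, ⟨(2, 7), (2, 7),
    (4, 13), 1, some (2, 9)⟩, ⟨(2, 8), (3, 9), (4, 13), 1, none⟩, ⟨(3, 10), (3, 10),
    (-2, -7), 0, none⟩, ⟨(3, 11), (4, 11), (4, 12), 1, none⟩, ⟨(4, 12), (4, 12),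
    (4, 12), 1, some (3, 9)⟩, ⟨(4, 13), (5, 15), (-2, -7), 0, none⟩, ⟨(5, 16), (5, 16),
    (0, -2), 1, none⟩, ⟨(5, 17), (6, 19), (0, -1), 1, none⟩, ⟨(6, 20), (7, 22),
    (-6, -20), 0, none⟩, ⟨(7, 23), (7, 23), (-4, -14), 1, none⟩, ⟨(7, 24), (8, 24),
    (-6, -20), 1, none⟩, ⟨(8, 25), (8, 25), (-6, -20), 0, some (4, 2)⟩]

def ffR2o1_3 : List TP := [
  ⟨(0, 0), (0, 0), (4, 12), 0, some (0, 4)⟩, ⟨(0, 1), (0, 1), (8, 24), 0, some (1, 10)⟩, ⟨(0, 2),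
    (1, 2), (0, -2), 0, none⟩, ⟨(1, 3), (1, 3), (0, -1), 0, none⟩, ⟨(1, 4), (2, 5),
    (6, 19), 1, none⟩, ⟨(2, 6), (2, 6), (0, 0), 0, none⟩, ⟨(2, 7), (2, 7),
    (0, 0), 0, some (2, 4)⟩, ⟨(2, 8), (3, 9), (0, 0), 0, none⟩, ⟨(3, 10), (3, 10),
    (2, 6), 1, none⟩, ⟨(3, 11), (4, 11), (0, -1), 0, none⟩, ⟨(4, 12), (4, 12),
    (0, -1), 0, some (3, 4)⟩, ⟨(4, 13), (5, 15), (2, 6), 1, none⟩, ⟨(5, 16), (5, 16),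
    (-4, -15), 0, none⟩, ⟨(5, 17), (6, 19), (-4, -14), 0, none⟩, ⟨(6, 20), (7, 22),
    (-2, -7), 1, none⟩, ⟨(7, 23), (7, 23), (0, -1), 1, none⟩, ⟨(7, 24), (8, 24),
    (-2, -7), 1, none⟩, ⟨(8, 25), (8, 25), (-2, -7), 1, some (4, 7)⟩]

def ffR2o1_4 : List TP := [
  ⟨(0, 0), (0, 0), (6, 19), 0, some (0, 8)⟩, ⟨(0, 1), (0, 1), (4, 13), 0, some (1, 6)⟩, ⟨(0, 2),
    (1, 2), (4, 13), 0, none⟩, ⟨(1, 3), (1, 3), (2, 5), 0, none⟩, ⟨(1, 4), (2, 5),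
    (0, -1), 0, none⟩, ⟨(2, 6), (2, 6), (4, 12), 0, none⟩, ⟨(2, 7), (2, 7),
    (6, 18), 1, some (2, 10)⟩, ⟨(2, 8), (3, 10), (-2, -8), 0, none⟩, ⟨(3, 11), (4, 11),
    (2, 6), 1, none⟩, ⟨(4, 12), (4, 12), (-2, -7), 1, some (3, 2)⟩, ⟨(4, 13), (4, 13),
    (0, 0), 1, none⟩, ⟨(4, 14), (5, 15), (-2, -8), 0, none⟩, ⟨(5, 16), (5, 16),
    (-2, -7), 0, none⟩, ⟨(5, 17), (6, 19), (-2, -7), 1, none⟩, ⟨(6, 20), (7, 22),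
    (0, 0), 1, none⟩, ⟨(7, 23), (7, 23), (-2, -7), 1, none⟩, ⟨(7, 24), (8, 24),
    (0, -1), 1, none⟩, ⟨(8, 25), (8, 25), (0, -1), 1, some (4, 9)⟩]

def ffR2o1_5 : List TP := [
  ⟨(0, 0), (0, 0), (2, 6), 0, some (0, 3)⟩, ⟨(0, 1), (0, 1), (0, 0), 0, some (1, 1)⟩, ⟨(0, 2),
    (1, 2), (0, 0), 0, none⟩, ⟨(1, 3), (1, 3), (6, 18), 0, none⟩, ⟨(1, 4), (2, 5),
    (4, 12), 0, none⟩, ⟨(2, 6), (2, 6), (0, -1), 0, none⟩, ⟨(2, 7), (2, 7),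
    (2, 5), 0, some (2, 4)⟩, ⟨(2, 8), (3, 10), (2, 5), 0, none⟩, ⟨(3, 11), (4, 11),
    (-2, -7), 0, none⟩, ⟨(4, 12), (4, 12), (2, 6), 1, some (3, 7)⟩, ⟨(4, 13), (4, 13),
    (-4, -13), 0, none⟩, ⟨(4, 14), (5, 15), (2, 5), 1, none⟩, ⟨(5, 16), (6, 19),
    (2, 6), 1, none⟩, ⟨(6, 20), (7, 22), (-4, -13), 1, none⟩, ⟨(7, 23), (7, 23),
    (-6, -20), 1, none⟩, ⟨(7, 24), (8, 24), (-4, -14), 1, none⟩, ⟨(8, 25), (8, 25),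
    (-4, -14), 1, some (4, 4)⟩]

def ffR2o1 : List (List TP) := [ffR2o1_0, ffR2o1_1, ffR2o1_2, ffR2o1_3, ffR2o1_4, ffR2o1_5]

theorem attainsR2o1 {s n h j : ℕ} (hn : (n : ℤ) = 8 * s + 26) (hh : (h : ℤ) = 4 * s + 13)
    (hj : (j : ℤ) ≤ 2 * s + 4) : Attains n (4 * j + 6) :=
  attains_of_chk (d := sqR2o1) (H := hhR2o1) (A := aaR2o1) (G := ggR2o1) (F := ffR2o1)
    (by decide +kernel) (by decide +kernel) (by decide +kernel) (by decide +kernel)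
    (by decide +kernel) (by decide +kernel) (by decide +kernel) (by decide +kernel)
    (by decide +kernel) hn hh (le_trans hj (le_of_eq (by rfl)))

end Pool.Agent.Hhelper79.PL
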