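import Mathlib
import Pool.Agent.Hhelper79.PL.Final

set_option autoImplicit false

/-!
Piecewise data for `n = 4 b - 2` (generated by a SAT search).
-/

namespace Pool.Agent.Hhelper79.PL

open Pool.Agent.Hhelper79.LT

/-- data `R3e0` (0 extra intercalates) -/
def sqR3e0 : Sq where
  N := (8, 38)
  Hf := (4, 19)
  R := [(0, 0), (0, 1), (2, 10), (4, 20)]
  C := [
    (((0, 0), (0, 0)), [2, 0, 3, 1]), (((0, 1), (2, 9)), [0, 1, 2, 3]), (((2, 10),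
      (2, 10)), [2, 1, 0, 3]), (((2, 11), (4, 17)), [0, 1, 2, 3]), (((4, 18),
      (4, 18)), [0, 1, 2, 3]), (((4, 19), (4, 19)), [0, 3, 2, 1]), (((4, 20),
      (6, 27)), [1, 0, 2, 3]), (((6, 28), (8, 36)), [1, 0, 2, 3]), (((8, 37),
      (8, 37)), [1, 0, 2, 3])]

def hhR3e0 : List (ℕ × ℕ) := [(1, 5), (3, 0), (3, 5)]

def aaR3e0 : List (List Ent) := [
  [((0, 0), none), ((0, 1), none), ((2, 10), some ((0, 0), (2, 10))), ((2, 10), some ((2, 10),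
    (4, 20)))],
  [((0, 0), none), ((0, -1), none)],
  [((0, 0), none), ((2, 10), some ((0, 0), (4, 20))), ((-2, -10), some ((2, 10), (2, 10)))],
  [((0, 0), none)]]

def ggR3e0 : List (Lin × Lin) := [((0, 1), (1, 4)), ((2, 12), (1, 3))]

def ffR3e0_0 : List TP := [
  ⟨(0, 0), (0, 0), (4, 18), 0, some (0, 4)⟩, ⟨(0, 1), (0, 1), (4, 18), 1, some (1, 5)⟩, ⟨(0, 2),
    (1, 4), (0, 0), 0, none⟩, ⟨(1, 5), (1, 5), (2, 9), 0, none⟩, ⟨(1, 6), (2, 9),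
    (0, -1), 0, none⟩, ⟨(2, 10), (2, 10), (2, 11), 0, some (2, 6)⟩, ⟨(2, 11), (3, 13),
    (2, 11), 0, none⟩, ⟨(3, 14), (3, 14), (4, 19), 1, none⟩, ⟨(3, 15), (4, 17),
    (2, 11), 1, none⟩, ⟨(4, 18), (4, 18), (-2, -8), 0, none⟩, ⟨(4, 19), (4, 19),
    (2, 10), 1, none⟩, ⟨(4, 20), (4, 20), (0, 0), 1, some (3, 6)⟩, ⟨(4, 21), (5, 23),
    (-2, -10), 0, none⟩, ⟨(5, 24), (6, 26), (2, 11), 1, none⟩, ⟨(6, 27), (6, 28),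
    (-6, -27), 0, none⟩, ⟨(6, 29), (6, 29), (-4, -20), 1, none⟩, ⟨(6, 30), (7, 32),
    (0, 0), 1, none⟩, ⟨(7, 33), (7, 33), (-2, -8), 1, none⟩, ⟨(7, 34), (7, 34), (0, 0), 1, none⟩,
    ⟨(7, 35), (8, 37), (-4, -20), 1, none⟩]

def ffR3e0_1 : List TP := [
  ⟨(0, 0), (0, 0), (4, 20), 0, some (0, 6)⟩, ⟨(0, 1), (0, 1), (8, 36), 0, some (1, 8)⟩, ⟨(0, 2),
    (1, 4), (2, 9), 0, none⟩, ⟨(1, 5), (1, 5), (6, 28), 1, none⟩, ⟨(1, 6), (2, 9),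
    (2, 10), 0, none⟩, ⟨(2, 10), (2, 10), (0, -1), 0, some (2, 1)⟩, ⟨(2, 11), (3, 13),
    (4, 19), 1, none⟩, ⟨(3, 14), (3, 14), (-2, -10), 0, none⟩, ⟨(3, 15), (3, 15),
    (2, 10), 1, none⟩, ⟨(3, 16), (4, 18), (4, 18), 1, none⟩, ⟨(4, 19), (4, 19),
    (-2, -9), 0, none⟩, ⟨(4, 20), (4, 20), (-4, -20), 0, some (3, 0)⟩, ⟨(4, 21), (5, 24),
    (0, 0), 1, none⟩, ⟨(5, 25), (6, 28), (-4, -20), 0, none⟩, ⟨(6, 29), (6, 29),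
    (0, 0), 1, none⟩, ⟨(6, 30), (7, 32), (-6, -29), 0, none⟩, ⟨(7, 33), (7, 34),
    (-4, -19), 1, none⟩, ⟨(7, 35), (8, 37), (-2, -9), 1, none⟩]

def ffR3e0_2 : List TP := [
  ⟨(0, 0), (0, 0), (6, 31), 0, some (0, 7)⟩, ⟨(0, 1), (0, 1), (6, 29), 0, some (1, 7)⟩, ⟨(0, 2),
    (1, 3), (6, 30), 0, none⟩, ⟨(1, 4), (2, 7), (6, 30), 1, none⟩, ⟨(2, 8), (2, 9),
    (-2, -8), 0, none⟩, ⟨(2, 10), (2, 10), (4, 19), 1, some (2, 7)⟩, ⟨(2, 11), (3, 14),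
    (0, 0), 0, none⟩, ⟨(3, 15), (3, 15), (-2, -9), 0, none⟩, ⟨(3, 16), (4, 19),
    (0, -1), 0, none⟩, ⟨(4, 20), (4, 20), (0, -1), 0, some (3, 5)⟩, ⟨(4, 21), (5, 24),
    (-4, -19), 0, none⟩, ⟨(5, 25), (6, 29), (0, -1), 1, none⟩, ⟨(6, 30), (7, 33),
    (-2, -10), 1, none⟩, ⟨(7, 34), (8, 37), (-6, -27), 1, none⟩]

def ffR3e0 : List (List TP) := [ffR3e0_0, ffR3e0_1, ffR3e0_2]

theorem attainsR3e0 {s n h j : ℕ} (hn : (n : ℤ) = 8 * s + 38) (hh : (h : ℤ) = 4 * s + 19)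
    (hj : (j : ℤ) ≤ 2 * s + 7) : Attains n (4 * j + 3) :=
  attains_of_chk (d := sqR3e0) (H := hhR3e0) (A := aaR3e0) (G := ggR3e0) (F := ffR3e0)
    (by decide +kernel) (by decide +kernel) (by decide +kernel) (by decide +kernel)
    (by decide +kernel) (by decide +kernel) (by decide +kernel) (by decide +kernel)
    (by decide +kernel) hn hh (le_trans hj (le_of_eq (by rfl)))

/-- data `R3e1` (1 extra intercalates) -/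
def sqR3e1 : Sq where
  N := (8, 38)
  Hf := (4, 19)
  R := [(0, 0), (0, 1), (2, 10), (4, 20), (4, 18), (8, 37)]
  C := [
    (((0, 0), (0, 0)), [2, 0, 3, 1, 4, 5]), (((0, 1), (2, 7)), [0, 1, 2, 3, 4, 5]), (((2, 8),
      (2, 8)), [0, 1, 2, 3, 5, 4]), (((2, 9), (2, 9)), [0, 1, 2, 3, 4, 5]), (((2, 10),
      (2, 10)), [2, 1, 0, 3, 4, 5]), (((2, 11), (4, 17)), [0, 1, 2, 3, 4, 5]), (((4, 18),
      (4, 18)), [0, 1, 2, 3, 4, 5]), (((4, 19), (4, 19)), [0, 3, 2, 1, 4, 5]), (((4, 20),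
      (6, 26)), [1, 0, 2, 3, 4, 5]), (((6, 27), (6, 27)), [1, 0, 2, 3, 5, 4]), (((6, 28),
      (8, 36)), [1, 0, 2, 3, 4, 5]), (((8, 37), (8, 37)), [1, 0, 2, 3, 4, 5])]

def hhR3e1 : List (ℕ × ℕ) := [(1, 7), (3, 0), (3, 7), (4, 2), (5, 2), (4, 9), (5, 9)]

def aaR3e1 : List (List Ent) := [
  [((0, 0), none), ((0, 1), none), ((2, 10), some ((0, 0), (2, 10))), ((2, 10), some ((2, 10),
    (4, 20)))],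
  [((0, 0), none), ((0, -1), none)],
  [((0, 0), none), ((2, 10), some ((0, 0), (4, 20))), ((-2, -10), some ((2, 10), (2, 10)))],
  [((0, 0), none)],
  [((0, 0), none)],
  [((0, 0), none)]]

def ggR3e1 : List (Lin × Lin) := [((0, 1), (1, 4)), ((2, 12), (1, 3))]

def ffR3e1_0 : List TP := [
  ⟨(0, 0), (0, 0), (4, 18), 0, some (0, 6)⟩, ⟨(0, 1), (0, 1), (4, 18), 1, some (1, 7)⟩, ⟨(0, 2),
    (1, 4), (0, 0), 0, none⟩, ⟨(1, 5), (1, 5), (2, 9), 0, none⟩, ⟨(1, 6), (2, 9),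
    (0, -1), 0, none⟩, ⟨(2, 10), (2, 10), (2, 11), 0, some (2, 8)⟩, ⟨(2, 11), (3, 13),
    (2, 11), 0, none⟩, ⟨(3, 14), (3, 14), (4, 19), 1, none⟩, ⟨(3, 15), (4, 17),
    (2, 11), 1, none⟩, ⟨(4, 18), (4, 18), (-2, -8), 0, some (4, 4)⟩, ⟨(4, 19), (4, 19),
    (2, 10), 1, none⟩, ⟨(4, 20), (4, 20), (0, 0), 1, some (3, 8)⟩, ⟨(4, 21), (5, 23),
    (-2, -10), 0, none⟩, ⟨(5, 24), (6, 26), (2, 11), 1, none⟩, ⟨(6, 27), (6, 28),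
    (-6, -27), 0, none⟩, ⟨(6, 29), (6, 29), (-4, -20), 1, none⟩, ⟨(6, 30), (7, 32),
    (0, 0), 1, none⟩, ⟨(7, 33), (7, 33), (-2, -8), 1, none⟩, ⟨(7, 34), (7, 34), (0, 0), 1, none⟩,
    ⟨(7, 35), (8, 36), (-4, -20), 1, none⟩, ⟨(8, 37), (8, 37), (-4, -20), 1, some (5, 5)⟩]

def ffR3e1_1 : List TP := [
  ⟨(0, 0), (0, 0), (4, 20), 0, some (0, 8)⟩, ⟨(0, 1), (0, 1), (8, 36), 0, some (1, 11)⟩, ⟨(0, 2),
    (1, 4), (2, 9), 0, none⟩, ⟨(1, 5), (1, 5), (6, 28), 1, none⟩, ⟨(1, 6), (2, 9),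
    (2, 10), 0, none⟩, ⟨(2, 10), (2, 10), (0, -1), 0, some (2, 3)⟩, ⟨(2, 11), (3, 13),
    (4, 19), 1, none⟩, ⟨(3, 14), (3, 14), (-2, -10), 0, none⟩, ⟨(3, 15), (3, 15),
    (2, 10), 1, none⟩, ⟨(3, 16), (4, 17), (4, 18), 1, none⟩, ⟨(4, 18), (4, 18),
    (4, 18), 1, some (4, 10)⟩, ⟨(4, 19), (4, 19), (-2, -9), 0, none⟩, ⟨(4, 20), (4, 20),
    (-4, -20), 0, some (3, 0)⟩, ⟨(4, 21), (5, 24), (0, 0), 1, none⟩, ⟨(5, 25), (6, 28),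
    (-4, -20), 0, none⟩, ⟨(6, 29), (6, 29), (0, 0), 1, none⟩, ⟨(6, 30), (7, 32),
    (-6, -29), 0, none⟩, ⟨(7, 33), (7, 34), (-4, -19), 1, none⟩, ⟨(7, 35), (8, 36),
    (-2, -9), 1, none⟩, ⟨(8, 37), (8, 37), (-2, -9), 1, some (5, 10)⟩]

def ffR3e1_2 : List TP := [
  ⟨(0, 0), (0, 0), (6, 31), 0, some (0, 10)⟩, ⟨(0, 1), (0, 1), (6, 29), 0, some (1, 10)⟩,
    ⟨(0, 2), (1, 3), (6, 30), 0, none⟩, ⟨(1, 4), (2, 7), (6, 30), 1, none⟩, ⟨(2, 8), (2, 9),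
    (-2, -8), 0, none⟩, ⟨(2, 10), (2, 10), (4, 19), 1, some (2, 10)⟩, ⟨(2, 11), (3, 14),
    (0, 0), 0, none⟩, ⟨(3, 15), (3, 15), (-2, -9), 0, none⟩, ⟨(3, 16), (4, 17),
    (0, -1), 0, none⟩, ⟨(4, 18), (4, 18), (0, -1), 0, some (4, 5)⟩, ⟨(4, 19), (4, 19),
    (0, -1), 0, none⟩, ⟨(4, 20), (4, 20), (0, -1), 0, some (3, 7)⟩, ⟨(4, 21), (5, 24),
    (-4, -19), 0, none⟩, ⟨(5, 25), (6, 29), (0, -1), 1, none⟩, ⟨(6, 30), (7, 33),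
    (-2, -10), 1, none⟩, ⟨(7, 34), (8, 36), (-6, -27), 1, none⟩, ⟨(8, 37), (8, 37),
    (-6, -27), 1, some (5, 4)⟩]

def ffR3e1_3 : List TP := [
  ⟨(0, 0), (0, 0), (6, 30), 0, some (0, 10)⟩, ⟨(0, 1), (0, 1), (0, -1), 0, some (1, 0)⟩, ⟨(0, 2),
    (1, 4), (6, 29), 0, none⟩, ⟨(1, 5), (1, 5), (4, 18), 0, none⟩, ⟨(1, 6), (2, 8),
    (6, 28), 1, none⟩, ⟨(2, 9), (2, 9), (0, 0), 0, none⟩, ⟨(2, 10), (2, 10),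
    (2, 9), 0, some (2, 7)⟩, ⟨(2, 11), (3, 14), (0, -1), 0, none⟩, ⟨(3, 15), (4, 17),
    (-2, -10), 0, none⟩, ⟨(4, 18), (4, 18), (4, 19), 1, some (4, 11)⟩, ⟨(4, 19), (4, 19),
    (2, 9), 1, none⟩, ⟨(4, 20), (4, 20), (2, 9), 1, some (3, 10)⟩, ⟨(4, 21), (5, 23),
    (0, -1), 1, none⟩, ⟨(5, 24), (5, 24), (-2, -9), 1, none⟩, ⟨(5, 25), (6, 27),
    (0, 0), 1, none⟩, ⟨(6, 28), (6, 28), (-2, -10), 1, none⟩, ⟨(6, 29), (7, 32),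
    (-6, -28), 0, none⟩, ⟨(7, 33), (7, 33), (-2, -9), 1, none⟩, ⟨(7, 34), (7, 34),
    (-4, -20), 1, none⟩, ⟨(7, 35), (8, 36), (-4, -19), 1, none⟩, ⟨(8, 37), (8, 37),
    (-6, -29), 0, some (5, 2)⟩]

def ffR3e1_4 : List TP := [
  ⟨(0, 0), (0, 0), (4, 19), 0, some (0, 7)⟩, ⟨(0, 1), (0, 1), (2, 10), 0, some (1, 5)⟩, ⟨(0, 2),
    (1, 4), (2, 10), 0, none⟩, ⟨(1, 5), (1, 5), (0, 0), 0, none⟩, ⟨(1, 6), (2, 8),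
    (2, 9), 0, none⟩, ⟨(2, 9), (2, 9), (-2, -9), 0, none⟩, ⟨(2, 10), (2, 10),
    (4, 18), 1, some (2, 10)⟩, ⟨(2, 11), (3, 14), (4, 18), 1, none⟩, ⟨(3, 15), (4, 17),
    (2, 9), 1, none⟩, ⟨(4, 18), (4, 18), (0, 0), 0, some (4, 6)⟩, ⟨(4, 19), (4, 19),
    (-2, -10), 0, none⟩, ⟨(4, 20), (4, 20), (-2, -10), 0, some (3, 4)⟩, ⟨(4, 21), (5, 23),
    (-4, -20), 0, none⟩, ⟨(5, 24), (5, 24), (2, 10), 1, none⟩, ⟨(5, 25), (6, 27),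
    (-4, -19), 0, none⟩, ⟨(6, 28), (6, 28), (2, 9), 1, none⟩, ⟨(6, 29), (7, 32),
    (-2, -9), 1, none⟩, ⟨(7, 33), (7, 33), (-6, -29), 0, none⟩, ⟨(7, 34), (7, 34),
    (0, -1), 1, none⟩, ⟨(7, 35), (8, 36), (0, 0), 1, none⟩, ⟨(8, 37), (8, 37),
    (-2, -10), 1, some (5, 9)⟩]

def ffR3e1_5 : List TP := [
  ⟨(0, 0), (0, 0), (6, 29), 0, some (0, 10)⟩, ⟨(0, 1), (0, 1), (6, 27), 0, some (1, 10)⟩,
    ⟨(0, 2), (1, 4), (4, 18), 0, none⟩, ⟨(1, 5), (1, 5), (2, 10), 0, none⟩, ⟨(1, 6), (2, 8),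
    (4, 19), 0, none⟩, ⟨(2, 9), (2, 9), (2, 9), 0, none⟩, ⟨(2, 10), (2, 10),
    (-2, -9), 0, some (2, 1)⟩, ⟨(2, 11), (3, 13), (-2, -9), 0, none⟩, ⟨(3, 14), (3, 14),
    (2, 10), 1, none⟩, ⟨(3, 15), (3, 15), (0, -1), 0, none⟩, ⟨(3, 16), (4, 17), (0, 0), 0, none⟩,
    ⟨(4, 18), (4, 18), (-2, -10), 1, some (4, 2)⟩, ⟨(4, 19), (4, 19), (-4, -19), 0, none⟩,
    ⟨(4, 20), (4, 20), (2, 10), 1, some (3, 10)⟩, ⟨(4, 21), (5, 23), (2, 10), 1, none⟩, ⟨(5, 24),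
    (5, 24), (0, -1), 1, none⟩, ⟨(5, 25), (6, 27), (2, 9), 1, none⟩, ⟨(6, 28), (6, 28),
    (-4, -19), 0, none⟩, ⟨(6, 29), (6, 29), (-2, -10), 1, none⟩, ⟨(6, 30), (7, 33),
    (-4, -20), 1, none⟩, ⟨(7, 34), (8, 36), (-6, -29), 1, none⟩, ⟨(8, 37), (8, 37),
    (0, 0), 1, some (5, 11)⟩]

def ffR3e1_6 : List TP := [
  ⟨(0, 0), (0, 0), (2, 9), 0, some (0, 3)⟩, ⟨(0, 1), (0, 1), (2, 9), 0, some (1, 4)⟩, ⟨(0, 2),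
    (1, 4), (0, -1), 0, none⟩, ⟨(1, 5), (1, 5), (6, 29), 1, none⟩, ⟨(1, 6), (2, 8),
    (0, 0), 0, none⟩, ⟨(2, 9), (2, 9), (6, 28), 1, none⟩, ⟨(2, 10), (2, 10),
    (2, 10), 0, some (2, 8)⟩, ⟨(2, 11), (3, 13), (2, 10), 0, none⟩, ⟨(3, 14), (3, 14),
    (-2, -9), 0, none⟩, ⟨(3, 15), (3, 15), (4, 18), 1, none⟩, ⟨(3, 16), (4, 17),
    (4, 19), 1, none⟩, ⟨(4, 18), (4, 18), (2, 9), 1, some (4, 9)⟩, ⟨(4, 19), (4, 19),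
    (0, 0), 1, none⟩, ⟨(4, 20), (4, 20), (-2, -9), 0, some (3, 5)⟩, ⟨(4, 21), (5, 23),
    (-2, -9), 0, none⟩, ⟨(5, 24), (5, 24), (-4, -20), 0, none⟩, ⟨(5, 25), (6, 27),
    (-2, -10), 1, none⟩, ⟨(6, 28), (6, 28), (0, 0), 1, none⟩, ⟨(6, 29), (6, 29),
    (-6, -29), 0, none⟩, ⟨(6, 30), (7, 33), (0, -1), 1, none⟩, ⟨(7, 34), (8, 36),
    (-2, -10), 1, none⟩, ⟨(8, 37), (8, 37), (-4, -19), 1, some (5, 6)⟩]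

def ffR3e1 : List (List TP) := [ffR3e1_0, ffR3e1_1, ffR3e1_2, ffR3e1_3, ffR3e1_4, ffR3e1_5, ffR3e1_6]

theorem attainsR3e1 {s n h j : ℕ} (hn : (n : ℤ) = 8 * s + 38) (hh : (h : ℤ) = 4 * s + 19)
    (hj : (j : ℤ) ≤ 2 * s + 7) : Attains n (4 * j + 7) :=
  attains_of_chk (d := sqR3e1) (H := hhR3e1) (A := aaR3e1) (G := ggR3e1) (F := ffR3e1)
    (by decide +kernel) (by decide +kernel) (by decide +kernel) (by decide +kernel)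
    (by decide +kernel) (by decide +kernel) (by decide +kernel) (by decide +kernel)
    (by decide +kernel) hn hh (le_trans hj (le_of_eq (by rfl)))

end Pool.Agent.Hhelper79.PL
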