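import Mathlib
import Pool.Agent.Hhelper79.PL.Final

set_option autoImplicit false

/-!
Piecewise data for `n = 4 b - 2` (generated by a SAT search).
-/

namespace Pool.Agent.Hhelper79.PL

open Pool.Agent.Hhelper79.LT

/-- data `R3e00` (0 extra intercalates) -/
def sqR3e00 : Sq where
  N := (8, 22)
  Hf := (4, 11)
  R := [(0, 0), (0, 1), (2, 6), (4, 12)]
  C := [
    (((0, 0), (0, 0)), [2, 0, 3, 1]), (((0, 1), (2, 5)), [0, 1, 2, 3]), (((2, 6),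
      (2, 6)), [2, 1, 0, 3]), (((2, 7), (4, 9)), [0, 1, 2, 3]), (((4, 10),
      (4, 10)), [0, 1, 2, 3]), (((4, 11), (4, 11)), [0, 3, 2, 1]), (((4, 12),
      (6, 15)), [1, 0, 2, 3]), (((6, 16), (8, 20)), [1, 0, 2, 3]), (((8, 21),
      (8, 21)), [1, 0, 2, 3])]

def hhR3e00 : List (ℕ × ℕ) := [(1, 5), (3, 0), (3, 5)]

def aaR3e00 : List (List Ent) := [
  [((0, 0), none), ((0, 1), none), ((2, 6), some ((0, 0), (2, 6))), ((2, 6), some ((2, 6),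
    (4, 12)))],
  [((0, 0), none), ((0, -1), none)],
  [((0, 0), none), ((2, 6), some ((0, 0), (4, 12))), ((-2, -6), some ((2, 6), (2, 6)))],
  [((0, 0), none)]]

def ggR3e00 : List (Lin × Lin) := [((0, 1), (1, 2)), ((2, 8), (1, 1))]

def ffR3e00_0 : List TP := [
  ⟨(0, 0), (0, 0), (4, 10), 0, some (0, 4)⟩, ⟨(0, 1), (0, 1), (4, 10), 1, some (1, 5)⟩, ⟨(0, 2),
    (1, 2), (4, 10), 0, none⟩, ⟨(1, 3), (2, 4), (0, 0), 0, none⟩, ⟨(2, 5), (2, 5),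
    (-2, -5), 0, none⟩, ⟨(2, 6), (2, 6), (4, 10), 1, some (2, 7)⟩, ⟨(2, 7), (3, 7),
    (4, 11), 1, none⟩, ⟨(3, 8), (3, 8), (2, 5), 0, none⟩, ⟨(3, 9), (4, 10), (0, -1), 0, none⟩,
    ⟨(4, 11), (4, 11), (-2, -6), 0, none⟩, ⟨(4, 12), (4, 12), (-4, -11), 0, some (3, 1)⟩,
    ⟨(4, 13), (5, 13), (-4, -11), 0, none⟩, ⟨(5, 14), (5, 14), (2, 5), 1, none⟩, ⟨(5, 15),
    (6, 16), (0, -1), 1, none⟩, ⟨(6, 17), (6, 17), (0, 0), 1, none⟩, ⟨(6, 18), (7, 19),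
    (-4, -12), 1, none⟩, ⟨(7, 20), (8, 21), (0, 0), 1, none⟩]

def ffR3e00_1 : List TP := [
  ⟨(0, 0), (0, 0), (4, 11), 0, some (0, 5)⟩, ⟨(0, 1), (0, 1), (2, 6), 0, some (1, 3)⟩, ⟨(0, 2),
    (1, 3), (2, 6), 0, none⟩, ⟨(1, 4), (2, 5), (0, -1), 0, none⟩, ⟨(2, 6), (2, 6),
    (2, 6), 0, some (2, 6)⟩, ⟨(2, 7), (3, 7), (2, 6), 0, none⟩, ⟨(3, 8), (3, 8),
    (4, 10), 1, none⟩, ⟨(3, 9), (4, 9), (2, 6), 1, none⟩, ⟨(4, 10), (4, 10), (-2, -4), 0, none⟩,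
    ⟨(4, 11), (4, 11), (2, 5), 1, none⟩, ⟨(4, 12), (4, 12), (-4, -12), 0, some (3, 0)⟩, ⟨(4, 13),
    (5, 13), (-4, -12), 0, none⟩, ⟨(5, 14), (5, 14), (0, 0), 1, none⟩, ⟨(5, 15), (6, 15),
    (-2, -5), 1, none⟩, ⟨(6, 16), (6, 16), (2, 5), 1, none⟩, ⟨(6, 17), (6, 17),
    (-4, -12), 1, none⟩, ⟨(6, 18), (7, 18), (0, -1), 1, none⟩, ⟨(7, 19), (7, 19),
    (-6, -17), 0, none⟩, ⟨(7, 20), (8, 21), (0, -1), 1, none⟩]

def ffR3e00_2 : List TP := [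
  ⟨(0, 0), (0, 0), (2, 5), 0, some (0, 1)⟩, ⟨(0, 1), (0, 1), (0, 0), 0, some (1, 1)⟩, ⟨(0, 2),
    (1, 2), (0, 0), 0, none⟩, ⟨(1, 3), (1, 3), (6, 16), 1, none⟩, ⟨(1, 4), (2, 5),
    (4, 10), 0, none⟩, ⟨(2, 6), (2, 6), (4, 11), 1, some (2, 7)⟩, ⟨(2, 7), (3, 8),
    (0, -1), 0, none⟩, ⟨(3, 9), (4, 10), (4, 11), 1, none⟩, ⟨(4, 11), (4, 11), (0, -1), 0, none⟩,
    ⟨(4, 12), (4, 12), (0, -1), 0, some (3, 5)⟩, ⟨(4, 13), (5, 13), (0, -1), 1, none⟩, ⟨(5, 14),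
    (6, 15), (-4, -11), 0, none⟩, ⟨(6, 16), (6, 16), (-6, -16), 0, none⟩, ⟨(6, 17), (6, 17),
    (0, -1), 1, none⟩, ⟨(6, 18), (7, 18), (0, 0), 1, none⟩, ⟨(7, 19), (7, 19),
    (-2, -6), 1, none⟩, ⟨(7, 20), (8, 21), (-4, -12), 1, none⟩]

def ffR3e00 : List (List TP) := [ffR3e00_0, ffR3e00_1, ffR3e00_2]

theorem attainsR3e00 {s n h j : ℕ} (hn : (n : ℤ) = 8 * s + 22) (hh : (h : ℤ) = 4 * s + 11)
    (hj : (j : ℤ) ≤ 2 * s + 3) : Attains n (4 * j + 3) :=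
  attains_of_chk (d := sqR3e00) (H := hhR3e00) (A := aaR3e00) (G := ggR3e00) (F := ffR3e00)
    (by decide +kernel) (by decide +kernel) (by decide +kernel) (by decide +kernel)
    (by decide +kernel) (by decide +kernel) (by decide +kernel) (by decide +kernel)
    (by decide +kernel) hn hh (le_trans hj (le_of_eq (by rfl)))

end Pool.Agent.Hhelper79.PL
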