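import Mathlib
import Pool.Agent.Hhelper79.PL.Final

set_option autoImplicit false

/-!
Piecewise data for `n = 4 b - 2` (generated by a SAT search).
-/

namespace Pool.Agent.Hhelper79.PL

open Pool.Agent.Hhelper79.LT

/-- data `R3o0` (0 extra intercalates) -/
def sqR3o0 : Sq where
  N := (8, 26)
  Hf := (4, 13)
  R := [(0, 0), (0, 1), (2, 7), (4, 14)]
  C := [
    (((0, 0), (0, 0)), [2, 0, 3, 1]), (((0, 1), (2, 6)), [0, 1, 2, 3]), (((2, 7),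
      (2, 7)), [2, 1, 0, 3]), (((2, 8), (4, 11)), [0, 1, 2, 3]), (((4, 12),
      (4, 12)), [0, 1, 2, 3]), (((4, 13), (4, 13)), [0, 3, 2, 1]), (((4, 14),
      (6, 18)), [1, 0, 2, 3]), (((6, 19), (8, 24)), [1, 0, 2, 3]), (((8, 25),
      (8, 25)), [1, 0, 2, 3])]

def hhR3o0 : List (ℕ × ℕ) := [(1, 5), (3, 0), (3, 5)]

def aaR3o0 : List (List Ent) := [
  [((0, 0), none), ((0, 1), none), ((2, 7), some ((0, 0), (2, 7))), ((2, 7), some ((2, 7),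
    (4, 14)))],
  [((0, 0), none), ((0, -1), none)],
  [((0, 0), none), ((2, 7), some ((0, 0), (4, 14))), ((-2, -7), some ((2, 7), (2, 7)))],
  [((0, 0), none)]]

def ggR3o0 : List (Lin × Lin) := [((0, 2), (1, 2)), ((2, 8), (1, 2))]

def ffR3o0_0 : List TP := [
  ⟨(0, 0), (0, 0), (4, 12), 0, some (0, 4)⟩, ⟨(0, 1), (0, 1), (4, 12), 1, some (1, 5)⟩, ⟨(0, 2),
    (1, 3), (0, -1), 0, none⟩, ⟨(1, 4), (2, 5), (4, 14), 0, none⟩, ⟨(2, 6), (2, 6),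
    (4, 14), 1, none⟩, ⟨(2, 7), (2, 7), (2, 7), 0, some (2, 6)⟩, ⟨(2, 8), (3, 9),
    (2, 7), 0, none⟩, ⟨(3, 10), (4, 13), (-2, -7), 0, none⟩, ⟨(4, 14), (4, 14),
    (2, 7), 1, some (3, 7)⟩, ⟨(4, 15), (5, 15), (2, 7), 1, none⟩, ⟨(5, 16), (5, 16),
    (0, 1), 1, none⟩, ⟨(5, 17), (6, 19), (2, 6), 1, none⟩, ⟨(6, 20), (6, 20),
    (-6, -20), 0, none⟩, ⟨(6, 21), (8, 25), (-4, -14), 1, none⟩]

def ffR3o0_1 : List TP := [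
  ⟨(0, 0), (0, 0), (2, 6), 0, some (0, 1)⟩, ⟨(0, 1), (0, 1), (0, 1), 0, some (1, 1)⟩, ⟨(0, 2),
    (1, 2), (0, 1), 0, none⟩, ⟨(1, 3), (2, 6), (2, 6), 0, none⟩, ⟨(2, 7), (2, 7),
    (4, 12), 1, some (2, 7)⟩, ⟨(2, 8), (3, 9), (2, 6), 0, none⟩, ⟨(3, 10), (4, 11),
    (4, 14), 1, none⟩, ⟨(4, 12), (4, 12), (0, 1), 0, none⟩, ⟨(4, 13), (4, 13),
    (-2, -6), 0, none⟩, ⟨(4, 14), (4, 14), (-4, -14), 0, some (3, 0)⟩, ⟨(4, 15), (5, 15),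
    (-2, -7), 0, none⟩, ⟨(5, 16), (5, 16), (2, 7), 1, none⟩, ⟨(5, 17), (6, 19),
    (0, -1), 1, none⟩, ⟨(6, 20), (6, 20), (-6, -19), 0, none⟩, ⟨(6, 21), (7, 23),
    (0, -1), 1, none⟩, ⟨(7, 24), (8, 25), (-6, -20), 1, none⟩]

def ffR3o0_2 : List TP := [
  ⟨(0, 0), (0, 0), (4, 15), 0, some (0, 6)⟩, ⟨(0, 1), (0, 1), (6, 19), 0, some (1, 7)⟩, ⟨(0, 2),
    (1, 2), (4, 14), 0, none⟩, ⟨(1, 3), (1, 3), (6, 20), 1, none⟩, ⟨(1, 4), (2, 6),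
    (0, -1), 0, none⟩, ⟨(2, 7), (2, 7), (0, -1), 0, some (2, 1)⟩, ⟨(2, 8), (3, 10),
    (0, -1), 0, none⟩, ⟨(3, 11), (4, 13), (2, 6), 1, none⟩, ⟨(4, 14), (4, 14),
    (0, -1), 0, some (3, 5)⟩, ⟨(4, 15), (5, 16), (2, 6), 1, none⟩, ⟨(5, 17), (6, 19),
    (-2, -7), 1, none⟩, ⟨(6, 20), (6, 20), (-2, -6), 1, none⟩, ⟨(6, 21), (7, 22),
    (-6, -20), 0, none⟩, ⟨(7, 23), (8, 24), (0, 1), 1, none⟩, ⟨(8, 25), (8, 25),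
    (-8, -25), 0, none⟩]

def ffR3o0 : List (List TP) := [ffR3o0_0, ffR3o0_1, ffR3o0_2]

theorem attainsR3o0 {s n h j : ℕ} (hn : (n : ℤ) = 8 * s + 26) (hh : (h : ℤ) = 4 * s + 13)
    (hj : (j : ℤ) ≤ 2 * s + 4) : Attains n (4 * j + 3) :=
  attains_of_chk (d := sqR3o0) (H := hhR3o0) (A := aaR3o0) (G := ggR3o0) (F := ffR3o0)
    (by decide +kernel) (by decide +kernel) (by decide +kernel) (by decide +kernel)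
    (by decide +kernel) (by decide +kernel) (by decide +kernel) (by decide +kernel)
    (by decide +kernel) hn hh (le_trans hj (le_of_eq (by rfl)))

/-- data `R3o1` (1 extra intercalates) -/
def sqR3o1 : Sq where
  N := (8, 26)
  Hf := (4, 13)
  R := [(0, 0), (0, 1), (2, 7), (4, 14), (4, 12), (8, 25)]
  C := [
    (((0, 0), (0, 0)), [2, 0, 3, 1, 4, 5]), (((0, 1), (2, 6)), [0, 1, 2, 3, 4, 5]), (((2, 7),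
      (2, 7)), [2, 1, 0, 3, 4, 5]), (((2, 8), (4, 11)), [0, 1, 2, 3, 4, 5]), (((4, 12),
      (4, 12)), [0, 1, 2, 3, 5, 4]), (((4, 13), (4, 13)), [0, 3, 2, 1, 4, 5]), (((4, 14),
      (6, 18)), [1, 0, 2, 3, 4, 5]), (((6, 19), (8, 24)), [1, 0, 2, 3, 4, 5]), (((8, 25),
      (8, 25)), [1, 0, 2, 3, 5, 4])]

def hhR3o1 : List (ℕ × ℕ) := [(1, 5), (3, 0), (3, 5), (4, 8), (5, 8), (4, 4), (5, 4)]

def aaR3o1 : List (List Ent) := [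
  [((0, 0), none), ((0, 1), none), ((2, 7), some ((0, 0), (2, 7))), ((2, 7), some ((2, 7),
    (4, 14)))],
  [((0, 0), none), ((0, -1), none)],
  [((0, 0), none), ((2, 7), some ((0, 0), (4, 14))), ((-2, -7), some ((2, 7), (2, 7)))],
  [((0, 0), none)],
  [((0, 0), none)],
  [((0, 0), none)]]

def ggR3o1 : List (Lin × Lin) := [((0, 2), (1, 2)), ((2, 8), (1, 2))]

def ffR3o1_0 : List TP := [
  ⟨(0, 0), (0, 0), (4, 12), 0, some (0, 4)⟩, ⟨(0, 1), (0, 1), (4, 12), 1, some (1, 5)⟩, ⟨(0, 2),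
    (1, 3), (0, -1), 0, none⟩, ⟨(1, 4), (2, 5), (4, 14), 0, none⟩, ⟨(2, 6), (2, 6),
    (4, 14), 1, none⟩, ⟨(2, 7), (2, 7), (2, 7), 0, some (2, 6)⟩, ⟨(2, 8), (3, 9),
    (2, 7), 0, none⟩, ⟨(3, 10), (4, 11), (-2, -7), 0, none⟩, ⟨(4, 12), (4, 12),
    (-2, -7), 0, some (4, 1)⟩, ⟨(4, 13), (4, 13), (-2, -7), 0, none⟩, ⟨(4, 14), (4, 14),
    (2, 7), 1, some (3, 7)⟩, ⟨(4, 15), (5, 15), (2, 7), 1, none⟩, ⟨(5, 16), (5, 16),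
    (0, 1), 1, none⟩, ⟨(5, 17), (6, 19), (2, 6), 1, none⟩, ⟨(6, 20), (6, 20),
    (-6, -20), 0, none⟩, ⟨(6, 21), (8, 24), (-4, -14), 1, none⟩, ⟨(8, 25), (8, 25),
    (-4, -14), 1, some (5, 3)⟩]

def ffR3o1_1 : List TP := [
  ⟨(0, 0), (0, 0), (2, 6), 0, some (0, 1)⟩, ⟨(0, 1), (0, 1), (0, 1), 0, some (1, 1)⟩, ⟨(0, 2),
    (1, 2), (0, 1), 0, none⟩, ⟨(1, 3), (2, 6), (2, 6), 0, none⟩, ⟨(2, 7), (2, 7),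
    (4, 12), 1, some (2, 7)⟩, ⟨(2, 8), (3, 9), (2, 6), 0, none⟩, ⟨(3, 10), (4, 11),
    (4, 14), 1, none⟩, ⟨(4, 12), (4, 12), (0, 1), 0, some (4, 5)⟩, ⟨(4, 13), (4, 13),
    (-2, -6), 0, none⟩, ⟨(4, 14), (4, 14), (-4, -14), 0, some (3, 0)⟩, ⟨(4, 15), (5, 15),
    (-2, -7), 0, none⟩, ⟨(5, 16), (5, 16), (2, 7), 1, none⟩, ⟨(5, 17), (6, 19),
    (0, -1), 1, none⟩, ⟨(6, 20), (6, 20), (-6, -19), 0, none⟩, ⟨(6, 21), (7, 23),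
    (0, -1), 1, none⟩, ⟨(7, 24), (8, 24), (-6, -20), 1, none⟩, ⟨(8, 25), (8, 25),
    (-6, -20), 1, some (5, 1)⟩]

def ffR3o1_2 : List TP := [
  ⟨(0, 0), (0, 0), (4, 15), 0, some (0, 6)⟩, ⟨(0, 1), (0, 1), (6, 19), 0, some (1, 7)⟩, ⟨(0, 2),
    (1, 2), (4, 14), 0, none⟩, ⟨(1, 3), (1, 3), (6, 20), 1, none⟩, ⟨(1, 4), (2, 6),
    (0, -1), 0, none⟩, ⟨(2, 7), (2, 7), (0, -1), 0, some (2, 1)⟩, ⟨(2, 8), (3, 10),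
    (0, -1), 0, none⟩, ⟨(3, 11), (4, 11), (2, 6), 1, none⟩, ⟨(4, 12), (4, 12),
    (2, 6), 1, some (4, 6)⟩, ⟨(4, 13), (4, 13), (2, 6), 1, none⟩, ⟨(4, 14), (4, 14),
    (0, -1), 0, some (3, 5)⟩, ⟨(4, 15), (5, 16), (2, 6), 1, none⟩, ⟨(5, 17), (6, 19),
    (-2, -7), 1, none⟩, ⟨(6, 20), (6, 20), (-2, -6), 1, none⟩, ⟨(6, 21), (7, 22),
    (-6, -20), 0, none⟩, ⟨(7, 23), (8, 24), (0, 1), 1, none⟩, ⟨(8, 25), (8, 25),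
    (-8, -25), 0, some (5, 0)⟩]

def ffR3o1_3 : List TP := [
  ⟨(0, 0), (0, 0), (4, 13), 0, some (0, 5)⟩, ⟨(0, 1), (0, 1), (2, 6), 0, some (1, 2)⟩, ⟨(0, 2),
    (1, 3), (4, 12), 0, none⟩, ⟨(1, 4), (2, 5), (4, 13), 0, none⟩, ⟨(2, 6), (2, 6),
    (-2, -6), 0, none⟩, ⟨(2, 7), (2, 7), (4, 13), 1, some (2, 7)⟩, ⟨(2, 8), (3, 9),
    (-2, -6), 0, none⟩, ⟨(3, 10), (3, 10), (2, 6), 1, none⟩, ⟨(3, 11), (4, 11),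
    (4, 13), 1, none⟩, ⟨(4, 12), (4, 12), (2, 7), 1, some (4, 7)⟩, ⟨(4, 13), (4, 13),
    (-4, -12), 0, none⟩, ⟨(4, 14), (4, 14), (-2, -6), 0, some (3, 3)⟩, ⟨(4, 15), (5, 15),
    (-2, -6), 0, none⟩, ⟨(5, 16), (5, 16), (-4, -12), 0, none⟩, ⟨(5, 17), (6, 18),
    (-2, -6), 1, none⟩, ⟨(6, 19), (6, 19), (-4, -13), 0, none⟩, ⟨(6, 20), (7, 22),
    (0, 1), 1, none⟩, ⟨(7, 23), (7, 23), (-4, -13), 1, none⟩, ⟨(7, 24), (8, 24),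
    (-6, -19), 1, none⟩, ⟨(8, 25), (8, 25), (0, 0), 1, some (5, 8)⟩]

def ffR3o1_4 : List TP := [
  ⟨(0, 0), (0, 0), (6, 20), 0, some (0, 7)⟩, ⟨(0, 1), (0, 1), (0, -1), 0, some (1, 0)⟩, ⟨(0, 2),
    (1, 3), (6, 19), 0, none⟩, ⟨(1, 4), (2, 5), (0, 0), 0, none⟩, ⟨(2, 6), (2, 6),
    (0, 1), 0, none⟩, ⟨(2, 7), (2, 7), (2, 6), 0, some (2, 5)⟩, ⟨(2, 8), (3, 9),
    (-2, -7), 0, none⟩, ⟨(3, 10), (3, 10), (4, 13), 1, none⟩, ⟨(3, 11), (4, 11),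
    (0, 0), 0, none⟩, ⟨(4, 12), (4, 12), (-2, -6), 0, some (4, 1)⟩, ⟨(4, 13), (4, 13),
    (0, 1), 1, none⟩, ⟨(4, 14), (4, 14), (0, 1), 1, some (3, 6)⟩, ⟨(4, 15), (5, 15),
    (0, 1), 1, none⟩, ⟨(5, 16), (5, 16), (-4, -13), 0, none⟩, ⟨(5, 17), (6, 18),
    (2, 7), 1, none⟩, ⟨(6, 19), (6, 19), (0, 0), 1, none⟩, ⟨(6, 20), (7, 22),
    (-4, -12), 1, none⟩, ⟨(7, 23), (8, 24), (-2, -6), 1, none⟩, ⟨(8, 25), (8, 25),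
    (-4, -13), 0, some (5, 4)⟩]

def ffR3o1_5 : List TP := [
  ⟨(0, 0), (0, 0), (0, 1), 0, some (0, 1)⟩, ⟨(0, 1), (0, 1), (2, 7), 0, some (1, 3)⟩, ⟨(0, 2),
    (1, 2), (2, 7), 0, none⟩, ⟨(1, 3), (1, 3), (0, 1), 0, none⟩, ⟨(1, 4), (2, 5),
    (2, 7), 0, none⟩, ⟨(2, 6), (2, 6), (0, 0), 0, none⟩, ⟨(2, 7), (2, 7),
    (4, 14), 1, some (2, 7)⟩, ⟨(2, 8), (3, 9), (4, 14), 1, none⟩, ⟨(3, 10), (3, 10),
    (0, 0), 0, none⟩, ⟨(3, 11), (4, 11), (-2, -6), 0, none⟩, ⟨(4, 12), (4, 12),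
    (4, 13), 1, some (4, 8)⟩, ⟨(4, 13), (4, 13), (0, 0), 1, none⟩, ⟨(4, 14), (4, 14),
    (-2, -7), 0, some (3, 2)⟩, ⟨(4, 15), (5, 16), (0, -1), 1, none⟩, ⟨(5, 17), (6, 18),
    (0, 0), 1, none⟩, ⟨(6, 19), (6, 19), (-6, -19), 0, none⟩, ⟨(6, 20), (6, 20),
    (0, 0), 1, none⟩, ⟨(6, 21), (7, 22), (-6, -19), 0, none⟩, ⟨(7, 23), (7, 23),
    (-2, -7), 1, none⟩, ⟨(7, 24), (8, 24), (0, 0), 1, none⟩, ⟨(8, 25), (8, 25),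
    (-2, -6), 1, some (5, 7)⟩]

def ffR3o1_6 : List TP := [
  ⟨(0, 0), (0, 0), (6, 21), 0, some (0, 7)⟩, ⟨(0, 1), (0, 1), (4, 13), 0, some (1, 6)⟩, ⟨(0, 2),
    (1, 2), (6, 20), 0, none⟩, ⟨(1, 3), (1, 3), (0, 0), 0, none⟩, ⟨(1, 4), (2, 5),
    (6, 20), 1, none⟩, ⟨(2, 6), (2, 6), (4, 13), 0, none⟩, ⟨(2, 7), (2, 7),
    (0, 1), 0, some (2, 3)⟩, ⟨(2, 8), (3, 9), (0, 1), 0, none⟩, ⟨(3, 10), (4, 11),
    (2, 7), 1, none⟩, ⟨(4, 12), (4, 12), (0, 0), 1, some (4, 4)⟩, ⟨(4, 13), (4, 13),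
    (-4, -13), 0, none⟩, ⟨(4, 14), (4, 14), (2, 6), 1, some (3, 7)⟩, ⟨(4, 15), (5, 16),
    (-4, -14), 0, none⟩, ⟨(5, 17), (6, 18), (-4, -13), 0, none⟩, ⟨(6, 19), (6, 19),
    (-4, -12), 1, none⟩, ⟨(6, 20), (6, 20), (-2, -7), 1, none⟩, ⟨(6, 21), (7, 22),
    (-2, -6), 1, none⟩, ⟨(7, 23), (7, 23), (0, 0), 1, none⟩, ⟨(7, 24), (8, 24),
    (-4, -13), 1, none⟩, ⟨(8, 25), (8, 25), (-6, -19), 1, some (5, 1)⟩]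

def ffR3o1 : List (List TP) := [ffR3o1_0, ffR3o1_1, ffR3o1_2, ffR3o1_3, ffR3o1_4, ffR3o1_5, ffR3o1_6]

theorem attainsR3o1 {s n h j : ℕ} (hn : (n : ℤ) = 8 * s + 26) (hh : (h : ℤ) = 4 * s + 13)
    (hj : (j : ℤ) ≤ 2 * s + 4) : Attains n (4 * j + 7) :=
  attains_of_chk (d := sqR3o1) (H := hhR3o1) (A := aaR3o1) (G := ggR3o1) (F := ffR3o1)
    (by decide +kernel) (by decide +kernel) (by decide +kernel) (by decide +kernel)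
    (by decide +kernel) (by decide +kernel) (by decide +kernel) (by decide +kernel)
    (by decide +kernel) hn hh (le_trans hj (le_of_eq (by rfl)))

end Pool.Agent.Hhelper79.PL
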