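import Mathlib
import Pool.Agent.Hhelper79.PL.D1o
import Pool.Agent.Hhelper79.PL.D1e
import Pool.Agent.Hhelper79.PL.D2o
import Pool.Agent.Hhelper79.PL.D2e
import Pool.Agent.Hhelper79.PL.D3o
import Pool.Agent.Hhelper79.PL.D3e
import Pool.Agent.Hhelper79.PL.D3e0

set_option autoImplicit false

/-!
`n = 2 mod 4`, `n >= 26`: all values `m` with `0 < m <= n - 2`, except `(n, m) = (30, 27)`.
-/

namespace Pool.Agent.Hhelper79.PL

open Pool.Agent.Hhelper79.LT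

/-- `m = 1 mod 4` -/
theorem attains_r1 {n m : ℕ} (hn : n % 4 = 2) (h26 : 26 ≤ n) (h4 : m % 4 = 1)
    (hm : m + 5 ≤ n) : Attains n m := by
  have hn8 : n % 8 = 2 ∨ n % 8 = 6 := by omega
  rcases hn8 with h8 | h8
  · obtain ⟨s, hs⟩ : ∃ s, n = 8 * s + 26 := ⟨(n - 26) / 8, by omega⟩
    by_cases hbig : m ≤ 4 * (2 * s + 4) + 1
    · obtain ⟨j, rfl⟩ : ∃ j, m = 4 * j + 1 := ⟨m / 4, by omega⟩
      exact attainsR1o0 (s := s) (h := 4 * s + 13) (by rw [hs]; push_cast; ring)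
        (by push_cast; ring) (by omega)
    · obtain ⟨j, rfl⟩ : ∃ j, m = 4 * j + 5 := ⟨(m - 5) / 4, by omega⟩
      exact attainsR1o1 (s := s) (h := 4 * s + 13) (by rw [hs]; push_cast; ring)
        (by push_cast; ring) (by omega)
  · obtain ⟨s, hs⟩ : ∃ s, n = 8 * s + 30 := ⟨(n - 30) / 8, by omega⟩
    by_cases hbig : m ≤ 4 * (2 * s + 4) + 1
    · obtain ⟨j, rfl⟩ : ∃ j, m = 4 * j + 1 := ⟨m / 4, by omega⟩
      exact attainsR1e0 (s := s) (h := 4 * s + 15) (by rw [hs]; push_cast; ring)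
        (by push_cast; ring) (by omega)
    · by_cases hbig2 : m ≤ 4 * (2 * s + 4) + 5
      · obtain ⟨j, rfl⟩ : ∃ j, m = 4 * j + 5 := ⟨(m - 5) / 4, by omega⟩
        exact attainsR1e1 (s := s) (h := 4 * s + 15) (by rw [hs]; push_cast; ring)
          (by push_cast; ring) (by omega)
      · obtain ⟨j, rfl⟩ : ∃ j, m = 4 * j + 9 := ⟨(m - 9) / 4, by omega⟩
        exact attainsR1e2 (s := s) (h := 4 * s + 15) (by rw [hs]; push_cast; ring)
          (by push_cast; ring) (by omega)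

/-- `m = 2 mod 4` -/
theorem attains_r2 {n m : ℕ} (hn : n % 4 = 2) (h26 : 26 ≤ n) (h4 : m % 4 = 2)
    (hm : m + 4 ≤ n) : Attains n m := by
  have hn8 : n % 8 = 2 ∨ n % 8 = 6 := by omega
  rcases hn8 with h8 | h8
  · obtain ⟨s, hs⟩ : ∃ s, n = 8 * s + 26 := ⟨(n - 26) / 8, by omega⟩
    by_cases hbig : m ≤ 4 * (2 * s + 4) + 2
    · obtain ⟨j, rfl⟩ : ∃ j, m = 4 * j + 2 := ⟨m / 4, by omega⟩
      exact attainsR2o0 (s := s) (h := 4 * s + 13) (by rw [hs]; push_cast; ring)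
        (by push_cast; ring) (by omega)
    · obtain ⟨j, rfl⟩ : ∃ j, m = 4 * j + 6 := ⟨(m - 6) / 4, by omega⟩
      exact attainsR2o1 (s := s) (h := 4 * s + 13) (by rw [hs]; push_cast; ring)
        (by push_cast; ring) (by omega)
  · obtain ⟨s, hs⟩ : ∃ s, n = 8 * s + 30 := ⟨(n - 30) / 8, by omega⟩
    by_cases hbig : m ≤ 4 * (2 * s + 5) + 2
    · obtain ⟨j, rfl⟩ : ∃ j, m = 4 * j + 2 := ⟨m / 4, by omega⟩
      exact attainsR2e0 (s := s) (h := 4 * s + 15) (by rw [hs]; push_cast; ring)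
        (by push_cast; ring) (by omega)
    · obtain ⟨j, rfl⟩ : ∃ j, m = 4 * j + 6 := ⟨(m - 6) / 4, by omega⟩
      exact attainsR2e1 (s := s) (h := 4 * s + 15) (by rw [hs]; push_cast; ring)
        (by push_cast; ring) (by omega)

/-- `m = 3 mod 4` -/
theorem attains_r3 {n m : ℕ} (hn : n % 4 = 2) (h26 : 26 ≤ n) (h4 : m % 4 = 3)
    (hm : m + 3 ≤ n) (hex : ¬ (n = 30 ∧ m = 27)) : Attains n m := by
  have hn8 : n % 8 = 2 ∨ n % 8 = 6 := by omega
  rcases hn8 with h8 | h8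
  · obtain ⟨s, hs⟩ : ∃ s, n = 8 * s + 26 := ⟨(n - 26) / 8, by omega⟩
    by_cases hbig : m ≤ 4 * (2 * s + 4) + 3
    · obtain ⟨j, rfl⟩ : ∃ j, m = 4 * j + 3 := ⟨m / 4, by omega⟩
      exact attainsR3o0 (s := s) (h := 4 * s + 13) (by rw [hs]; push_cast; ring)
        (by push_cast; ring) (by omega)
    · obtain ⟨j, rfl⟩ : ∃ j, m = 4 * j + 7 := ⟨(m - 7) / 4, by omega⟩
      exact attainsR3o1 (s := s) (h := 4 * s + 13) (by rw [hs]; push_cast; ring)
        (by push_cast; ring) (by omega)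
  · obtain ⟨s, hs⟩ : ∃ s, n = 8 * s + 22 := ⟨(n - 22) / 8, by omega⟩
    by_cases hbig : m ≤ 4 * (2 * s + 3) + 3
    · obtain ⟨j, rfl⟩ : ∃ j, m = 4 * j + 3 := ⟨m / 4, by omega⟩
      exact attainsR3e00 (s := s) (h := 4 * s + 11) (by rw [hs]; push_cast; ring)
        (by push_cast; ring) (by omega)
    · obtain ⟨u, rfl⟩ : ∃ u, s = u + 2 := ⟨s - 2, by omega⟩
      obtain ⟨j, rfl⟩ : ∃ j, m = 4 * j + 7 := ⟨(m - 7) / 4, by omega⟩
      exact attainsR3e1 (s := u) (h := 4 * u + 19) (by rw [hs]; push_cast; ring)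
        (by push_cast; ring) (by omega)

/-- `n = 2 mod 4`, `n >= 26` -/
theorem attains_two_mod_four {n m : ℕ} (hn : n % 4 = 2) (h26 : 26 ≤ n) (hm : m + 2 ≤ n)
    (hex : ¬ (n = 30 ∧ m = 27)) : Attains n m := by
  have h : m % 4 = 0 ∨ m % 4 = 1 ∨ m % 4 = 2 ∨ m % 4 = 3 := by omega
  rcases h with h | h | h | h
  · obtain ⟨j, rfl⟩ : ∃ j, m = 4 * j := ⟨m / 4, by omega⟩
    exact attains_four (h := n / 2) (by omega) (by omega) (by omega)
  · exact attains_r1 hn h26 h (by omega)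
  · exact attains_r2 hn h26 h (by omega)
  · exact attains_r3 hn h26 h (by omega) hex

end Pool.Agent.Hhelper79.PL
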