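import Mathlib
import Pool.Agent.Hhelper79.PL.Two
import Pool.Agent.Hhelper79.PL.C22
import Pool.Agent.Hhelper79.PL.C30
import Pool.Agent.Hhelper79.LT.QData
import Pool.Agent.Hhelper79.BSP.Full
import Pool.Agent.Hhelper51.LT.Final12
import Pool.Agent.Hhelper51.LT.Small
import Pool.Agent.Hhelper6.LT.N10
import Pool.Agent.Hhelper6.LT.N12
import Pool.Agent.Hhelper6.LT.N14
import Pool.Agent.Hhelper6.LT.N18

set_option autoImplicit false

/-!
All even `n >= 10` and all `m <= n - 2`.
-/

namespace Pool.Agent.Hhelper79.PL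

open Pool.Agent.Hhelper79.LT

/-- `n = 22` -/
theorem attains_22 {m : ℕ} (hm : m + 2 ≤ 22) : Attains 22 m := by
  have h : m % 4 = 0 ∨ m % 4 = 1 ∨ m % 4 = 2 ∨ m % 4 = 3 := by omega
  rcases h with h | h | h | h
  · obtain ⟨j, rfl⟩ : ∃ j, m = 4 * j := ⟨m / 4, by omega⟩
    exact attains_four (h := 11) (by norm_num) (by norm_num) (by omega)
  · by_cases hb : m ≤ 9
    · obtain ⟨j, rfl⟩ : ∃ j, m = 4 * j + 1 := ⟨m / 4, by omega⟩
      exact attainsC22r1_0 (s := 0) (h := 11) (by norm_num) (by norm_num) (by omega)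
    · obtain ⟨j, rfl⟩ : ∃ j, m = 4 * j + 9 := ⟨(m - 9) / 4, by omega⟩
      exact attainsC22r1_2 (s := 0) (h := 11) (by norm_num) (by norm_num) (by omega)
  · by_cases hb : m ≤ 14
    · obtain ⟨j, rfl⟩ : ∃ j, m = 4 * j + 2 := ⟨m / 4, by omega⟩
      exact attainsC22r2_0 (s := 0) (h := 11) (by norm_num) (by norm_num) (by omega)
    · obtain ⟨j, rfl⟩ : ∃ j, m = 4 * j + 6 := ⟨(m - 6) / 4, by omega⟩
      exact attainsC22r2_1 (s := 0) (h := 11) (by norm_num) (by norm_num) (by omega)
  · by_cases hb : m ≤ 15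
    · obtain ⟨j, rfl⟩ : ∃ j, m = 4 * j + 3 := ⟨m / 4, by omega⟩
      exact attainsC22r3_0 (s := 0) (h := 11) (by norm_num) (by norm_num) (by omega)
    · obtain ⟨j, rfl⟩ : ∃ j, m = 4 * j + 7 := ⟨(m - 7) / 4, by omega⟩
      exact attainsC22r3_1 (s := 0) (h := 11) (by norm_num) (by norm_num) (by omega)

/-- a small order from a list of values not divisible by four -/
theorem small_case {n h : ℕ} (hn : n = 2 * h) (hh : 2 ≤ h) (l : List ℕ)
    (hl : ∀ m ∈ l, Attains n m) (hall : ∀ m < n - 1, m % 4 = 0 ∨ m ∈ l) {m : ℕ}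
    (hm : m + 2 ≤ n) : Attains n m := by
  rcases hall m (by omega) with h4 | h4
  · obtain ⟨j, rfl⟩ : ∃ j, m = 4 * j := ⟨m / 4, by omega⟩
    exact attains_four hn hh (by omega)
  · exact hl m h4

/-- every even order `n >= 10` and every `m <= n - 2` -/
theorem attains_all {n m : ℕ} (hn : Even n) (h10 : 10 ≤ n) (hm : m + 2 ≤ n) : Attains n m := by
  obtain ⟨k, hk⟩ := hn
  have h4 : n % 4 = 0 ∨ n % 4 = 2 := by omega
  rcases h4 with h4 | h4
  · obtain ⟨q, rfl⟩ : ∃ q, n = 4 * q := ⟨n / 4, by omega⟩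
    rcases Nat.lt_or_ge q 4 with hq | hq
    · obtain rfl : q = 3 := by omega
      exact small_case (n := 12) (h := 6) (by norm_num) (by norm_num) [1, 2, 3, 5, 6, 7, 9, 10]
        (fun m h => Pool.Agent.Hhelper6.LT.attains_twelve h) (by decide) hm
    · by_cases h1 : m = 1
      · subst h1
        rcases Nat.lt_or_ge q 5 with hq5 | hq5
        · obtain rfl : q = 4 := by omega
          exact Pool.Agent.Hhelper51.LT.attains_16_1
        · exact Pool.Agent.Hhelper51.LT.attains_one_q hq5
      · by_cases h2 : m = 2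
        · subst h2
          exact Pool.Agent.Hhelper51.LT.attains_two_q hq
        · by_cases h5 : m = 5
          · subst h5
            rcases Nat.lt_or_ge q 6 with hq6 | hq6
            · have hq' : q = 4 ∨ q = 5 := by omega
              rcases hq' with rfl | rfl
              · exact Pool.Agent.Hhelper51.LT.attains_16_5
              · exact Pool.Agent.Hhelper51.LT.attains_20_5
            · exact Pool.Agent.Hhelper51.LT.attains_five_q hq6
          · rcases Nat.eq_zero_or_pos m with h0 | h0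
            · subst h0
              exact attains_four (h := 2 * q) (j := 0) (by ring) (by omega) (by omega)
            · exact attains_quad hq h1 h2 h5 h0 hm
  · rcases Nat.lt_or_ge n 26 with h26 | h26
    · have hn' : n = 10 ∨ n = 14 ∨ n = 18 ∨ n = 22 := by omega
      rcases hn' with rfl | rfl | rfl | rfl
      · exact small_case (n := 10) (h := 5) (by norm_num) (by norm_num) [1, 2, 3, 5, 6, 7]
          (fun m h => Pool.Agent.Hhelper6.LT.attains_ten h) (by decide) hm
      · exact small_case (n := 14) (h := 7) (by norm_num) (by norm_num)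
          [1, 2, 3, 5, 6, 7, 9, 10, 11]
          (fun m h => Pool.Agent.Hhelper6.LT.attains_fourteen h) (by decide) hm
      · exact small_case (n := 18) (h := 9) (by norm_num) (by norm_num)
          [1, 2, 3, 5, 6, 7, 9, 10, 11, 13, 14, 15]
          (fun m h => Pool.Agent.Hhelper6.LT.attains_eighteen h) (by decide) hm
      · exact attains_22 hm
    · by_cases hex : n = 30 ∧ m = 27
      · obtain ⟨rfl, rfl⟩ := hex
        exact attainsC30 (s := 0) (h := 15) (j := 5) (by norm_num) (by norm_num) (by norm_num)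
      · exact attains_two_mod_four h4 h26 hm hex

/-- the full statement -/
theorem main (n : ℕ) (hn : Even n) (h10 : 10 ≤ n) (m : ℕ) (hm : m ≤ n - 2 ∨ m = n) :
    ∃ L : Fin n → Fin n → Fin n,
      (∀ i, Function.Injective (L i)) ∧
      (∀ j, Function.Injective (fun i => L i j)) ∧
      (∃ S : Finset (Equiv.Perm (Fin n)), S.card = m ∧
        (∀ σ ∈ S, Function.Injective (fun i => L i (σ i))) ∧
        (∀ σ ∈ S, ∀ τ ∈ S, σ ≠ τ → ∀ i, σ i ≠ τ i)) ∧
      ∀ S : Finset (Equiv.Perm (Fin n)),
        (∀ σ ∈ S, Function.Injective (fun i => L i (σ i))) →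
        (∀ σ ∈ S, ∀ τ ∈ S, σ ≠ τ → ∀ i, σ i ≠ τ i) →
        S.card ≤ m := by
  rcases hm with hm | hm
  · exact (attains_all hn h10 (by omega)).frozen (by omega)
  · subst hm
    exact Pool.Agent.Hhelper79.BSP.exists_mate hn h10

end Pool.Agent.Hhelper79.PL
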